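import Mathlib

/-!
# Arrays of coefficients

Polynomials of degree at most `K` in each of `k` variables, as arrays of coefficients: values in
an algebra, shifts, scalings and the restriction to a line.
-/

set_option autoImplicit false

namespace Pool.R1P

open Finset

/-- The exponents. -/
abbrev Ix (k K : ℕ) := Fin k → Fin (K + 1)

/-- The arrays of coefficients. -/
abbrev Ar (k K : ℕ) := Ix k K → ℝ

variable {k K : ℕ}

/-- The total degree of an exponent. -/
def dg (α : Ix k K) : ℕ := ∑ i, (α i : ℕ)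

theorem dg_le (α : Ix k K) : dg α ≤ k * K := by
  unfold dg
  calc ∑ i, (α i : ℕ) ≤ ∑ _i : Fin k, K :=
        Finset.sum_le_sum fun i _ => Nat.lt_succ_iff.mp (α i).2
    _ = k * K := by simp

theorem dg_mono {α β : Ix k K} (h : ∀ i, β i ≤ α i) : dg β ≤ dg α :=
  Finset.sum_le_sum fun i _ => h i

/-- The value in an algebra. -/
noncomputable def ev {R : Type} [CommRing R] [Algebra ℝ R] (q : Ar k K) (x : Fin k → R) : R :=
  ∑ α, algebraMap ℝ R (q α) * ∏ i, x i ^ (α i : ℕ)

/-- The entry of the shift. -/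
noncomputable def se (v : Fin k → ℝ) (β α : Ix k K) : ℝ :=
  ∏ i, (((α i : ℕ).choose (β i) : ℝ) * v i ^ ((α i : ℕ) - β i))

/-- The shift of the argument. -/
noncomputable def sh (v : Fin k → ℝ) (q : Ar k K) : Ar k K := fun β => ∑ α, q α * se v β α

/-- The scaling of the argument. -/
noncomputable def sc (t : ℝ) (q : Ar k K) : Ar k K := fun α => t ^ dg α * q α

theorem ev_sh {R : Type} [CommRing R] [Algebra ℝ R] (q : Ar k K) (v : Fin k → ℝ)
    (x : Fin k → R) : ev (sh v q) x = ev q (fun i => algebraMap ℝ R (v i) + x i) := by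
  unfold ev sh
  have h1 : ∀ α : Ix k K, ∏ i, (algebraMap ℝ R (v i) + x i) ^ (α i : ℕ) =
      ∑ β : Ix k K, algebraMap ℝ R (se v β α) * ∏ i, x i ^ (β i : ℕ) := by
    intro α
    have h2 : ∀ i, (algebraMap ℝ R (v i) + x i) ^ (α i : ℕ) = ∑ b : Fin (K + 1),
        algebraMap ℝ R (((α i : ℕ).choose b : ℝ) * v i ^ ((α i : ℕ) - b)) * x i ^ (b : ℕ) := by
      intro i
      rw [Fin.sum_univ_eq_sum_range (fun b => algebraMap ℝ R (((α i : ℕ).choose b : ℝ) *
        v i ^ ((α i : ℕ) - b)) * x i ^ b) (K + 1), add_comm (algebraMap ℝ R (v i)), add_pow]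
      have h3 : range ((α i : ℕ) + 1) ⊆ range (K + 1) :=
        Finset.range_subset_range.2 (α i).2
      rw [← Finset.sum_subset h3]
      · refine Finset.sum_congr rfl fun b _ => ?_
        rw [map_mul, map_pow, map_natCast]
        ring
      · intro b _ hb
        rw [Finset.mem_range, not_lt] at hb
        rw [Nat.choose_eq_zero_of_lt (by omega)]
        simp
    rw [Finset.prod_congr rfl fun i _ => h2 i, Finset.prod_univ_sum, Fintype.piFinset_univ]
    refine Finset.sum_congr rfl fun β _ => ?_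
    rw [Finset.prod_mul_distrib, ← map_prod]
    rfl
  calc ∑ β, algebraMap ℝ R (∑ α, q α * se v β α) * ∏ i, x i ^ (β i : ℕ)
      = ∑ β, ∑ α, algebraMap ℝ R (q α) * (algebraMap ℝ R (se v β α) * ∏ i, x i ^ (β i : ℕ)) := by
        refine Finset.sum_congr rfl fun β _ => ?_
        rw [map_sum, Finset.sum_mul]
        refine Finset.sum_congr rfl fun α _ => ?_
        rw [map_mul, mul_assoc]
    _ = ∑ α, algebraMap ℝ R (q α) * ∏ i, (algebraMap ℝ R (v i) + x i) ^ (α i : ℕ) := by
        rw [Finset.sum_comm]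
        refine Finset.sum_congr rfl fun α _ => ?_
        rw [h1 α, Finset.mul_sum]

/-- One coordinate of the additivity. -/
theorem one_add (g a : Fin (K + 1)) (v w : ℝ) :
    ∑ b : Fin (K + 1), (((b : ℕ).choose g : ℝ) * w ^ ((b : ℕ) - g)) *
      (((a : ℕ).choose b : ℝ) * v ^ ((a : ℕ) - b)) =
    ((a : ℕ).choose g : ℝ) * (w + v) ^ ((a : ℕ) - g) := by
  rw [Fin.sum_univ_eq_sum_range (fun b => ((b.choose g : ℝ) * w ^ (b - g)) *
    (((a : ℕ).choose b : ℝ) * v ^ ((a : ℕ) - b))) (K + 1)]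
  by_cases h : (g : ℕ) ≤ a
  · rw [add_pow, Finset.mul_sum]
    have e1 : range ((a : ℕ) - g + 1) = range ((a : ℕ) + 1 - g) := by
      congr 1
      omega
    have h1 : ∑ b ∈ range (K + 1), ((b.choose g : ℝ) * w ^ (b - g)) *
        (((a : ℕ).choose b : ℝ) * v ^ ((a : ℕ) - b)) =
        ∑ b ∈ Ico (g : ℕ) (a + 1), ((b.choose g : ℝ) * w ^ (b - g)) *
        (((a : ℕ).choose b : ℝ) * v ^ ((a : ℕ) - b)) := by
      symm
      refine Finset.sum_subset (fun b hb => ?_) fun b _ hb => ?_
      · rw [Finset.mem_Ico] at hb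
        have := a.2
        exact Finset.mem_range.2 (by omega)
      · rw [Finset.mem_Ico, not_and_or] at hb
        rcases hb with hb | hb
        · rw [Nat.choose_eq_zero_of_lt (by omega)]
          simp
        · rw [Nat.choose_eq_zero_of_lt (show (a : ℕ) < b by omega)]
          simp
    rw [h1, Finset.sum_Ico_eq_sum_range, e1]
    refine Finset.sum_congr rfl fun m hm => ?_
    rw [Finset.mem_range] at hm
    have h2 : ((g : ℕ) + m) ≤ a := by omega
    have h3 := Nat.choose_mul (n := (a : ℕ)) (Nat.le_add_right (g : ℕ) m)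
    rw [Nat.add_sub_cancel_left] at h3
    have h4 : (((a : ℕ).choose (g + m) : ℝ)) * ((g + m).choose g : ℝ) =
        ((a : ℕ).choose g : ℝ) * (((a : ℕ) - g).choose m : ℝ) := by exact_mod_cast h3
    rw [Nat.add_sub_cancel_left, show (a : ℕ) - (g + m) = a - g - m by omega]
    calc _ = (((a : ℕ).choose (g + m) : ℝ)) * ((g + m).choose g : ℝ) *
          (w ^ m * v ^ ((a : ℕ) - g - m)) := by ring
      _ = _ := by
          rw [h4]
          ring
  · rw [Nat.choose_eq_zero_of_lt (by omega), Nat.cast_zero, zero_mul]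
    refine Finset.sum_eq_zero fun b _ => ?_
    by_cases hb : b < g
    · rw [Nat.choose_eq_zero_of_lt hb]
      simp
    · rw [Nat.choose_eq_zero_of_lt (show (a : ℕ) < b by omega)]
      simp

theorem se_add (v w : Fin k → ℝ) (γ α : Ix k K) :
    ∑ β, se w γ β * se v β α = se (fun i => w i + v i) γ α := by
  unfold se
  rw [← Finset.prod_congr rfl fun i _ => one_add (γ i) (α i) (v i) (w i),
    Finset.prod_univ_sum, Fintype.piFinset_univ]
  refine Finset.sum_congr rfl fun β _ => ?_
  rw [← Finset.prod_mul_distrib]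

/-- Shifts add. -/
theorem sh_sh (v w : Fin k → ℝ) (q : Ar k K) : sh w (sh v q) = sh (fun i => w i + v i) q := by
  funext γ
  unfold sh
  calc ∑ β, (∑ α, q α * se v β α) * se w γ β
      = ∑ β, ∑ α, q α * (se w γ β * se v β α) := by
        refine Finset.sum_congr rfl fun β _ => ?_
        rw [Finset.sum_mul]
        exact Finset.sum_congr rfl fun α _ => by ring
    _ = ∑ α, q α * ∑ β, se w γ β * se v β α := by
        rw [Finset.sum_comm]
        exact Finset.sum_congr rfl fun α _ => by rw [Finset.mul_sum]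
    _ = _ := Finset.sum_congr rfl fun α _ => by rw [se_add]

theorem se_ne {v : Fin k → ℝ} {β α : Ix k K} (h : ¬ ∀ i, β i ≤ α i) : se v β α = 0 := by
  push Not at h
  obtain ⟨i, hi⟩ := h
  unfold se
  refine Finset.prod_eq_zero (Finset.mem_univ i) ?_
  rw [Nat.choose_eq_zero_of_lt (by exact_mod_cast hi)]
  simp

theorem se_self (v : Fin k → ℝ) (α : Ix k K) : se v α α = 1 := by
  unfold se
  simp

theorem se_zero (β α : Ix k K) : se (fun _ => 0) β α = if β = α then 1 else 0 := by
  by_cases h : β = α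
  · rw [if_pos h, h, se_self]
  · rw [if_neg h]
    by_cases h2 : ∀ i, β i ≤ α i
    · have h3 : ∃ i, β i ≠ α i := by
        by_contra hc
        push Not at hc
        exact h (funext hc)
      obtain ⟨i, hi⟩ := h3
      have h4 : (β i : ℕ) < α i := lt_of_le_of_ne (by exact_mod_cast h2 i)
        (fun hc => hi (Fin.ext hc))
      unfold se
      refine Finset.prod_eq_zero (Finset.mem_univ i) ?_
      rw [zero_pow (by omega), mul_zero]
    · exact se_ne h2

theorem sh_zero (q : Ar k K) : sh (fun _ => 0) q = q := by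
  funext β
  unfold sh
  simp only [se_zero, mul_ite, mul_one, mul_zero]
  rw [Finset.sum_ite_eq, if_pos (Finset.mem_univ _)]

/-- Scaling and shift. -/
theorem sh_sc (t : ℝ) (v : Fin k → ℝ) (q : Ar k K) :
    sh v (sc t q) = sc t (sh (fun i => t * v i) q) := by
  funext β
  unfold sh sc
  rw [Finset.mul_sum]
  refine Finset.sum_congr rfl fun α _ => ?_
  have h1 : t ^ dg α * se v β α = t ^ dg β * se (fun i => t * v i) β α := by
    unfold se dg
    rw [← Finset.prod_pow_eq_pow_sum, ← Finset.prod_pow_eq_pow_sum, ← Finset.prod_mul_distrib,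
      ← Finset.prod_mul_distrib]
    refine Finset.prod_congr rfl fun i _ => ?_
    by_cases h : (β i : ℕ) ≤ α i
    · obtain ⟨m, hm⟩ := Nat.exists_eq_add_of_le h
      rw [hm, Nat.add_sub_cancel_left, mul_pow, pow_add]
      ring
    · rw [Nat.choose_eq_zero_of_lt (by omega)]
      simp
  calc t ^ dg α * q α * se v β α = q α * (t ^ dg α * se v β α) := by ring
    _ = _ := by
      rw [h1]
      ring

theorem sc_sc (t u : ℝ) (q : Ar k K) : sc t (sc u q) = sc (t * u) q := by
  funext α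
  unfold sc
  rw [mul_pow]
  ring

theorem sh_sub (v : Fin k → ℝ) (q q' : Ar k K) (β : Ix k K) :
    sh v (fun α => q α - q' α) β = sh v q β - sh v q' β := by
  unfold sh
  rw [← Finset.sum_sub_distrib]
  exact Finset.sum_congr rfl fun α _ => by ring

theorem sc_sub (t : ℝ) (q q' : Ar k K) (β : Ix k K) :
    sc t (fun α => q α - q' α) β = sc t q β - sc t q' β := by
  unfold sc
  ring

/-- The constant of a shift by at most `V`. -/
noncomputable def Cs (k K : ℕ) (V : ℝ) : ℝ := (K + 1) ^ k * (2 ^ K * V ^ K) ^ k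

theorem se_le {v : Fin k → ℝ} {V : ℝ} (hV : 1 ≤ V) (hv : ∀ i, |v i| ≤ V) (β α : Ix k K) :
    |se v β α| ≤ (2 ^ K * V ^ K) ^ k := by
  unfold se
  rw [Finset.abs_prod]
  calc ∏ i, |((α i : ℕ).choose (β i) : ℝ) * v i ^ ((α i : ℕ) - β i)|
      ≤ ∏ _i : Fin k, (2 ^ K * V ^ K : ℝ) := by
        refine Finset.prod_le_prod (fun i _ => abs_nonneg _) fun i _ => ?_
        rw [abs_mul, abs_pow, Nat.abs_cast]
        have h1 : (((α i : ℕ).choose (β i) : ℕ) : ℝ) ≤ 2 ^ K := by
          have h2 : (α i : ℕ).choose (β i) ≤ 2 ^ (α i : ℕ) := Nat.choose_le_two_pow _ _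
          have h3 : 2 ^ (α i : ℕ) ≤ 2 ^ K :=
            Nat.pow_le_pow_right (by norm_num) (Nat.lt_succ_iff.mp (α i).2)
          exact_mod_cast h2.trans h3
        have h2 : |v i| ^ ((α i : ℕ) - β i) ≤ V ^ K := by
          refine (pow_le_pow_left₀ (abs_nonneg _) (hv i) _).trans ?_
          exact pow_le_pow_right₀ hV ((Nat.sub_le _ _).trans (Nat.lt_succ_iff.mp (α i).2))
        exact mul_le_mul h1 h2 (by positivity) (by positivity)
    _ = (2 ^ K * V ^ K) ^ k := by simp

theorem Cs_nonneg {V : ℝ} (hV : 1 ≤ V) : 0 ≤ Cs k K V := by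
  unfold Cs
  positivity

theorem card_Ix : (Fintype.card (Ix k K) : ℝ) = (K + 1) ^ k := by
  rw [Fintype.card_fun, Fintype.card_fin, Fintype.card_fin]
  push_cast
  ring

/-- The bound of a shift: only the coefficients of the same or larger degree count. -/
theorem sh_le {v : Fin k → ℝ} {V : ℝ} (hV : 1 ≤ V) (hv : ∀ i, |v i| ≤ V) {q : Ar k K}
    {β : Ix k K} {M : ℝ} (hM : 0 ≤ M) (h : ∀ α, dg β ≤ dg α → |q α| ≤ M) :
    |sh v q β| ≤ Cs k K V * M := by
  unfold sh
  refine (Finset.abs_sum_le_sum_abs _ _).trans ?_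
  calc ∑ α, |q α * se v β α| ≤ ∑ _α : Ix k K, M * (2 ^ K * V ^ K) ^ k := by
        refine Finset.sum_le_sum fun α _ => ?_
        rw [abs_mul]
        by_cases h2 : ∀ i, β i ≤ α i
        · exact mul_le_mul (h α (dg_mono h2)) (se_le hV hv β α) (abs_nonneg _) hM
        · rw [se_ne h2, abs_zero, mul_zero]
          have : 0 ≤ V := by linarith
          positivity
    _ = Cs k K V * M := by
        rw [Finset.sum_const, Finset.card_univ, nsmul_eq_mul, card_Ix]
        unfold Cs
        ring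

/-- A small shift. -/
theorem sh_small {v : Fin k → ℝ} {ε L : ℝ} (hL : 1 ≤ L) (h0 : 0 ≤ ε) (h1 : ε ≤ 1)
    (hv : ∀ i, |v i| ≤ L * ε) {q : Ar k K} {β : Ix k K} {M : ℝ} (hM : 0 ≤ M)
    (h : ∀ α, dg β ≤ dg α → |q α| ≤ M) : |sh v q β - q β| ≤ Cs k K L * (ε * M) := by
  classical
  have hL0 : 0 ≤ L := by linarith
  have e1 : sh v q β - q β = ∑ α ∈ univ.erase β, q α * se v β α := by
    unfold sh
    rw [← Finset.add_sum_erase _ _ (Finset.mem_univ β), se_self, mul_one]
    ring
  rw [e1]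
  refine (Finset.abs_sum_le_sum_abs _ _).trans ?_
  have key : ∀ α ∈ univ.erase β, |q α * se v β α| ≤ (2 ^ K * L ^ K) ^ k * (ε * M) := by
    intro α hα
    have hne : α ≠ β := Finset.ne_of_mem_erase hα
    rw [abs_mul]
    by_cases h2 : ∀ i, β i ≤ α i
    · have h3 : ∃ i, β i ≠ α i := by
        by_contra hc
        push Not at hc
        exact hne (funext hc).symm
      obtain ⟨i, hi⟩ := h3
      have h4 : (β i : ℕ) < α i := lt_of_le_of_ne (by exact_mod_cast h2 i)
        (fun hc => hi (Fin.ext hc))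
      have h5 : ∀ l, |((α l : ℕ).choose (β l) : ℝ) * v l ^ ((α l : ℕ) - β l)| ≤
          if l = i then 2 ^ K * (L ^ K * ε) else 2 ^ K * L ^ K := by
        intro l
        rw [abs_mul, abs_pow, Nat.abs_cast]
        have g1 : (((α l : ℕ).choose (β l) : ℕ) : ℝ) ≤ 2 ^ K := by
          have g2 : (α l : ℕ).choose (β l) ≤ 2 ^ (α l : ℕ) := Nat.choose_le_two_pow _ _
          have g3 : 2 ^ (α l : ℕ) ≤ 2 ^ K :=
            Nat.pow_le_pow_right (by norm_num) (Nat.lt_succ_iff.mp (α l).2)
          exact_mod_cast g2.trans g3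
        have g2 : |v l| ≤ L := (hv l).trans (mul_le_of_le_one_right hL0 h1)
        have g3 : (α l : ℕ) - β l ≤ K := (Nat.sub_le _ _).trans (Nat.lt_succ_iff.mp (α l).2)
        split_ifs with hl
        · refine mul_le_mul g1 ?_ (by positivity) (by positivity)
          rw [hl] at g3 ⊢
          obtain ⟨m, hm⟩ := Nat.exists_eq_succ_of_ne_zero (show (α i : ℕ) - β i ≠ 0 by omega)
          rw [hm] at g3 ⊢
          rw [pow_succ]
          have g4 : |v i| ^ m ≤ L ^ m := pow_le_pow_left₀ (abs_nonneg _) (by rw [← hl]; exact g2) _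
          calc |v i| ^ m * |v i| ≤ L ^ m * (L * ε) :=
                mul_le_mul g4 (hv i) (abs_nonneg _) (by positivity)
            _ = L ^ (m + 1) * ε := by ring
            _ ≤ L ^ K * ε := mul_le_mul_of_nonneg_right (pow_le_pow_right₀ hL g3) h0
        · refine mul_le_mul g1 ?_ (by positivity) (by positivity)
          exact (pow_le_pow_left₀ (abs_nonneg _) g2 _).trans (pow_le_pow_right₀ hL g3)
      have h6 : |se v β α| ≤ (2 ^ K * L ^ K) ^ k * ε := by
        unfold se
        rw [Finset.abs_prod]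
        refine (Finset.prod_le_prod (fun l _ => abs_nonneg _) fun l _ => h5 l).trans ?_
        have e2 : ∀ l : Fin k, (if l = i then (2 : ℝ) ^ K * (L ^ K * ε) else 2 ^ K * L ^ K) =
            2 ^ K * L ^ K * (if l = i then ε else 1) := by
          intro l
          split_ifs <;> ring
        rw [Finset.prod_congr rfl fun l _ => e2 l, Finset.prod_mul_distrib,
          Finset.prod_ite_eq', if_pos (Finset.mem_univ i)]
        simp
      calc |q α| * |se v β α| ≤ M * ((2 ^ K * L ^ K) ^ k * ε) :=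
            mul_le_mul (h α (dg_mono h2)) h6 (abs_nonneg _) hM
        _ = _ := by ring
    · rw [se_ne h2, abs_zero, mul_zero]
      positivity
  refine (Finset.sum_le_sum key).trans ?_
  rw [Finset.sum_const, nsmul_eq_mul]
  have c1 : ((univ.erase β).card : ℝ) ≤ (K + 1) ^ k := by
    rw [← card_Ix]
    exact_mod_cast Finset.card_le_univ _
  calc ((univ.erase β).card : ℝ) * ((2 ^ K * L ^ K) ^ k * (ε * M)) ≤
        (K + 1) ^ k * ((2 ^ K * L ^ K) ^ k * (ε * M)) :=
        mul_le_mul_of_nonneg_right c1 (by positivity)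
    _ = _ := by
        unfold Cs
        ring

/-! ### The restriction to a line -/

/-- The coefficient of order `j` on the line with the direction `e`. -/
noncomputable def lj (e : Fin k → ℝ) (j : ℕ) (q : Ar k K) : ℝ :=
  ∑ α, if dg α = j then q α * ∏ i, e i ^ (α i : ℕ) else 0

theorem ev_line (e : Fin k → ℝ) (z : ℝ) (q : Ar k K) :
    ev q (fun i => Polynomial.C (e i) * (Polynomial.X - Polynomial.C z)) =
      ∑ α, Polynomial.C (q α * ∏ i, e i ^ (α i : ℕ)) *
        (Polynomial.X - Polynomial.C z) ^ dg α := by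
  unfold ev dg
  refine Finset.sum_congr rfl fun α _ => ?_
  rw [Finset.prod_congr rfl fun i _ => mul_pow _ _ _, Finset.prod_mul_distrib,
    Finset.prod_pow_eq_pow_sum, map_mul, map_prod, ← mul_assoc]
  simp only [map_pow]
  rfl

theorem lj_eq (e : Fin k → ℝ) (j : ℕ) (q : Ar k K) :
    lj e j q = (ev q (fun i => Polynomial.C (e i) * (Polynomial.X : Polynomial ℝ))).coeff j := by
  have h := ev_line e 0 q
  simp only [map_zero, sub_zero] at h
  rw [h, Polynomial.finsetSum_coeff]
  unfold lj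
  refine Finset.sum_congr rfl fun α _ => ?_
  rw [Polynomial.coeff_C_mul, Polynomial.coeff_X_pow]
  by_cases hj : dg α = j
  · rw [if_pos hj, if_pos hj.symm, mul_one]
  · rw [if_neg hj, if_neg (Ne.symm hj), mul_zero]

/-- The coefficients on a line through a shifted point. -/
theorem lj_sh (e : Fin k → ℝ) (z : ℝ) (j : ℕ) (q : Ar k K) :
    lj e j (sh (fun i => -z * e i) q) = ∑ α, q α * (∏ i, e i ^ (α i : ℕ)) *
      (((dg α).choose j : ℝ) * (-z) ^ (dg α - j)) := by
  rw [lj_eq, ev_sh]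
  have e1 : (fun i => algebraMap ℝ (Polynomial ℝ) (-z * e i) +
      Polynomial.C (e i) * (Polynomial.X : Polynomial ℝ)) =
      fun i => Polynomial.C (e i) * (Polynomial.X - Polynomial.C z) := by
    funext i
    rw [← Polynomial.C_eq_algebraMap]
    simp only [neg_mul, map_neg, map_mul]
    ring
  rw [e1, ev_line, Polynomial.finsetSum_coeff]
  refine Finset.sum_congr rfl fun α _ => ?_
  rw [Polynomial.coeff_C_mul, sub_eq_add_neg, ← map_neg, Polynomial.coeff_X_add_C_pow]
  ring

theorem lj_sub (e : Fin k → ℝ) (j : ℕ) (q q' : Ar k K) :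
    lj e j (fun α => q α - q' α) = lj e j q - lj e j q' := by
  unfold lj
  rw [← Finset.sum_sub_distrib]
  refine Finset.sum_congr rfl fun α _ => ?_
  split_ifs <;> ring

/-- The constant of the monomials at a direction. -/
noncomputable def Ce (k K : ℕ) : ℝ := (((K : ℝ) + 1) ^ K) ^ k

theorem Ce_nonneg : 0 ≤ Ce k K := by
  unfold Ce
  positivity

theorem mon_le {e : Fin k → ℝ} (he : ∀ i, |e i| ≤ K + 1) (α : Ix k K) :
    |∏ i, e i ^ (α i : ℕ)| ≤ Ce k K := by
  rw [Finset.abs_prod]
  calc ∏ i, |e i ^ (α i : ℕ)| ≤ ∏ _i : Fin k, ((K : ℝ) + 1) ^ K := by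
        refine Finset.prod_le_prod (fun i _ => abs_nonneg _) fun i _ => ?_
        rw [abs_pow]
        refine (pow_le_pow_left₀ (abs_nonneg _) (he i) _).trans ?_
        exact pow_le_pow_right₀ (by linarith [(Nat.cast_nonneg K : (0 : ℝ) ≤ K)])
          (Nat.lt_succ_iff.mp (α i).2)
    _ = Ce k K := by
        unfold Ce
        simp

theorem lj_le {e : Fin k → ℝ} (he : ∀ i, |e i| ≤ K + 1) (j : ℕ) {q : Ar k K} {M : ℝ}
    (hM : 0 ≤ M) (h : ∀ α, dg α = j → |q α| ≤ M) :
    |lj e j q| ≤ (K + 1) ^ k * (M * Ce k K) := by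
  unfold lj
  refine (Finset.abs_sum_le_sum_abs _ _).trans ?_
  calc ∑ α : Ix k K, |if dg α = j then q α * ∏ i, e i ^ (α i : ℕ) else 0| ≤
        ∑ _α : Ix k K, M * Ce k K := by
        refine Finset.sum_le_sum fun α _ => ?_
        split_ifs with hj
        · rw [abs_mul]
          exact mul_le_mul (h α hj) (mon_le he α) (abs_nonneg _) hM
        · rw [abs_zero]
          exact mul_nonneg hM Ce_nonneg
    _ = _ := by rw [Finset.sum_const, Finset.card_univ, nsmul_eq_mul, card_Ix]

/-- The constant of the relation. -/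
noncomputable def Cr (k K : ℕ) (L : ℝ) : ℝ :=
  (K + 1) ^ k * ((1 + Cs k K L) * Ce k K * 2 ^ (k * K))

theorem Cr_nonneg {L : ℝ} (hL : 1 ≤ L) : 0 ≤ Cr k K L := by
  have h1 := Cs_nonneg (k := k) (K := K) hL
  have h2 := Ce_nonneg (k := k) (K := K)
  unfold Cr
  positivity

/-- **The jets of a nearly homogeneous array**: `w = -(z e + σ)` with small `σ`. -/
theorem lj_rel {e : Fin k → ℝ} (he : ∀ i, |e i| ≤ K + 1) {z ε L : ℝ} (hL : 1 ≤ L)
    (hz0 : 0 ≤ z) (hz1 : z ≤ 1) (h0 : 0 ≤ ε) (h1 : ε ≤ 1) {w σ : Fin k → ℝ}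
    (hσ : ∀ i, |σ i| ≤ L * ε) (hw : ∀ i, w i = -z * e i + -σ i) {Φ : Ar k K} {M : ℝ}
    (hM : 0 ≤ M) {ρ : ℕ} (hb : ∀ α, |Φ α| ≤ M) (hs : ∀ α, dg α ≠ ρ → |Φ α| ≤ ε * M) (j : ℕ) :
    |lj e j (sh w Φ) - lj e ρ Φ * ((ρ.choose j : ℝ) * (-z) ^ (ρ - j))| ≤
      Cr k K L * (ε * M) := by
  have hC := Cs_nonneg (k := k) (K := K) hL
  have hE := Ce_nonneg (k := k) (K := K)
  have e1 : sh w Φ = sh (fun i => -z * e i) (sh (fun i => -σ i) Φ) := by
    rw [sh_sh]
    congr 1
    exact funext hw
  rw [e1, lj_sh]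
  obtain ⟨Ψ, hΨ⟩ : ∃ Ψ, Ψ = sh (fun i => -σ i) Φ := ⟨_, rfl⟩
  rw [← hΨ]
  have h2 : ∀ α, |Ψ α - Φ α| ≤ Cs k K L * (ε * M) := fun α => by
    rw [hΨ]
    exact sh_small hL h0 h1 (fun i => by rw [abs_neg]; exact hσ i) hM fun β _ => hb β
  unfold lj
  rw [Finset.sum_mul, ← Finset.sum_sub_distrib]
  refine (Finset.abs_sum_le_sum_abs _ _).trans ?_
  have hch : ∀ α : Ix k K, |((dg α).choose j : ℝ) * (-z) ^ (dg α - j)| ≤ 2 ^ (k * K) := by
    intro α
    rw [abs_mul, abs_pow, abs_neg, abs_of_nonneg hz0, Nat.abs_cast]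
    have g1 : (((dg α).choose j : ℕ) : ℝ) ≤ 2 ^ (k * K) := by
      have g2 : (dg α).choose j ≤ 2 ^ dg α := Nat.choose_le_two_pow _ _
      have g3 : 2 ^ dg α ≤ 2 ^ (k * K) := Nat.pow_le_pow_right (by norm_num) (dg_le α)
      exact_mod_cast g2.trans g3
    calc _ ≤ (2 : ℝ) ^ (k * K) * 1 :=
          mul_le_mul g1 (pow_le_one₀ hz0 hz1) (by positivity) (by positivity)
      _ = _ := mul_one _
  calc ∑ α, |Ψ α * (∏ i, e i ^ (α i : ℕ)) * (((dg α).choose j : ℝ) * (-z) ^ (dg α - j)) -
        (if dg α = ρ then Φ α * ∏ i, e i ^ (α i : ℕ) else 0) *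
          ((ρ.choose j : ℝ) * (-z) ^ (ρ - j))|
      ≤ ∑ _α : Ix k K, (1 + Cs k K L) * (ε * M) * Ce k K * 2 ^ (k * K) := by
        refine Finset.sum_le_sum fun α _ => ?_
        have hm := mon_le he α
        have hc := hch α
        by_cases hρ : dg α = ρ
        · rw [if_pos hρ, hρ]
          rw [hρ] at hc
          have e2 : Ψ α * (∏ i, e i ^ (α i : ℕ)) * ((ρ.choose j : ℝ) * (-z) ^ (ρ - j)) -
              Φ α * (∏ i, e i ^ (α i : ℕ)) * ((ρ.choose j : ℝ) * (-z) ^ (ρ - j)) =
              (Ψ α - Φ α) * (∏ i, e i ^ (α i : ℕ)) * ((ρ.choose j : ℝ) * (-z) ^ (ρ - j)) := by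
            ring
          rw [e2, abs_mul, abs_mul]
          have h3 : |Ψ α - Φ α| ≤ (1 + Cs k K L) * (ε * M) := by
            have := h2 α
            have h4 : 0 ≤ ε * M := mul_nonneg h0 hM
            linarith
          exact mul_le_mul (mul_le_mul h3 hm (abs_nonneg _) (by positivity)) hc (abs_nonneg _)
            (by positivity)
        · rw [if_neg hρ, zero_mul, sub_zero, abs_mul, abs_mul]
          have h3 : |Ψ α| ≤ (1 + Cs k K L) * (ε * M) := by
            have g1 := h2 α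
            have g2 := hs α hρ
            have g3 : |Ψ α| ≤ |Ψ α - Φ α| + |Φ α| := by
              have := abs_add_le (Ψ α - Φ α) (Φ α)
              rwa [sub_add_cancel] at this
            linarith
          exact mul_le_mul (mul_le_mul h3 hm (abs_nonneg _) (by positivity)) hc (abs_nonneg _)
            (by positivity)
    _ = _ := by
        rw [Finset.sum_const, Finset.card_univ, nsmul_eq_mul, card_Ix]
        unfold Cr
        ring

/-! ### Localization -/

/-- The array in the scale `2 ^ (-n)`, at the position `u` in this scale. -/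
noncomputable def lo (n : ℕ) (u : Fin k → ℝ) (q : Ar k K) : Ar k K :=
  sc (1 / 2 ^ n) (sh (fun i => u i / 2 ^ n) q)

theorem lo_add (n : ℕ) (u w : Fin k → ℝ) (q : Ar k K) :
    lo n (fun i => w i + u i) q = sh w (lo n u q) := by
  unfold lo
  rw [sh_sc, sh_sh]
  congr 2
  funext i
  ring

theorem lo_scale (n m : ℕ) (u : Fin k → ℝ) (q : Ar k K) :
    lo (n + m) (fun i => 2 ^ m * u i) q = sc (1 / 2 ^ m) (lo n u q) := by
  unfold lo
  rw [sc_sc]
  congr 1
  · rw [pow_add]
    field_simp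
  · congr 1
    funext i
    rw [pow_add]
    have h1 : (2 : ℝ) ^ m ≠ 0 := by positivity
    have h2 : (2 : ℝ) ^ n ≠ 0 := by positivity
    field_simp

theorem lo_sub (n : ℕ) (u : Fin k → ℝ) (q q' : Ar k K) (β : Ix k K) :
    lo n u (fun α => q α - q' α) β = lo n u q β - lo n u q' β := by
  unfold lo sc
  rw [sh_sub]
  ring

end Pool.R1P
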