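import Pool.Agent.H3.JM.Img1
import Pool.Agent.H81.JM.Net

/-!
# The image of an almost uniform cell under a form of several variables
-/

set_option autoImplicit false

namespace Pool.R1P

open Finset Real Pool.LU
open Pool.Agent.H49.Ent Pool.Agent.H32.Dense Pool.STK Pool.KA Pool.KSAT Pool.K2S Pool.PC

variable {k K : ℕ}

theorem ev_hom {R S : Type} [CommRing R] [Algebra ℝ R] [CommRing S] [Algebra ℝ S]
    (φ : R →ₐ[ℝ] S) (q : Ar k K) (x : Fin k → R) : φ (ev q x) = ev q (fun i => φ (x i)) := by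
  unfold ev
  rw [map_sum]
  refine Finset.sum_congr rfl fun α _ => ?_
  rw [map_mul, map_prod, AlgHom.commutes]
  simp only [map_pow]

/-- The restriction to the line `w - x e`. -/
noncomputable def lp (q : Ar k K) (w e : Fin k → ℝ) : Polynomial ℝ :=
  ev q (fun i => algebraMap ℝ (Polynomial ℝ) (w i) + Polynomial.C (-e i) * Polynomial.X)

theorem lp_eval (q : Ar k K) (w e : Fin k → ℝ) (x : ℝ) :
    (lp q w e).eval x = ev q (fun i => w i - e i * x) := by
  unfold lp
  have h := ev_hom (Polynomial.aeval x : Polynomial ℝ →ₐ[ℝ] ℝ) q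
    (fun i => algebraMap ℝ (Polynomial ℝ) (w i) + Polynomial.C (-e i) * Polynomial.X)
  rw [Polynomial.coe_aeval_eq_eval] at h
  rw [h]
  congr 1
  funext i
  rw [← Polynomial.C_eq_algebraMap]
  simp
  ring

theorem lp_coeff (q : Ar k K) (w e : Fin k → ℝ) (j : ℕ) :
    (lp q w e).coeff j = lj (fun i => -e i) j (sh w q) := by
  rw [lj_eq, ev_sh]
  rfl

/-- The shift of a form. -/
theorem sh_form {q : Ar k K} {ρ : ℕ} (hq : ∀ α, q α ≠ 0 → dg α = ρ) (w : Fin k → ℝ) (β : Ix k K)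
    (hβ : ρ ≤ dg β) : sh w q β = q β := by
  classical
  unfold sh
  rw [Finset.sum_eq_single β]
  · rw [se_self, mul_one]
  · intro α _ hne
    by_cases h1 : q α = 0
    · rw [h1, zero_mul]
    · have h2 := hq α h1
      by_cases h3 : ∀ i, β i ≤ α i
      · exfalso
        have h4 : dg β ≤ dg α := dg_mono h3
        have h5 : dg α = dg β := by omega
        refine hne (funext fun i => ?_)
        by_contra hc
        have h6 : (β i : ℕ) < α i := lt_of_le_of_ne (by exact_mod_cast h3 i)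
          (fun hc' => hc (Fin.ext hc').symm)
        have h7 : dg β < dg α := by
          unfold dg
          exact Finset.sum_lt_sum (fun l _ => by exact_mod_cast h3 l) ⟨i, Finset.mem_univ i, h6⟩
        omega
      · rw [se_ne h3, mul_zero]
  · intro h
    exact absurd (Finset.mem_univ β) h

theorem lj_neg (e : Fin k → ℝ) (j : ℕ) (q : Ar k K) :
    lj (fun i => -e i) j q = (-1) ^ j * lj e j q := by
  unfold lj
  rw [Finset.mul_sum]
  refine Finset.sum_congr rfl fun α _ => ?_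
  split_ifs with h
  · have e1 : ∏ i, (-e i) ^ (α i : ℕ) = (-1) ^ j * ∏ i, e i ^ (α i : ℕ) := by
      rw [← h]
      unfold dg
      rw [← Finset.prod_pow_eq_pow_sum, ← Finset.prod_mul_distrib]
      refine Finset.prod_congr rfl fun i _ => ?_
      rw [← mul_pow]
      ring
    rw [e1]
    ring
  · rw [mul_zero]

/-- The degree and the leading coefficient on a line. -/
theorem lp_form {q : Ar k K} {ρ : ℕ} (hq : ∀ α, q α ≠ 0 → dg α = ρ) (w e : Fin k → ℝ)
    (hne : lj e ρ q ≠ 0) : (lp q w e).natDegree = ρ ∧ |(lp q w e).leadingCoeff| = |lj e ρ q| := by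
  have h1 : ∀ j, ρ ≤ j → (lp q w e).coeff j = (-1) ^ j * lj e j q := by
    intro j hj
    rw [lp_coeff, ← lj_neg]
    unfold lj
    refine Finset.sum_congr rfl fun α _ => ?_
    split_ifs with h
    · rw [sh_form hq w α (by omega)]
    · rfl
  have h2 : ∀ j, ρ < j → lj e j q = 0 := by
    intro j hj
    unfold lj
    refine Finset.sum_eq_zero fun α _ => ?_
    split_ifs with h
    · have h3 : q α = 0 := by
        by_contra hc
        have := hq α hc
        omega
      rw [h3, zero_mul]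
    · rfl
  have h3 : (lp q w e).natDegree = ρ := by
    refine Polynomial.natDegree_eq_of_le_of_coeff_ne_zero ?_ ?_
    · rw [Polynomial.natDegree_le_iff_coeff_eq_zero]
      intro j hj
      rw [h1 j hj.le, h2 j hj, mul_zero]
    · rw [h1 ρ le_rfl]
      exact mul_ne_zero (pow_ne_zero _ (by norm_num)) hne
  refine ⟨h3, ?_⟩
  rw [Polynomial.leadingCoeff, h3, h1 ρ le_rfl, abs_mul, abs_pow, abs_neg, abs_one, one_pow,
    one_mul]

/-- **The image of an almost uniform cell under a form.** -/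
theorem imgk (k n : ℕ) : ∃ C1 : ℝ, 0 ≤ C1 ∧ ∀ K : ℕ, ∃ C2 : ℝ, 0 ≤ C2 ∧
    ∀ {Ω T : Type} [Fintype Ω] {p : Ω → ℝ}, IsLaw p →
    ∀ (L h : ℕ) (c : Ω → Fin (k + 1) → ℤ) (M : Ω → ℤ) (V : Ω → T) (G : Ω → Ar (k + 1) K)
    (u : Ω → Fin (k + 1) → ℝ) (δ : ℝ), 0 ≤ δ → (∀ ω i, 0 ≤ c ω i) → (∀ ω i, c ω i < 2 ^ L) →
    Det p V G → Det p V u → (∀ ω α, G ω α ≠ 0 → dg α = n + 1) →
    (∀ ω, 0 < p ω → ∃ α, 1 / 2 ^ h ≤ |G ω α|) →
    (∀ ω, 0 < p ω → |(M ω : ℝ) - 2 ^ L * ev (G ω) (fun i => u ω i - (c ω i : ℝ) / 2 ^ L)| ≤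
      2 ^ h) →
    ((k + 1 : ℕ) : ℝ) * (L * Real.log 2) - δ ≤ CH p c V →
    L * Real.log 2 - C1 * δ - C2 * (h + 1) ≤ CH p M V := by
  classical
  obtain ⟨C, hC0, hC⟩ := img1 n
  refine ⟨C, hC0, fun K => ?_⟩
  rcases Nat.eq_zero_or_pos K with hK0 | hK
  · -- degree zero: impossible
    refine ⟨0, le_rfl, ?_⟩
    intro Ω T _ p hp L h c M V G u δ hδ c0 c1 hG hu hform hlow hM hfull
    exfalso
    obtain ⟨ω, hω⟩ : ∃ ω, 0 < p ω := by
      by_contra hc
      push Not at hc
      have h1 := hp.sum_one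
      have h2 : ∑ ω, p ω ≤ 0 := Finset.sum_nonpos fun ω _ => hc ω
      linarith
    obtain ⟨α, hα⟩ := hlow ω hω
    have h1 : G ω α ≠ 0 := by
      intro h0
      rw [h0, abs_zero] at hα
      have : (0 : ℝ) < 1 / 2 ^ h := by positivity
      linarith
    have h2 := hform ω α h1
    have h3 := dg_le α
    have h4 : (k + 1) * K = 0 := by rw [hK0, mul_zero]
    omega
  obtain ⟨c0, hc0, hnet⟩ := Pool.JMN.net k K hK
  obtain ⟨m, hm⟩ : ∃ m : ℕ, 1 / 2 ^ m ≤ c0 := by
    obtain ⟨m, hm⟩ := exists_pow_lt_of_lt_one hc0 (show (1 / 2 : ℝ) < 1 by norm_num)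
    refine ⟨m, ?_⟩
    rw [one_div_pow] at hm
    exact hm.le
  have hl0 : 0 ≤ Real.log (2 * K + 3) := Real.log_nonneg (by
    have : (0 : ℝ) ≤ K := Nat.cast_nonneg K
    linarith)
  refine ⟨C * (k * Real.log (2 * K + 3) + m + 1), by positivity, ?_⟩
  intro Ω T _ p hp L h c M V G u δ hδ c0' c1 hG hu hform hlow hM hfull
  have h0 := hp.nonneg
  have hL1 : (1 : ℝ) ≤ 2 ^ L := one_le_pow₀ (by norm_num)
  have hL0 : (0 : ℝ) < 2 ^ L := by positivity
  -- the direction
  have hex : ∀ q : Ar (k + 1) K, (∀ al, q al ≠ 0 → ∑ i, (al i : ℕ) = n + 1) →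
      ∃ e : Fin (k + 1) → ℕ, e 0 = 1 ∧ (∀ i, e i ≤ K) ∧
        ∀ al0, |q al0| = (Finset.univ : Finset (Ix (k + 1) K)).sup' Finset.univ_nonempty
          (fun al => |q al|) →
        c0 * |q al0| ≤ |∑ al, q al * ∏ i, (e i : ℝ) ^ (al i : ℕ)| := by
    intro q hq
    obtain ⟨al1, -, hal1⟩ := Finset.exists_mem_eq_sup' (s := (Finset.univ :
      Finset (Ix (k + 1) K))) Finset.univ_nonempty (fun al => |q al|)
    obtain ⟨e, e1, e2, e3⟩ := hnet (n + 1) q hq al1
    refine ⟨e, e1, e2, fun al0 h => ?_⟩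
    rw [h, hal1]
    exact e3
  choose! ex ex1 ex2 ex3 using hex
  obtain ⟨e, he⟩ : ∃ e : Ω → Fin (k + 1) → ℕ, e = fun ω => ex (G ω) := ⟨_, rfl⟩
  have hf : ∀ ω, ∀ al, G ω al ≠ 0 → ∑ i, (al i : ℕ) = n + 1 := fun ω al h => hform ω al h
  have e1 : ∀ ω, e ω 0 = 1 := fun ω => by rw [he]; exact ex1 _ (hf ω)
  have e2 : ∀ ω i, e ω i ≤ K := fun ω i => by rw [he]; exact ex2 _ (hf ω) i
  have eV : Det p V e := fun ω ω' a b hh => by
    rw [he]
    simp only []
    rw [hG ω ω' a b hh]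
  -- the form in the direction
  have hlj : ∀ ω, lj (fun i => (e ω i : ℝ)) (n + 1) (G ω) =
      ∑ al, G ω al * ∏ i, (e ω i : ℝ) ^ (al i : ℕ) := by
    intro ω
    unfold lj
    refine Finset.sum_congr rfl fun α _ => ?_
    split_ifs with h1
    · rfl
    · have h2 : G ω α = 0 := by
        by_contra hc
        exact h1 (hform ω α hc)
      rw [h2, zero_mul]
  have hbig : ∀ ω, 0 < p ω → 1 / 2 ^ (h + m) ≤ |lj (fun i => (e ω i : ℝ)) (n + 1) (G ω)| := by
    intro ω hω
    rw [hlj ω]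
    obtain ⟨α, hα⟩ := hlow ω hω
    obtain ⟨al1, -, hal1⟩ := Finset.exists_mem_eq_sup' (s := (Finset.univ :
      Finset (Ix (k + 1) K))) Finset.univ_nonempty (fun al => |G ω al|)
    have g1 : |G ω α| ≤ |G ω al1| := by
      rw [← hal1]
      exact Finset.le_sup' (fun al => |G ω al|) (Finset.mem_univ α)
    have g2 := ex3 (G ω) (hf ω) al1 hal1.symm
    have g3 : (1 : ℝ) / 2 ^ (h + m) ≤ c0 * |G ω al1| := by
      calc (1 : ℝ) / 2 ^ (h + m) = 1 / 2 ^ m * (1 / 2 ^ h) := by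
            rw [pow_add]
            field_simp
        _ ≤ c0 * |G ω al1| := mul_le_mul hm (hα.trans g1) (by positivity) hc0.le
    rw [he]
    exact g3.trans g2
  -- the coordinates
  obtain ⟨t, ht⟩ : ∃ t : Ω → ℕ, t = fun ω => (c ω 0).toNat := ⟨_, rfl⟩
  have htc : ∀ ω, ((t ω : ℕ) : ℤ) = c ω 0 := fun ω => by
    rw [ht]
    exact Int.toNat_of_nonneg (c0' ω 0)
  have htc' : ∀ ω, ((t ω : ℕ) : ℝ) = (c ω 0 : ℝ) := fun ω => by exact_mod_cast congrArg (fun z : ℤ => (z : ℝ)) (htc ω)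
  obtain ⟨c', hc'⟩ : ∃ c' : Ω → Fin (k + 1) → ℤ, c' = fun ω i => c ω i - e ω i * c ω 0 :=
    ⟨_, rfl⟩
  have ht2 : ∀ ω, t ω ≤ 2 ^ L := fun ω => by
    have h1 := htc ω
    have h2 := c1 ω 0
    zify
    omega
  obtain ⟨P, hP⟩ : ∃ P : Ω → Polynomial ℝ, P = fun ω => lp (G ω)
    (fun i => u ω i - (c' ω i : ℝ) / 2 ^ L) (fun i => (e ω i : ℝ)) := ⟨_, rfl⟩
  have hPf : ∀ ω, 0 < p ω → (P ω).natDegree = n + 1 ∧
      1 / 2 ^ (h + m) ≤ |(P ω).leadingCoeff| := by
    intro ω hω
    have hb := hbig ω hω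
    have hne : lj (fun i => (e ω i : ℝ)) (n + 1) (G ω) ≠ 0 := by
      intro h0
      rw [h0, abs_zero] at hb
      have : (0 : ℝ) < 1 / 2 ^ (h + m) := by positivity
      linarith
    obtain ⟨g1, g2⟩ := lp_form (hform ω) (fun i => u ω i - (c' ω i : ℝ) / 2 ^ L)
      (fun i => (e ω i : ℝ)) hne
    rw [hP]
    refine ⟨g1, ?_⟩
    simp only []
    rw [g2]
    exact hb
  -- the entropy of the last coordinate
  have s1 : CH p c V ≤ CH p c' V + CH p t (fun ω => (c' ω, V ω)) := by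
    have g1 : CH p c V ≤ CH p (fun ω => (t ω, c' ω)) V := by
      refine CH_mono_left h0 fun ω ω' a b hh => ?_
      simp only [Prod.mk.injEq] at hh
      obtain ⟨⟨g1, g2⟩, g3⟩ := hh
      funext i
      have g4 := congrFun g2 i
      rw [hc'] at g4
      simp only [] at g4
      have g5 := eV ω ω' a b g3
      have g6 : c ω 0 = c ω' 0 := by rw [← htc, ← htc, g1]
      rw [g6, g5] at g4
      linarith
    have g2 := CH_chain h0 t c' V
    linarith
  have s2 : CH p c' V ≤ k * (L * Real.log 2 + Real.log (2 * K + 3)) := by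
    have g1 : ∀ i, CH p (fun ω => c' ω i) V ≤
        if i = 0 then 0 else L * Real.log 2 + Real.log (2 * K + 3) := by
      intro i
      split_ifs with hi
      · refine le_of_eq (CH_eq_zero h0 fun ω ω' a b hh => ?_)
        rw [hc', hi]
        simp only []
        rw [e1, e1]
        ring
      · refine (CH_bd1 hp (fun ω => c' ω i) V ((K + 1) * 2 ^ L) fun ω ω' a b hh => ?_).trans ?_
        · have g5 := eV ω ω' a b hh
          rw [hc']
          simp only []
          rw [← g5]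
          have b1 : (0 : ℝ) ≤ c ω i ∧ (c ω i : ℝ) ≤ 2 ^ L :=
            ⟨by exact_mod_cast c0' ω i, by exact_mod_cast (c1 ω i).le⟩
          have b2 : (0 : ℝ) ≤ c ω' i ∧ (c ω' i : ℝ) ≤ 2 ^ L :=
            ⟨by exact_mod_cast c0' ω' i, by exact_mod_cast (c1 ω' i).le⟩
          have b3 : (0 : ℝ) ≤ c ω 0 ∧ (c ω 0 : ℝ) ≤ 2 ^ L :=
            ⟨by exact_mod_cast c0' ω 0, by exact_mod_cast (c1 ω 0).le⟩
          have b4 : (0 : ℝ) ≤ c ω' 0 ∧ (c ω' 0 : ℝ) ≤ 2 ^ L :=
            ⟨by exact_mod_cast c0' ω' 0, by exact_mod_cast (c1 ω' 0).le⟩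
          have b5 : (0 : ℝ) ≤ e ω i ∧ (e ω i : ℝ) ≤ K :=
            ⟨Nat.cast_nonneg _, by exact_mod_cast e2 ω i⟩
          push_cast
          have e3 : (c ω i : ℝ) - e ω i * c ω 0 - (c ω' i - e ω i * c ω' 0) =
              (c ω i - c ω' i) - e ω i * (c ω 0 - c ω' 0) := by ring
          rw [e3]
          refine (abs_sub _ _).trans ?_
          have g6 : |(c ω i : ℝ) - c ω' i| ≤ 2 ^ L := by
            rw [abs_le]
            constructor <;> linarith [b1.1, b1.2, b2.1, b2.2]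
          have g7 : |(c ω 0 : ℝ) - c ω' 0| ≤ 2 ^ L := by
            rw [abs_le]
            constructor <;> linarith [b3.1, b3.2, b4.1, b4.2]
          have g8 : |(e ω i : ℝ) * (c ω 0 - c ω' 0)| ≤ K * 2 ^ L := by
            rw [abs_mul, abs_of_nonneg b5.1]
            exact mul_le_mul b5.2 g7 (abs_nonneg _) (by linarith [b5.1, b5.2])
          linarith
        · have g2 : 2 * (((K : ℝ) + 1) * 2 ^ L) + 1 ≤ 2 ^ L * (2 * K + 3) := by nlinarith
          refine (Real.log_le_log (by positivity) g2).trans (le_of_eq ?_)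
          rw [Real.log_mul (by positivity) (by positivity), Real.log_pow]
    refine (CH_pi h0 c' V).trans ((Finset.sum_le_sum fun i _ => g1 i).trans (le_of_eq ?_))
    rw [Fin.sum_univ_succ, if_pos rfl, zero_add]
    have g3 : ∀ i : Fin k, (if Fin.succ i = 0 then (0 : ℝ) else L * Real.log 2 +
        Real.log (2 * K + 3)) = L * Real.log 2 + Real.log (2 * K + 3) := fun i =>
      if_neg (Fin.succ_ne_zero i)
    rw [Finset.sum_congr rfl fun i _ => g3 i, Finset.sum_const, Finset.card_univ,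
      Fintype.card_fin, nsmul_eq_mul]
  have s3 : L * Real.log 2 - (δ + k * Real.log (2 * K + 3)) ≤
      CH p t (fun ω => (c' ω, V ω)) := by
    push_cast at hfull
    linarith
  have key := hC hp L (h + m) t M (fun ω => (c' ω, V ω)) P (δ + k * Real.log (2 * K + 3))
    (by positivity) ht2 (fun ω ω' a b hh => by
      simp only [Prod.mk.injEq] at hh
      rw [hP]
      simp only []
      rw [hh.1, hG ω ω' a b hh.2, hu ω ω' a b hh.2, eV ω ω' a b hh.2])
    (fun ω hω => (hPf ω hω).1) (fun ω hω => (hPf ω hω).2) (fun ω hω => by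
      rw [hP]
      simp only []
      rw [lp_eval]
      have g1 : (fun i => u ω i - (c' ω i : ℝ) / 2 ^ L - (e ω i : ℝ) * ((t ω : ℝ) / 2 ^ L)) =
          fun i => u ω i - (c ω i : ℝ) / 2 ^ L := by
        funext i
        rw [hc', htc']
        push_cast
        field_simp
        ring
      rw [g1]
      refine (hM ω hω).trans ?_
      exact pow_le_pow_right₀ (by norm_num) (Nat.le_add_right h m)) s3
  have s4 : CH p M (fun ω => (c' ω, V ω)) ≤ CH p M V :=
    CH_mono_cond h0 fun _ _ _ _ hh => (Prod.ext_iff.mp hh).2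
  have s5 : C * (δ + k * Real.log (2 * K + 3) + ((h + m : ℕ) : ℝ) + 1) ≤
      C * δ + C * (k * Real.log (2 * K + 3) + m + 1) * (h + 1) := by
    have g1 : C * δ + C * (k * Real.log (2 * K + 3) + m + 1) * (h + 1) =
        C * (δ + (k * Real.log (2 * K + 3) + m + 1) * (h + 1)) := by ring
    rw [g1]
    refine mul_le_mul_of_nonneg_left ?_ hC0
    push_cast
    have g2 : 0 ≤ ((k : ℝ) * Real.log (2 * K + 3) + m) * h := by positivity
    nlinarith
  linarith

end Pool.R1P
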