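import Pool.Agent.H3.JM.Wlk
import Pool.Agent.H3.JM.Imgk
import Pool.Agent.H15.KM7.Pair

/-!
# The two-step walk: one block
-/

set_option autoImplicit false

namespace Pool.R1P

open Finset Real Pool.LU
open Pool.Agent.H49.Ent Pool.Agent.H32.Dense Pool.STK Pool.KA Pool.KSAT Pool.K2S Pool.PC
open Pool.XBG (cel xx crn xx_nonneg xx_lt cel_crs)
open Pool.KM7 (P2 P2_isLaw P2_fst P2_snd P2_pos P2_CH)

/-- Cells in a box. -/
theorem CH_box {Ω T : Type} [Fintype Ω] {p : Ω → ℝ} (hp : IsLaw p) {k L : ℕ}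
    {c : Ω → Fin k → ℤ} (h0 : ∀ ω i, 0 ≤ c ω i) (h1 : ∀ ω i, c ω i < 2 ^ L) (V : Ω → T) :
    CH p c V ≤ k * (L * Real.log 2) := by
  refine (CH_pi hp.nonneg c V).trans ?_
  have g : ∀ i, CH p (fun ω => c ω i) V ≤ L * Real.log 2 := by
    intro i
    refine (CH_le_card hp.nonneg hp.sum_one (fun ω => c ω i) V
      (fun _ => Finset.Ico (0 : ℤ) (2 ^ L)) (fun ω _ => ?_)).trans (le_of_eq ?_)
    · rw [Finset.mem_Ico]
      exact ⟨h0 ω i, h1 ω i⟩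
    · rw [Ex_const hp.sum_one]
      have e : (Finset.Ico (0 : ℤ) (2 ^ L)).card = 2 ^ L := by
        rw [Int.card_Ico, sub_zero]
        exact_mod_cast Int.toNat_natCast (2 ^ L)
      rw [e]
      push_cast
      rw [Real.log_pow]
  refine (Finset.sum_le_sum fun i _ => g i).trans (le_of_eq ?_)
  rw [Finset.sum_const, Finset.card_univ, Fintype.card_fin, nsmul_eq_mul]

theorem cel_nonneg {Ω : Type} {k : ℕ} (X : ℕ) {y : Ω → Fin k → ℝ} (y0 : ∀ ω i, 0 ≤ y ω i) (s : ℕ)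
    (ω : Ω) (i : Fin k) : 0 ≤ cel X y s ω i :=
  Int.floor_nonneg.mpr (mul_nonneg (by positivity) (y0 ω i))

theorem cel_lt {Ω : Type} {k : ℕ} (X : ℕ) {y : Ω → Fin k → ℝ} (y1 : ∀ ω i, y ω i < 1) (s : ℕ)
    (ω : Ω) (i : Fin k) : cel X y s ω i < 2 ^ (s * X) := by
  unfold cel
  rw [Int.floor_lt]
  push_cast
  have : (0 : ℝ) < 2 ^ (s * X) := by positivity
  nlinarith [y1 ω i]

theorem log_bd {c : ℝ} (hc : 0 ≤ c) (h : ℕ) :
    Real.log (2 * (c * 2 ^ h) + 1) ≤ (1 + Real.log (2 * c + 1)) * (h + 1) := by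
  have hh : (1 : ℝ) ≤ 2 ^ h := one_le_pow₀ (by norm_num)
  have hl2 : Real.log 2 ≤ 1 := by
    have := Real.log_two_lt_d9
    linarith
  have hlc : 0 ≤ Real.log (2 * c + 1) := Real.log_nonneg (by linarith)
  have h1 : 2 * (c * 2 ^ h) + 1 ≤ 2 ^ h * (2 * c + 1) := by nlinarith
  refine (Real.log_le_log (by positivity) h1).trans ?_
  rw [Real.log_mul (by positivity) (by positivity), Real.log_pow]
  have h2 : (0 : ℝ) ≤ h := Nat.cast_nonneg h
  have h3 : (h : ℝ) * Real.log 2 ≤ h * 1 := mul_le_mul_of_nonneg_left hl2 h2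
  nlinarith [mul_nonneg hlc h2]

/-- **One block of the two-step walk.** -/
theorem blk (k n : ℕ) : ∃ C1 : ℝ, 0 ≤ C1 ∧ ∀ K : ℕ, ∃ C2 : ℝ, 0 ≤ C2 ∧
    ∀ {Ω α β τ υ : Type} [Fintype Ω] {p : Ω → ℝ}, IsLaw p → ∀ {r X S h : ℕ} {ab : ℕ → ℕ}
    {A : Ω → α} {B : Ω → β} {W : Ω → τ} {Dg : Ω → υ} {y : Ω → Fin (k + 1) → ℝ} {N : Ω → ℝ}
    {a b : Ω → Ar (k + 1) K} {θ Lf : ℝ}, Dat2 p (k + 1) K r X S h ab A B W Dg y N a b θ Lf →
    0 ≤ θ → ∀ {s : ℕ}, Gd X ab ((k + 1) * K) r S s (n + 1) → h + 1 ≤ X → ∀ {δ : ℝ}, 0 ≤ δ →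
    ((k + 1 : ℕ) : ℝ) * ((((n + 1) * X : ℕ) : ℝ) * Real.log 2) - δ ≤
      CH p (crl X y s (n + 1))
        (fun ω => (A ω, (W ω, (cel X y s ω, gf r X ab y a b (n + 1) ω)))) →
    (((n + 1) * X : ℕ) : ℝ) * Real.log 2 - C1 * (δ + θ + h) - C2 * (h + 1) ≤
      CH p (fun ω => ⌊(2 : ℝ) ^ (gp X ab ((k + 1) * K) (s + 1)) * N ω⌋)
        (fun ω => (⌊(2 : ℝ) ^ (gp X ab ((k + 1) * K) s) * N ω⌋, (Dg ω, W ω))) := by
  classical
  obtain ⟨C1, hC10, hC1⟩ := imgk k n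
  refine ⟨C1, hC10, fun K => ?_⟩
  obtain ⟨C2, hC20, hC2⟩ := hC1 K
  have hC5 := C5_nonneg (k := k + 1) (K := K)
  have hC6 : 0 ≤ C6 (k + 1) K := by
    unfold C6
    positivity
  have hl5 : 0 ≤ Real.log (2 * (2 * C5 (k + 1) K + 3) + 1) := Real.log_nonneg (by linarith)
  have hl6 : 0 ≤ Real.log (2 * (2 * C6 (k + 1) K + 2) + 1) := Real.log_nonneg (by linarith)
  refine ⟨2 * C2 + (1 + Real.log (2 * (2 * C5 (k + 1) K + 3) + 1)) +
    (1 + Real.log (2 * (2 * C6 (k + 1) K + 2) + 1)), by positivity, ?_⟩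
  intro Ω α β τ υ _ p hp r X S h ab A B W Dg y N a b θ Lf h' hθ s hg hXh δ hδ hfull
  have h0 := hp.nonneg
  have hh : (1 : ℝ) ≤ 2 ^ h := one_le_pow₀ (by norm_num)
  have hsS : s < S := by
    have := hg.hS
    have := hg.h1
    have := hg.hr
    omega
  obtain ⟨V, hV⟩ : ∃ V : Ω → β × (τ × (Fin (k + 1) → ℤ)), V = fun ω =>
    (B ω, (W ω, cel X y s ω)) := ⟨_, rfl⟩
  have hq := P2_isLaw hp V
  have hq0 := hq.nonneg
  have hfst := P2_fst hp V
  have hsnd := P2_snd hp V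
  have hpos : ∀ e, 0 < P2 p V e → 0 < p e.1 ∧ 0 < p e.2 ∧ B e.1 = B e.2 ∧ W e.1 = W e.2 ∧
      cel X y s e.1 = cel X y s e.2 := by
    intro e he
    obtain ⟨g1, g2, g3⟩ := (P2_pos hp e).mp he
    rw [hV] at g3
    simp only [Prod.mk.injEq] at g3
    exact ⟨g1, g2, g3.1, g3.2.1, g3.2.2⟩
  obtain ⟨q, hqq⟩ : ∃ q, q = P2 p V := ⟨_, rfl⟩
  have hCHq : CH q (fun e => Dg e.2) (fun e => e.1) = CH p Dg V := by
    rw [hqq]
    exact P2_CH hp V Dg
  rw [← hqq] at hq hq0 hfst hsnd hpos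
  obtain ⟨G1, hG1⟩ : ∃ G1 : Ω × Ω → α × (τ × ((Fin (k + 1) → ℤ) × Ar (k + 1) K)), G1 = fun e =>
    (A e.1, (W e.1, (cel X y s e.1, gf r X ab y a b (n + 1) e.1))) := ⟨_, rfl⟩
  obtain ⟨N0, hN0⟩ : ∃ N0 : Ω → ℤ, N0 = fun ω =>
    ⌊(2 : ℝ) ^ (gp X ab ((k + 1) * K) s) * N ω⌋ := ⟨_, rfl⟩
  obtain ⟨N1, hN1⟩ : ∃ N1 : Ω → ℤ, N1 = fun ω =>
    ⌊(2 : ℝ) ^ (gp X ab ((k + 1) * K) (s + 1)) * N ω⌋ := ⟨_, rfl⟩
  have hG1e : ∀ e e' : Ω × Ω, G1 e = G1 e' → A e.1 = A e'.1 ∧ W e.1 = W e'.1 ∧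
      cel X y s e.1 = cel X y s e'.1 ∧
      gf r X ab y a b (n + 1) e.1 = gf r X ab y a b (n + 1) e'.1 := by
    intro e e' hh
    rw [hG1] at hh
    simp only [Prod.mk.injEq] at hh
    exact ⟨hh.1, hh.2.1, hh.2.2.1, hh.2.2.2⟩
  -- the common estimate for two pairs
  have two : ∀ e e', 0 < q e → 0 < q e' → Dg e.2 = Dg e'.2 → G1 e = G1 e' → ∀ m,
      m ≤ gp X ab ((k + 1) * K) S →
      |2 ^ m * (ev (a e.1) (y e.2) - ev (a e'.1) (y e'.2))| ≤ 2 ^ h := by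
    intro e e' he he' hDD hGG m hm
    obtain ⟨p1, p2, p3, p4, p5⟩ := hpos e he
    obtain ⟨q1, q2, q3, q4, q5⟩ := hpos e' he'
    obtain ⟨g1, g2, g3, g4⟩ := hG1e e e' hGG
    have e1 : a e.1 = a e'.1 := h'.da e.1 e'.1 p1 q1 (Prod.ext g1 g2)
    have e2 := h'.hD e.2 e'.2 e.1 p2 q2 p1 hDD (by rw [← p4, ← q4, g2]) p4
    rw [← e1, abs_mul, abs_of_pos (by positivity : (0 : ℝ) < 2 ^ m)]
    have e3 := mul_le_mul_of_nonneg_left e2 (show (0 : ℝ) ≤ 2 ^ m by positivity)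
    refine e3.trans ?_
    rw [← mul_div_assoc, div_le_iff₀ (by positivity)]
    rw [mul_comm]
    exact mul_le_mul_of_nonneg_left (pow_le_pow_right₀ (by norm_num) hm) (by positivity)
  -- the rows known before
  have s3 : CH q (fun e => N0 e.2) (fun e => (Dg e.2, G1 e)) ≤
      (1 + Real.log (2 * (2 * C6 (k + 1) K + 2) + 1)) * (h + 1) := by
    refine (CH_bd1 hq (fun e => N0 e.2) _ ((2 * C6 (k + 1) K + 2) * 2 ^ h) ?_).trans
      (log_bd (by linarith) h)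
    intro e e' he he' hh'
    simp only [Prod.mk.injEq] at hh'
    obtain ⟨p1, p2, p3, p4, p5⟩ := hpos e he
    obtain ⟨q1, q2, q3, q4, q5⟩ := hpos e' he'
    have t1 := two e e' he he' hh'.1 hh'.2 (gp X ab ((k + 1) * K) s)
      (gp_mono X ab ((k + 1) * K) hsS.le)
    have t2 := h'.pair0 hsS.le p1 p2 p3 p4 p5
    have t3 := h'.pair0 hsS.le q1 q2 q3 q4 q5
    rw [hN0]
    push_cast
    have f1 := fl_sub_near ((2 : ℝ) ^ (gp X ab ((k + 1) * K) s) * N e.2)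
      ((2 : ℝ) ^ (gp X ab ((k + 1) * K) s) * N e'.2)
    obtain ⟨P, hP⟩ : ∃ P : ℝ, P = 2 ^ (gp X ab ((k + 1) * K) s) := ⟨_, rfl⟩
    rw [← hP] at t1 t2 t3 f1 ⊢
    have e1 : P * N e.2 - P * N e'.2 = P * (ev (a e.1) (y e.2) - ev (a e'.1) (y e'.2)) -
        P * (ev (a e.1) (y e.2) - N e.2) + P * (ev (a e'.1) (y e'.2) - N e'.2) := by ring
    rw [e1] at f1
    rw [abs_le] at t1 t2 t3 f1 ⊢
    constructor <;> nlinarith
  -- the output
  have s4 : CH q (mq r X ab y a b s (n + 1)) (fun e => (N1 e.2, (Dg e.2, G1 e))) ≤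
      (1 + Real.log (2 * (2 * C5 (k + 1) K + 3) + 1)) * (h + 1) := by
    refine (CH_bd1 hq (mq r X ab y a b s (n + 1)) _ ((2 * C5 (k + 1) K + 3) * 2 ^ h) ?_).trans
      (log_bd (by linarith) h)
    intro e e' he he' hh'
    simp only [Prod.mk.injEq] at hh'
    obtain ⟨p1, p2, p3, p4, p5⟩ := hpos e he
    obtain ⟨q1, q2, q3, q4, q5⟩ := hpos e' he'
    have t1 := two e e' he he' hh'.2.1 hh'.2.2 (gp X ab ((k + 1) * K) (s + 1))
      (gp_mono X ab ((k + 1) * K) (by omega))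
    have t2 := h'.pair1 hg p1 p2 p3 p4 p5
    have t3 := h'.pair1 hg q1 q2 q3 q4 q5
    have t4 := hh'.1
    rw [hN1] at t4
    simp only [] at t4
    have f1 := fl_sub_near ((2 : ℝ) ^ (gp X ab ((k + 1) * K) (s + 1)) * N e.2)
      ((2 : ℝ) ^ (gp X ab ((k + 1) * K) (s + 1)) * N e'.2)
    rw [t4, sub_self, zero_sub, abs_neg] at f1
    have f2 := fl_sub_near ((2 : ℝ) ^ ((n + 1) * X) * ev (gf r X ab y a b (n + 1) e.1)
        (xd X y s (n + 1) e))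
      ((2 : ℝ) ^ ((n + 1) * X) * ev (gf r X ab y a b (n + 1) e'.1) (xd X y s (n + 1) e'))
    unfold mq
    push_cast
    obtain ⟨P, hP⟩ : ∃ P : ℝ, P = 2 ^ (gp X ab ((k + 1) * K) (s + 1)) := ⟨_, rfl⟩
    obtain ⟨Q, hQ⟩ : ∃ Q : ℝ, Q = (2 : ℝ) ^ ((n + 1) * X) *
      ev (gf r X ab y a b (n + 1) e.1) (xd X y s (n + 1) e) := ⟨_, rfl⟩
    obtain ⟨Q', hQ'⟩ : ∃ Q : ℝ, Q = (2 : ℝ) ^ ((n + 1) * X) *
      ev (gf r X ab y a b (n + 1) e'.1) (xd X y s (n + 1) e') := ⟨_, rfl⟩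
    rw [← hP] at t1 t2 t3 f1
    rw [← hQ] at t2 f2 ⊢
    rw [← hQ'] at t3 f2 ⊢
    have e1 : Q - Q' = P * (ev (a e.1) (y e.2) - ev (a e'.1) (y e'.2)) -
        (P * N e.2 - P * N e'.2) - (P * (ev (a e.1) (y e.2) - N e.2) - Q) +
        (P * (ev (a e'.1) (y e'.2) - N e'.2) - Q') := by ring
    rw [e1] at f2
    rw [abs_le] at t1 t2 t3 f1 f2 ⊢
    constructor <;> nlinarith
  -- the fullness of the position of the first sample, given the digits of the second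
  have s6 : ((k + 1 : ℕ) : ℝ) * ((((n + 1) * X : ℕ) : ℝ) * Real.log 2) - (δ + θ + h) ≤
      CH q (fun e => crl X y s (n + 1) e.1) (fun e => (Dg e.2, G1 e)) := by
    have c1 := CH_chain hq0 (fun e => crl X y s (n + 1) e.1) (fun e => Dg e.2) G1
    have c2 := CH_chain hq0 (fun e => Dg e.2) (fun e => crl X y s (n + 1) e.1) G1
    have c3 : CH q (fun e => (Dg e.2, crl X y s (n + 1) e.1)) G1 ≤
        CH q (fun e => (crl X y s (n + 1) e.1, Dg e.2)) G1 := by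
      refine CH_mono_left hq0 fun e e' _ _ hh' => ?_
      simp only [Prod.mk.injEq] at hh' ⊢
      exact ⟨hh'.1.2, hh'.1.1⟩
    have c4 : CH q (fun e => crl X y s (n + 1) e.1) G1 = CH p (crl X y s (n + 1))
        (fun ω => (A ω, (W ω, (cel X y s ω, gf r X ab y a b (n + 1) ω)))) := by
      rw [hG1]
      exact hfst.CH_eq (crl X y s (n + 1))
        (fun ω => (A ω, (W ω, (cel X y s ω, gf r X ab y a b (n + 1) ω))))
    have c5 : CH q (fun e => Dg e.2) (fun e => e.1) ≤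
        CH q (fun e => Dg e.2) (fun e => (crl X y s (n + 1) e.1, G1 e)) := by
      refine CH_mono_cond hq0 fun e e' _ _ hh' => ?_
      have hh2 : e.1 = e'.1 := hh'
      rw [hG1]
      simp only [hh2]
    have c6 : Lf - θ - ((k + 1 : ℕ) : ℝ) * (s * (X * Real.log 2)) ≤ CH p Dg V := by
      have d1 := h'.hB
      have d2 := CH_le_add h0 Dg (cel X y s) (fun ω => (B ω, W ω))
      have d3 := CH_box hp (cel_nonneg X h'.y0 s) (cel_lt X h'.y1 s) (fun ω => (B ω, W ω))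
      have d4 : CH p Dg (fun ω => (cel X y s ω, (B ω, W ω))) ≤ CH p Dg V := by
        refine CH_mono_cond h0 fun ω ω' _ _ hh' => ?_
        rw [hV]
        simp only [Prod.mk.injEq] at hh' ⊢
        exact ⟨hh'.2.1, hh'.2.2, hh'.1⟩
      push_cast at d3 ⊢
      linarith
    have c7 : CH q (fun e => Dg e.2) G1 ≤
        Lf - ((k + 1 : ℕ) : ℝ) * (s * (X * Real.log 2)) + h := by
      have d1 : CH q (fun e => Dg e.2) G1 ≤
          CH q (fun e => Dg e.2) (fun e => (W e.2, cel X y s e.2)) := by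
        refine CH_mono_cond hq0 fun e e' he he' hh' => ?_
        obtain ⟨g1, g2, g3, g4⟩ := hG1e e e' hh'
        obtain ⟨p1, p2, p3, p4, p5⟩ := hpos e he
        obtain ⟨q1, q2, q3, q4, q5⟩ := hpos e' he'
        simp only [Prod.mk.injEq]
        exact ⟨by rw [← p4, ← q4, g2], by rw [← p5, ← q5, g3]⟩
      have d2 := hsnd.CH_eq Dg (fun ω => (W ω, cel X y s ω))
      have d3 := h'.hU s hsS
      linarith
    linarith
  -- the image
  have s5 := hC2 hq ((n + 1) * X) (h + 1) (fun e => crl X y s (n + 1) e.1)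
    (mq r X ab y a b s (n + 1)) (fun e => (Dg e.2, G1 e))
    (fun e => gf r X ab y a b (n + 1) e.1)
    (fun e i => (crl X y s (n + 1) e.2 i : ℝ) / 2 ^ ((n + 1) * X)) (δ + θ + h) (by positivity)
    (fun e i => crl_nonneg X y s (n + 1) e.1 i) (fun e i => crl_lt X y s (n + 1) e.1 i)
    (fun e e' _ _ hh' => by
      simp only [Prod.mk.injEq] at hh'
      exact (hG1e e e' hh'.2).2.2.2)
    (fun e e' he he' hh' => by
      simp only [Prod.mk.injEq] at hh'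
      obtain ⟨g1, g2, g3, g4⟩ := hG1e e e' hh'.2
      obtain ⟨p1, p2, p3, p4, p5⟩ := hpos e he
      obtain ⟨q1, q2, q3, q4, q5⟩ := hpos e' he'
      have d0 : W e.2 = W e'.2 := by rw [← p4, ← q4, g2]
      have d1 := h'.hDc e.2 e'.2 p2 q2 (Prod.ext hh'.1 d0)
      have d2 : cel X y (s + (n + 1)) e.2 = cel X y (s + (n + 1)) e'.2 := by
        refine cel_crs ?_ d1
        have := hg.hS
        have := hg.hr
        omega
      have d3 : cel X y s e.2 = cel X y s e'.2 := cel_crs hsS.le d1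
      have d4 : crl X y s (n + 1) e.2 = crl X y s (n + 1) e'.2 := by
        funext i
        unfold crl
        rw [d2, d3]
      funext i
      simp only [d4])
    (fun e α hα => by
      by_contra hc
      refine hα ?_
      unfold gf
      rw [if_neg hc])
    (fun e he => h'.gf_low hg hXh (hpos e he).1)
    (fun e he => by
      have := fl_round ((n + 1) * X) (ev (gf r X ab y a b (n + 1) e.1) (xd X y s (n + 1) e))
      refine le_trans ?_ (this.trans (one_le_pow₀ (by norm_num)))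
      exact le_of_eq rfl)
    (by
      push_cast at s6 ⊢
      exact s6)
  -- the sum
  have s1 : CH q (fun e => N1 e.2) (fun e => (N0 e.2, (Dg e.2, G1 e))) ≤
      CH p N1 (fun ω => (N0 ω, (Dg ω, W ω))) := by
    have d1 := hsnd.CH_eq N1 (fun ω => (N0 ω, (Dg ω, W ω)))
    rw [← d1]
    refine CH_mono_cond hq0 fun e e' he he' hh' => ?_
    simp only [Prod.mk.injEq] at hh' ⊢
    obtain ⟨g1, g2, g3, g4⟩ := hG1e e e' hh'.2.2
    obtain ⟨p1, p2, p3, p4, p5⟩ := hpos e he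
    obtain ⟨q1, q2, q3, q4, q5⟩ := hpos e' he'
    exact ⟨hh'.1, hh'.2.1, by rw [← p4, ← q4, g2]⟩
  have s2 := CH_le_add hq0 (fun e => N1 e.2) (fun e => N0 e.2) (fun e => (Dg e.2, G1 e))
  have s7 := CH_le_add hq0 (mq r X ab y a b s (n + 1)) (fun e => N1 e.2)
    (fun e => (Dg e.2, G1 e))
  have s8 : C2 * (((h + 1 : ℕ) : ℝ) + 1) ≤ 2 * C2 * (h + 1) := by
    push_cast
    have : (0 : ℝ) ≤ h := Nat.cast_nonneg h
    nlinarith [mul_nonneg hC20 this]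
  rw [hN1, hN0] at s1
  have s9 : (2 * C2 + (1 + Real.log (2 * (2 * C5 (k + 1) K + 3) + 1)) +
    (1 + Real.log (2 * (2 * C6 (k + 1) K + 2) + 1))) * ((h : ℝ) + 1) =
    2 * C2 * (h + 1) + (1 + Real.log (2 * (2 * C5 (k + 1) K + 3) + 1)) * (h + 1) +
    (1 + Real.log (2 * (2 * C6 (k + 1) K + 2) + 1)) * (h + 1) := by ring
  rw [hN0, hN1] at s2
  rw [hN0] at s3
  rw [hN1] at s4 s7
  linarith

end Pool.R1P
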