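import Mathlib

/-!
# Profiles: the minimum of the heights of the orders

The order `j` has the height `j * (i * X) + ab j` at the depth `i`. The profile is the minimum
over the orders at most `D`.
-/

set_option autoImplicit false

namespace Pool.R1P

open Finset

/-- The profile. -/
def gp (X : ℕ) (ab : ℕ → ℕ) (D i : ℕ) : ℕ :=
  (range (D + 1)).inf' ⟨0, by simp⟩ (fun j => j * (i * X) + ab j)

theorem gp_le {X : ℕ} {ab : ℕ → ℕ} {D j : ℕ} (i : ℕ) (hj : j ≤ D) :
    gp X ab D i ≤ j * (i * X) + ab j :=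
  Finset.inf'_le (s := range (D + 1)) (fun j => j * (i * X) + ab j)
    (Finset.mem_range.2 (by omega))

theorem gp_ex (X : ℕ) (ab : ℕ → ℕ) (D i : ℕ) :
    ∃ j, j ≤ D ∧ gp X ab D i = j * (i * X) + ab j := by
  obtain ⟨j, hj, h⟩ := Finset.exists_mem_eq_inf' (s := range (D + 1)) ⟨0, by simp⟩
    (fun j => j * (i * X) + ab j)
  exact ⟨j, by have := Finset.mem_range.1 hj; omega, h⟩

/-- An order with the least height. -/
noncomputable def mi (X : ℕ) (ab : ℕ → ℕ) (D i : ℕ) : ℕ := Classical.choose (gp_ex X ab D i)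

theorem mi_le (X : ℕ) (ab : ℕ → ℕ) (D i : ℕ) : mi X ab D i ≤ D :=
  (Classical.choose_spec (gp_ex X ab D i)).1

theorem gp_mi (X : ℕ) (ab : ℕ → ℕ) (D i : ℕ) :
    gp X ab D i = mi X ab D i * (i * X) + ab (mi X ab D i) :=
  (Classical.choose_spec (gp_ex X ab D i)).2

theorem mi_anti {X : ℕ} (hX : 1 ≤ X) (ab : ℕ → ℕ) (D i : ℕ) :
    mi X ab D (i + 1) ≤ mi X ab D i := by
  have h1 := gp_mi X ab D i
  have h2 := gp_mi X ab D (i + 1)
  have h3 := gp_le (X := X) (ab := ab) i (mi_le X ab D (i + 1))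
  have h4 := gp_le (X := X) (ab := ab) (i + 1) (mi_le X ab D i)
  obtain ⟨u, hu⟩ : ∃ u, u = mi X ab D i := ⟨_, rfl⟩
  obtain ⟨w, hw⟩ : ∃ w, w = mi X ab D (i + 1) := ⟨_, rfl⟩
  rw [← hu] at h1 h4 ⊢
  rw [← hw] at h2 h3 ⊢
  rw [h1] at h3
  rw [h2] at h4
  have e1 : u * ((i + 1) * X) = u * (i * X) + u * X := by ring
  have e2 : w * ((i + 1) * X) = w * (i * X) + w * X := by ring
  rw [e1, e2] at h4
  have h5 : w * X ≤ u * X := by omega
  exact Nat.le_of_mul_le_mul_right h5 (by omega)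

/-- The order of the block of depth `s`. -/
noncomputable def od (X : ℕ) (ab : ℕ → ℕ) (D s : ℕ) : ℕ :=
  if 1 ≤ s ∧ mi X ab D (s - 1) = mi X ab D (s + 1) then mi X ab D s else 0

theorem od_le (X : ℕ) (ab : ℕ → ℕ) (D s : ℕ) : od X ab D s ≤ D := by
  unfold od
  split_ifs
  · exact mi_le X ab D s
  · exact Nat.zero_le _

theorem od_spec {X : ℕ} (hX : 1 ≤ X) {ab : ℕ → ℕ} {D s ρ : ℕ} (h : od X ab D s = ρ)
    (hρ : 1 ≤ ρ) : 1 ≤ s ∧ ρ ≤ D ∧ gp X ab D (s - 1) = ρ * ((s - 1) * X) + ab ρ ∧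
      gp X ab D s = ρ * (s * X) + ab ρ ∧ gp X ab D (s + 1) = ρ * ((s + 1) * X) + ab ρ := by
  unfold od at h
  split_ifs at h with h1
  · obtain ⟨h2, h3⟩ := h1
    have a1 := mi_anti hX ab D (s - 1)
    have a2 := mi_anti hX ab D s
    rw [show s - 1 + 1 = s by omega] at a1
    have a3 : mi X ab D (s - 1) = ρ := by omega
    have a4 : mi X ab D (s + 1) = ρ := by omega
    refine ⟨h2, ?_, ?_, ?_, ?_⟩
    · rw [← h]
      exact mi_le X ab D s
    · rw [gp_mi, a3]
    · rw [gp_mi, h]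
    · rw [gp_mi, a4]
  · omega

/-- The sum of the orders. -/
theorem od_sum {X : ℕ} (hX : 1 ≤ X) (ab : ℕ → ℕ) (D S : ℕ) :
    gp X ab D S ≤ gp X ab D 0 + (∑ s ∈ range S, od X ab D s) * X + (D + 2 * D ^ 2) * X := by
  have step : ∀ s, gp X ab D (s + 1) ≤ gp X ab D s + mi X ab D s * X := by
    intro s
    have h1 := gp_le (X := X) (ab := ab) (s + 1) (mi_le X ab D s)
    have h2 := gp_mi X ab D s
    have e1 : mi X ab D s * ((s + 1) * X) = mi X ab D s * (s * X) + mi X ab D s * X := by ring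
    rw [e1] at h1
    omega
  have key : ∀ S, gp X ab D (S + 1) + D * (mi X ab D S + mi X ab D (S + 1)) * X ≤
      gp X ab D 0 + (∑ s ∈ range (S + 1), od X ab D s) * X + (D + 2 * D ^ 2) * X := by
    intro S
    induction S with
    | zero =>
      have h1 := step 0
      have h2 := mi_le X ab D 0
      have h3 := mi_le X ab D 1
      have h4 : mi X ab D 0 * X ≤ D * X := Nat.mul_le_mul_right X h2
      have h5 : D * (mi X ab D 0 + mi X ab D 1) * X ≤ 2 * D ^ 2 * X := by
        refine Nat.mul_le_mul_right X ?_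
        calc D * (mi X ab D 0 + mi X ab D 1) ≤ D * (D + D) :=
              Nat.mul_le_mul_left D (by omega)
          _ = 2 * D ^ 2 := by ring
      have e1 : (D + 2 * D ^ 2) * X = D * X + 2 * D ^ 2 * X := by ring
      rw [e1]
      simp only [zero_add] at h1 ⊢
      omega
    | succ S ih =>
      have h1 := step (S + 1)
      have a1 := mi_anti hX ab D S
      have a2 := mi_anti hX ab D (S + 1)
      obtain ⟨u, hu⟩ : ∃ u, u = mi X ab D S := ⟨_, rfl⟩
      obtain ⟨v, hv⟩ : ∃ v, v = mi X ab D (S + 1) := ⟨_, rfl⟩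
      obtain ⟨w, hw⟩ : ∃ w, w = mi X ab D (S + 1 + 1) := ⟨_, rfl⟩
      rw [← hu] at ih a1
      rw [← hv] at ih a1 a2 h1 ⊢
      rw [← hw] at a2 ⊢
      have h2 : v ≤ od X ab D (S + 1) + D * (u - w) := by
        unfold od
        rw [Nat.add_sub_cancel, ← hu, ← hv, ← hw]
        by_cases huw : u = w
        · rw [if_pos ⟨by omega, huw⟩]
          omega
        · rw [if_neg (by tauto)]
          have h3 : v ≤ D := by
            rw [hv]
            exact mi_le X ab D (S + 1)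
          have h4 : D * 1 ≤ D * (u - w) := Nat.mul_le_mul_left D (by omega)
          omega
      rw [Finset.sum_range_succ (fun s => od X ab D s) (S + 1)]
      have h3 : v * X ≤ od X ab D (S + 1) * X + D * (u - w) * X := by
        have := Nat.mul_le_mul_right X h2
        rw [add_mul] at this
        exact this
      obtain ⟨d, hd⟩ := Nat.exists_eq_add_of_le (show w ≤ u by omega)
      rw [hd, Nat.add_sub_cancel_left] at h3
      rw [hd] at ih
      have e1 : D * (v + w) * X + D * d * X = D * (w + d + v) * X := by ring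
      have e2 : (∑ s ∈ range (S + 1), od X ab D s + od X ab D (S + 1)) * X =
        (∑ s ∈ range (S + 1), od X ab D s) * X + od X ab D (S + 1) * X := by ring
      rw [e2]
      omega
  rcases Nat.eq_zero_or_pos S with h0 | h0
  · rw [h0, Finset.sum_range_zero]
    omega
  · obtain ⟨S', rfl⟩ := Nat.exists_eq_succ_of_ne_zero (by omega : S ≠ 0)
    have := key S'
    have h1 : (S' + 1) = S'.succ := rfl
    rw [h1] at this
    omega

/-- The first block of the order `ρ`. -/
noncomputable def fs (X : ℕ) (ab : ℕ → ℕ) (D ρ : ℕ) : ℕ := sInf {s | od X ab D s = ρ}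

theorem fs_spec {X : ℕ} {ab : ℕ → ℕ} {D s ρ : ℕ} (h : od X ab D s = ρ) :
    od X ab D (fs X ab D ρ) = ρ ∧ fs X ab D ρ ≤ s :=
  ⟨Nat.sInf_mem (s := {s | od X ab D s = ρ}) ⟨s, h⟩, Nat.sInf_le h⟩

end Pool.R1P
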