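import Pool.Agent.H81.XBG.Def
import Pool.Agent.H3.JM.Arr
import Pool.Agent.H3.JM.Prf

/-!
# Statement R for one equation: the records

Two polynomial leaves `a`, `b` near the point `y`; the profile of the difference is the same for
all samples.
-/

set_option autoImplicit false

namespace Pool.R1P

open Finset Real Pool.LU
open Pool.Agent.H49.Ent Pool.Agent.H32.Dense Pool.STK Pool.KA Pool.KSAT Pool.K2S Pool.PC
open Pool.XBG (cel xx crn xx_nonneg xx_lt)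

variable {Ω : Type} {k K : ℕ}

/-- The difference of the leaves. -/
def dif (a b : Ω → Ar k K) (ω : Ω) : Ar k K := fun α => a ω α - b ω α

/-- The corner of the cell, in the scale of the cell. -/
noncomputable def cu (X : ℕ) (y : Ω → Fin k → ℝ) (s : ℕ) (ω : Ω) (i : Fin k) : ℝ := cel X y s ω i

/-- The jets of the difference at the point, in the scale of depth `s`. -/
noncomputable def phi (X : ℕ) (y : Ω → Fin k → ℝ) (a b : Ω → Ar k K) (s : ℕ) (ω : Ω) : Ar k K :=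
  lo (s * X) (fun i => 2 ^ (s * X) * y ω i) (dif a b ω)

theorem phi_eq (X : ℕ) (y : Ω → Fin k → ℝ) (a b : Ω → Ar k K) (s : ℕ) (ω : Ω) (α : Ix k K) :
    phi X y a b s ω α = (1 / 2 ^ (s * X)) ^ dg α * sh (y ω) (dif a b ω) α := by
  unfold phi lo sc
  have e : (fun i => 2 ^ (s * X) * y ω i / 2 ^ (s * X)) = y ω := by
    funext i
    have h : (2 : ℝ) ^ (s * X) ≠ 0 := by positivity
    field_simp
  rw [e]

/-- The record of one depth. -/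
noncomputable def rc0 (X : ℕ) (ab : ℕ → ℕ) (y : Ω → Fin k → ℝ) (a : Ω → Ar k K) (s : ℕ) (ω : Ω) :
    (Fin k → ℤ) × (Ix k K → ℤ) :=
  (cel X y s ω, fun α => ⌊(2 : ℝ) ^ (gp X ab (k * K) s) * lo (s * X) (cu X y s ω) (a ω) α⌋)

/-- The records up to the depth `s`. -/
noncomputable def rcd (X : ℕ) (ab : ℕ → ℕ) (y : Ω → Fin k → ℝ) (a : Ω → Ar k K) (s : ℕ) (ω : Ω) :
    ℕ → Option ((Fin k → ℤ) × (Ix k K → ℤ)) := fun i =>
  if i ≤ s then some (rc0 X ab y a i ω) else none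

theorem rcd_eq {X : ℕ} {ab : ℕ → ℕ} {y : Ω → Fin k → ℝ} {a : Ω → Ar k K} {s : ℕ} {ω ω' : Ω}
    (h : rcd X ab y a s ω = rcd X ab y a s ω') {i : ℕ} (hi : i ≤ s) :
    rc0 X ab y a i ω = rc0 X ab y a i ω' := by
  have h1 := congrFun h i
  unfold rcd at h1
  rw [if_pos hi, if_pos hi, Option.some.injEq] at h1
  exact h1

theorem rcd_mk {X : ℕ} {ab : ℕ → ℕ} {y : Ω → Fin k → ℝ} {a : Ω → Ar k K} {s : ℕ} {ω ω' : Ω}
    (h : ∀ i ≤ s, rc0 X ab y a i ω = rc0 X ab y a i ω') :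
    rcd X ab y a s ω = rcd X ab y a s ω' := by
  funext i
  unfold rcd
  by_cases hi : i ≤ s
  · rw [if_pos hi, if_pos hi, h i hi]
  · rw [if_neg hi, if_neg hi]

/-- The sheared digits of the other coordinates. -/
noncomputable def eta (X : ℕ) (y : Ω → Fin k → ℝ) (i0 : Fin k) (d : Ω → Fin k → ℕ) (s : ℕ) (ω : Ω)
    (l : Fin k) : ℤ :=
  if l = i0 then 0 else ⌊(2 : ℝ) ^ X * (xx X y s ω l - (d ω l : ℝ) * xx X y s ω i0)⌋

/-- The digits in the direction. -/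
noncomputable def zet (X : ℕ) (y : Ω → Fin k → ℝ) (i0 : Fin k) (s : ℕ) (ω : Ω) : ℕ :=
  ⌊(2 : ℝ) ^ X * xx X y s ω i0⌋.toNat

theorem zet_cast (X : ℕ) (y : Ω → Fin k → ℝ) (i0 : Fin k) (s : ℕ) (ω : Ω) :
    ((zet X y i0 s ω : ℕ) : ℝ) ≤ 2 ^ X * xx X y s ω i0 ∧
    2 ^ X * xx X y s ω i0 < (zet X y i0 s ω : ℕ) + 1 := by
  have h0 : (0 : ℝ) ≤ 2 ^ X * xx X y s ω i0 :=
    mul_nonneg (by positivity) (xx_nonneg X y s ω _)
  have h1 : (0 : ℤ) ≤ ⌊(2 : ℝ) ^ X * xx X y s ω i0⌋ := Int.floor_nonneg.mpr h0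
  have h2 : (((zet X y i0 s ω : ℕ) : ℤ) : ℝ) = ((⌊(2 : ℝ) ^ X * xx X y s ω i0⌋ : ℤ) : ℝ) := by
    unfold zet
    rw [Int.toNat_of_nonneg h1]
  rw [Int.cast_natCast] at h2
  rw [h2]
  exact ⟨Int.floor_le _, Int.lt_floor_add_one _⟩

theorem zet_le (X : ℕ) (y : Ω → Fin k → ℝ) (i0 : Fin k) (s : ℕ) (ω : Ω) :
    zet X y i0 s ω ≤ 2 ^ X := by
  have h := (zet_cast X y i0 s ω).1
  have h2 : (2 : ℝ) ^ X * xx X y s ω i0 ≤ 2 ^ X * 1 :=
    mul_le_mul_of_nonneg_left (xx_lt X y s ω _).le (by positivity)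
  rw [mul_one] at h2
  exact_mod_cast h.trans h2

/-- The point of comparison, in the scale of the cell. -/
noncomputable def pt (X : ℕ) (y : Ω → Fin k → ℝ) (i0 : Fin k) (d : Ω → Fin k → ℕ) (s : ℕ) (ω : Ω)
    (l : Fin k) : ℝ := eta X y i0 d s ω l / 2 ^ X

theorem pt_bd {X : ℕ} {y : Ω → Fin k → ℝ} {i0 : Fin k} {d : Ω → Fin k → ℕ} {s : ℕ} {ω : Ω}
    (h2 : ∀ l, d ω l ≤ K) (l : Fin k) : |pt X y i0 d s ω l| ≤ K + 1 := by
  have hX : (0 : ℝ) < 2 ^ X := by positivity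
  have hX1 : (1 : ℝ) ≤ 2 ^ X := one_le_pow₀ (by norm_num)
  have hK : (0 : ℝ) ≤ K := Nat.cast_nonneg K
  unfold pt eta
  split_ifs with hl
  · rw [Int.cast_zero, zero_div, abs_zero]
    linarith
  · have f1 := Int.floor_le ((2 : ℝ) ^ X * (xx X y s ω l - (d ω l : ℝ) * xx X y s ω i0))
    have f2 := Int.lt_floor_add_one ((2 : ℝ) ^ X * (xx X y s ω l - (d ω l : ℝ) * xx X y s ω i0))
    have a0 := xx_nonneg X y s ω l
    have a1 := xx_lt X y s ω l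
    have b0 := xx_nonneg X y s ω i0
    have b1 := xx_lt X y s ω i0
    have c0 : (0 : ℝ) ≤ d ω l := Nat.cast_nonneg _
    have c1 : (d ω l : ℝ) ≤ K := by exact_mod_cast h2 l
    have d1 : (d ω l : ℝ) * xx X y s ω i0 ≤ K := by nlinarith
    have d0 : 0 ≤ (d ω l : ℝ) * xx X y s ω i0 := mul_nonneg c0 b0
    rw [abs_le]
    constructor
    · rw [le_div_iff₀ hX]
      have g1 : -((K : ℝ)) ≤ xx X y s ω l - (d ω l : ℝ) * xx X y s ω i0 := by linarith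
      have g2 := mul_le_mul_of_nonneg_left g1 hX.le
      linarith
    · rw [div_le_iff₀ hX]
      have g1 : xx X y s ω l - (d ω l : ℝ) * xx X y s ω i0 ≤ K + 1 := by linarith
      have g2 := mul_le_mul_of_nonneg_left g1 hX.le
      linarith

/-- The remainder. -/
theorem pt_sub {X : ℕ} {y : Ω → Fin k → ℝ} {i0 : Fin k} {d : Ω → Fin k → ℕ} {s : ℕ} {ω : Ω}
    (h1 : d ω i0 = 1) (h2 : ∀ l, d ω l ≤ K) :
    ∃ σ : Fin k → ℝ, (∀ l, |σ l| ≤ (K + 3) * (1 / 2 ^ X)) ∧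
      ∀ l, pt X y i0 d s ω l - xx X y s ω l =
        -(((zet X y i0 s ω : ℕ) : ℝ) / 2 ^ X) * (d ω l : ℝ) + -σ l := by
  have hX : (0 : ℝ) < 2 ^ X := by positivity
  have hK : (0 : ℝ) ≤ K := Nat.cast_nonneg K
  obtain ⟨z, hz⟩ : ∃ z : ℝ, z = ((zet X y i0 s ω : ℕ) : ℝ) / 2 ^ X := ⟨_, rfl⟩
  obtain ⟨x0, hx0⟩ : ∃ x, x = xx X y s ω i0 := ⟨_, rfl⟩
  have hzx : 0 ≤ x0 - z ∧ x0 - z ≤ 1 / 2 ^ X := by
    obtain ⟨g1, g2⟩ := zet_cast X y i0 s ω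
    rw [← hx0] at g1 g2
    rw [hz]
    constructor
    · rw [sub_nonneg, div_le_iff₀ hX]
      linarith
    · rw [sub_le_iff_le_add, ← add_div, le_div_iff₀ hX]
      linarith
  have hε : (0 : ℝ) ≤ 1 / 2 ^ X := by positivity
  refine ⟨fun l => xx X y s ω l - pt X y i0 d s ω l - z * (d ω l : ℝ), ?_, ?_⟩
  · intro l
    show |xx X y s ω l - pt X y i0 d s ω l - z * (d ω l : ℝ)| ≤ _
    by_cases hl : l = i0
    · rw [hl, h1, ← hx0]
      unfold pt eta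
      rw [if_pos rfl]
      push_cast
      rw [zero_div, sub_zero, mul_one, abs_of_nonneg hzx.1]
      nlinarith [hzx.2]
    · have e1 : (eta X y i0 d s ω l : ℝ) = ((⌊(2 : ℝ) ^ X * (xx X y s ω l -
          (d ω l : ℝ) * x0)⌋ : ℤ) : ℝ) := by
        unfold eta
        rw [if_neg hl, hx0]
      have f1 := Int.floor_le ((2 : ℝ) ^ X * (xx X y s ω l - (d ω l : ℝ) * x0))
      have f2 := Int.lt_floor_add_one ((2 : ℝ) ^ X * (xx X y s ω l - (d ω l : ℝ) * x0))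
      rw [← e1] at f1 f2
      have g1 : pt X y i0 d s ω l ≤ xx X y s ω l - (d ω l : ℝ) * x0 := by
        unfold pt
        rw [div_le_iff₀ hX]
        linarith
      have g2 : xx X y s ω l - (d ω l : ℝ) * x0 - 1 / 2 ^ X ≤ pt X y i0 d s ω l := by
        unfold pt
        rw [sub_le_iff_le_add, ← add_div, le_div_iff₀ hX]
        linarith
      have e2 : xx X y s ω l - pt X y i0 d s ω l - z * (d ω l : ℝ) =
          (xx X y s ω l - (d ω l : ℝ) * x0 - pt X y i0 d s ω l) +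
            (d ω l : ℝ) * (x0 - z) := by ring
      rw [e2]
      refine (abs_add_le _ _).trans ?_
      have g3 : |xx X y s ω l - (d ω l : ℝ) * x0 - pt X y i0 d s ω l| ≤ 1 / 2 ^ X := by
        rw [abs_of_nonneg (by linarith)]
        linarith
      have c0 : (0 : ℝ) ≤ d ω l := Nat.cast_nonneg _
      have c1 : (d ω l : ℝ) ≤ K := by exact_mod_cast h2 l
      have g4 : |(d ω l : ℝ) * (x0 - z)| ≤ K * (1 / 2 ^ X) := by
        rw [abs_mul, abs_of_nonneg c0, abs_of_nonneg hzx.1]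
        exact mul_le_mul c1 hzx.2 hzx.1 hK
      nlinarith
  · intro l
    show pt X y i0 d s ω l - xx X y s ω l = -(((zet X y i0 s ω : ℕ) : ℝ) / 2 ^ X) * (d ω l : ℝ) +
      -(xx X y s ω l - pt X y i0 d s ω l - z * (d ω l : ℝ))
    rw [← hz]
    ring

/-- The size of the form of the order `ρ` in the direction. -/
noncomputable def cc (ab : ℕ → ℕ) (y : Ω → Fin k → ℝ) (a b : Ω → Ar k K)
    (dd : ℕ → Ω → Fin k → ℕ) (ρ : ℕ) (ω : Ω) : ℝ :=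
  2 ^ (ab ρ) * lj (fun l => (dd ρ ω l : ℝ)) ρ (sh (y ω) (dif a b ω))

/-- The additional part of the world. -/
noncomputable def gam (X : ℕ) (ab : ℕ → ℕ) (m : ℕ) (y : Ω → Fin k → ℝ) (a b : Ω → Ar k K)
    (dd : ℕ → Ω → Fin k → ℕ) (ω : Ω) (ρ : Fin (k * K + 1)) :
    (Fin k → ℕ) × (ℤ × (Ix k K → ℤ)) :=
  (dd ρ ω, (⌊(2 : ℝ) ^ X * cc ab y a b dd ρ ω⌋, fun α =>
    ⌊(2 : ℝ) ^ (gp X ab (k * K) (fs X ab (k * K) ρ) + X) *
      lo (fs X ab (k * K) ρ * X) (cu X y (fs X ab (k * K) ρ) ω) (b ω) α⌋ % 2 ^ (X + m)))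

/-- The jets of a leaf at the point of comparison. -/
noncomputable def jt (X : ℕ) (ab : ℕ → ℕ) (y : Ω → Fin k → ℝ) (i0 : Fin k)
    (dd : ℕ → Ω → Fin k → ℕ) (s : ℕ) (a : Ω → Ar k K) (ω : Ω) (j : ℕ) : ℤ :=
  ⌊(2 : ℝ) ^ (X + gp X ab (k * K) s) * lj (fun l => (dd (od X ab (k * K) s) ω l : ℝ)) j
    (lo (s * X) (fun i => pt X y i0 (dd (od X ab (k * K) s)) s ω i + cu X y s ω i) (a ω))⌋

/-- The coefficient of the block. -/
noncomputable def cf (X : ℕ) (ab : ℕ → ℕ) (y : Ω → Fin k → ℝ) (a b : Ω → Ar k K)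
    (dd : ℕ → Ω → Fin k → ℕ) (s : ℕ) (ω : Ω) : ℝ :=
  if od X ab (k * K) s = 0 then 1 else
    (⌊(2 : ℝ) ^ X * cc ab y a b dd (od X ab (k * K) s) ω⌋ : ℝ) / 2 ^ X

/-- The hypotheses. -/
structure Dat {α β τ : Type} (p : Ω → ℝ) (k K X S h : ℕ) (ab : ℕ → ℕ) (A : Ω → α) (B : Ω → β)
    (W : Ω → τ) (y : Ω → Fin k → ℝ) (a b : Ω → Ar k K) : Prop where
  y0 : ∀ ω i, 0 ≤ y ω i
  y1 : ∀ ω i, y ω i < 1
  da : Det p (fun ω => (A ω, W ω)) a
  db : Det p (fun ω => (B ω, W ω)) b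
  up : ∀ ω, 0 < p ω → ∀ α, |sh (y ω) (dif a b ω) α| ≤ 2 ^ h / 2 ^ (ab (dg α))
  low : ∀ s, 1 ≤ s → s < S → ∀ ρ, 1 ≤ ρ → ρ ≤ k * K →
    gp X ab (k * K) (s - 1) = ρ * ((s - 1) * X) + ab ρ →
    gp X ab (k * K) (s + 1) = ρ * ((s + 1) * X) + ab ρ →
    ∀ ω, 0 < p ω → ∃ α, dg α = ρ ∧ 1 / 2 ^ (ab ρ + h) ≤ |sh (y ω) (dif a b ω) α|
  hX : 1 ≤ X

end Pool.R1P
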