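import Pool.Agent.H3.JM.Def

/-!
# Statement R for one equation: the estimates for one sample
-/

set_option autoImplicit false

namespace Pool.R1P

open Finset Real Pool.LU
open Pool.Agent.H49.Ent Pool.Agent.H32.Dense Pool.STK Pool.KA Pool.KSAT Pool.K2S Pool.PC
open Pool.XBG (cel xx crn xx_nonneg xx_lt)

variable {Ω α β τ : Type} {p : Ω → ℝ} {k K X S h : ℕ} {ab : ℕ → ℕ}
  {A : Ω → α} {B : Ω → β} {W : Ω → τ} {y : Ω → Fin k → ℝ} {a b : Ω → Ar k K}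

theorem pw_le {m n : ℕ} (h : m ≤ n) : (1 : ℝ) / 2 ^ n ≤ 1 / 2 ^ m :=
  one_div_le_one_div_of_le (by positivity) (pow_le_pow_right₀ (by norm_num) h)

theorem pw_le1 (n : ℕ) : (1 : ℝ) / 2 ^ n ≤ 1 := by
  have := pw_le (Nat.zero_le n)
  simpa using this

theorem pw_mul (m n : ℕ) : (1 : ℝ) / 2 ^ m * (1 / 2 ^ n) = 1 / 2 ^ (m + n) := by
  rw [pow_add]
  field_simp

theorem pw_pow (m n : ℕ) : ((1 : ℝ) / 2 ^ m) ^ n = 1 / 2 ^ (n * m) := by
  rw [div_pow, one_pow, ← pow_mul, mul_comm m n]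

/-- The other orders are higher in a block of the order `ρ`. -/
theorem gap (hX : 1 ≤ X) {D s ρ : ℕ} (h : od X ab D s = ρ) (hρ : 1 ≤ ρ) {j : ℕ} (hj : j ≤ D)
    (hne : j ≠ ρ) : gp X ab D s + X ≤ j * (s * X) + ab j := by
  obtain ⟨h1, h2, h3, h4, h5⟩ := od_spec hX h hρ
  obtain ⟨t, rfl⟩ : ∃ t, s = t + 1 := ⟨s - 1, by omega⟩
  rw [Nat.add_sub_cancel] at h3
  rcases lt_or_gt_of_ne hne with hlt | hgt
  · have g1 := gp_le (X := X) (ab := ab) (t + 1 + 1) hj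
    rw [h5] at g1
    rw [h4]
    obtain ⟨m, rfl⟩ := Nat.exists_eq_add_of_lt hlt
    have e1 : (j + m + 1) * ((t + 1 + 1) * X) = (j + m + 1) * ((t + 1) * X) + j * X + m * X + X := by
      ring
    have e2 : j * ((t + 1 + 1) * X) = j * ((t + 1) * X) + j * X := by ring
    rw [e1, e2] at g1
    omega
  · have g1 := gp_le (X := X) (ab := ab) t hj
    rw [h3] at g1
    rw [h4]
    obtain ⟨m, rfl⟩ := Nat.exists_eq_add_of_lt hgt
    have e1 : ρ * ((t + 1) * X) = ρ * (t * X) + ρ * X := by ring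
    have e2 : (ρ + m + 1) * ((t + 1) * X) = (ρ + m + 1) * (t * X) + ρ * X + m * X + X := by ring
    rw [e1, e2]
    omega

theorem Dat.phi_up (h' : Dat p k K X S h ab A B W y a b) (s : ℕ) {ω : Ω} (hω : 0 < p ω)
    (α : Ix k K) : |phi X y a b s ω α| ≤ 2 ^ h / 2 ^ (dg α * (s * X) + ab (dg α)) := by
  rw [phi_eq, abs_mul, abs_of_nonneg (by positivity), pw_pow]
  have h1 := h'.up ω hω α
  calc (1 : ℝ) / 2 ^ (dg α * (s * X)) * |sh (y ω) (dif a b ω) α|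
      ≤ 1 / 2 ^ (dg α * (s * X)) * (2 ^ h / 2 ^ (ab (dg α))) :=
        mul_le_mul_of_nonneg_left h1 (by positivity)
    _ = _ := by
        rw [pow_add]
        field_simp

theorem Dat.phi_gp (h' : Dat p k K X S h ab A B W y a b) (s : ℕ) {ω : Ω} (hω : 0 < p ω)
    (α : Ix k K) : |phi X y a b s ω α| ≤ 2 ^ h / 2 ^ (gp X ab (k * K) s) := by
  refine (h'.phi_up s hω α).trans ?_
  refine div_le_div_of_nonneg_left (by positivity) (by positivity) ?_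
  exact pow_le_pow_right₀ (by norm_num) (gp_le s (dg_le α))

theorem Dat.phi_small (h' : Dat p k K X S h ab A B W y a b) {s ρ : ℕ}
    (hs : od X ab (k * K) s = ρ) (hρ : 1 ≤ ρ) {ω : Ω} (hω : 0 < p ω) (α : Ix k K)
    (hne : dg α ≠ ρ) :
    |phi X y a b s ω α| ≤ 1 / 2 ^ X * (2 ^ h / 2 ^ (gp X ab (k * K) s)) := by
  refine (h'.phi_up s hω α).trans ?_
  have e : (1 : ℝ) / 2 ^ X * (2 ^ h / 2 ^ (gp X ab (k * K) s)) =
      2 ^ h / 2 ^ (gp X ab (k * K) s + X) := by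
    rw [pow_add]
    field_simp
  rw [e]
  refine div_le_div_of_nonneg_left (by positivity) (by positivity) ?_
  exact pow_le_pow_right₀ (by norm_num) (gap h'.hX hs hρ (dg_le α) hne)

/-- The two leaves at a corner. -/
theorem Dat.near (h' : Dat p k K X S h ab A B W y a b) (s : ℕ) {ω : Ω} (hω : 0 < p ω)
    (α : Ix k K) :
    |lo (s * X) (cu X y s ω) (a ω) α - lo (s * X) (cu X y s ω) (b ω) α| ≤
      Cs k K 1 * (2 ^ h / 2 ^ (gp X ab (k * K) s)) := by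
  rw [← lo_sub]
  have e : (cu X y s ω) = fun i => -(xx X y s ω i) + 2 ^ (s * X) * y ω i := by
    funext i
    unfold cu xx
    ring
  have e2 : (fun α => a ω α - b ω α) = dif a b ω := rfl
  rw [e2, e, lo_add]
  refine sh_le le_rfl (fun i => ?_) (by positivity) fun β _ => h'.phi_gp s hω β
  rw [abs_neg, abs_of_nonneg (xx_nonneg X y s ω i)]
  exact (xx_lt X y s ω i).le

/-- The size of the form and the coefficient of a block. -/
theorem Dat.cc_eq (h' : Dat p k K X S h ab A B W y a b) (dd : ℕ → Ω → Fin k → ℕ) {s ρ : ℕ}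
    (hs : od X ab (k * K) s = ρ) (hρ : 1 ≤ ρ) (ω : Ω) :
    2 ^ (gp X ab (k * K) s) * lj (fun l => (dd ρ ω l : ℝ)) ρ (phi X y a b s ω) =
      cc ab y a b dd ρ ω := by
  obtain ⟨h1, h2, h3, h4, h5⟩ := od_spec h'.hX hs hρ
  have e1 : lj (fun l => (dd ρ ω l : ℝ)) ρ (phi X y a b s ω) =
      1 / 2 ^ (ρ * (s * X)) * lj (fun l => (dd ρ ω l : ℝ)) ρ (sh (y ω) (dif a b ω)) := by
    unfold lj
    rw [Finset.mul_sum]
    refine Finset.sum_congr rfl fun α _ => ?_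
    split_ifs with hα
    · rw [phi_eq, hα, pw_pow]
      ring
    · rw [mul_zero]
  unfold cc
  rw [e1, h4, pow_add]
  field_simp

/-- The size of the coefficient from above. -/
theorem Dat.cc_le (h' : Dat p k K X S h ab A B W y a b) {dd : ℕ → Ω → Fin k → ℕ} {ρ : ℕ}
    {ω : Ω} (hω : 0 < p ω) (h2 : ∀ l, dd ρ ω l ≤ K) :
    |cc ab y a b dd ρ ω| ≤ (K + 1) ^ k * Ce k K * 2 ^ h := by
  have he : ∀ l, |((dd ρ ω l : ℕ) : ℝ)| ≤ K + 1 := by
    intro l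
    rw [Nat.abs_cast]
    have : ((dd ρ ω l : ℕ) : ℝ) ≤ K := by exact_mod_cast h2 l
    linarith
  have h1 := lj_le he ρ (q := sh (y ω) (dif a b ω)) (M := 2 ^ h / 2 ^ (ab ρ)) (by positivity)
    (fun α hα => by
      rw [← hα]
      exact h'.up ω hω α)
  unfold cc
  rw [abs_mul, abs_of_pos (by positivity : (0 : ℝ) < 2 ^ (ab ρ))]
  calc _ ≤ (2 : ℝ) ^ (ab ρ) * ((K + 1) ^ k * (2 ^ h / 2 ^ (ab ρ) * Ce k K)) :=
        mul_le_mul_of_nonneg_left h1 (by positivity)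
    _ = _ := by
        field_simp

/-- The constant of the relation. -/
noncomputable def C1 (k K : ℕ) : ℝ := Cr k K (K + 3) + 2 ^ (k * K) + 1

theorem fl_round (X : ℕ) (c : ℝ) : |(⌊(2 : ℝ) ^ X * c⌋ : ℝ) - 2 ^ X * c| ≤ 1 := by
  have h1 := Int.floor_le ((2 : ℝ) ^ X * c)
  have h2 := Int.lt_floor_add_one ((2 : ℝ) ^ X * c)
  rw [abs_le]
  constructor <;> linarith

theorem fl_sub_near (u v : ℝ) : |((⌊u⌋ : ℝ) - ⌊v⌋) - (u - v)| ≤ 1 := by
  have h1 := Int.floor_le u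
  have h2 := Int.lt_floor_add_one u
  have h3 := Int.floor_le v
  have h4 := Int.lt_floor_add_one v
  rw [abs_le]
  constructor <;> linarith

/-- **The relation of a block.** -/
theorem Dat.rel (h' : Dat p k K X S h ab A B W y a b) {i0 : Fin k} {dd : ℕ → Ω → Fin k → ℕ}
    {s : ℕ} (h1 : ∀ ρ ω, dd ρ ω i0 = 1) (h2 : ∀ ρ ω l, dd ρ ω l ≤ K) {ω : Ω} (hω : 0 < p ω)
    {j : ℕ} (hj : j < od X ab (k * K) s) :
    |((jt X ab y i0 dd s a ω j : ℤ) : ℝ) - (jt X ab y i0 dd s b ω j : ℤ) -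
      2 ^ X * (cf X ab y a b dd s ω * (((od X ab (k * K) s).choose j : ℝ) *
        (-((zet X y i0 s ω : ℝ) / 2 ^ X)) ^ (od X ab (k * K) s - j)))| ≤ C1 k K * 2 ^ h := by
  obtain ⟨ρ, hρ⟩ : ∃ ρ, ρ = od X ab (k * K) s := ⟨_, rfl⟩
  have hρ1 : 1 ≤ ρ := by omega
  have hK : (0 : ℝ) ≤ K := Nat.cast_nonneg K
  have hh : (1 : ℝ) ≤ 2 ^ h := one_le_pow₀ (by norm_num)
  have he : ∀ l, |((dd ρ ω l : ℕ) : ℝ)| ≤ K + 1 := by
    intro l
    rw [Nat.abs_cast]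
    have : ((dd ρ ω l : ℕ) : ℝ) ≤ K := by exact_mod_cast h2 ρ ω l
    linarith
  obtain ⟨z, hz⟩ : ∃ z : ℝ, z = (zet X y i0 s ω : ℝ) / 2 ^ X := ⟨_, rfl⟩
  have hz0 : 0 ≤ z := by
    rw [hz]
    positivity
  have hz1 : z ≤ 1 := by
    rw [hz, div_le_one (by positivity)]
    exact_mod_cast zet_le X y i0 s ω
  obtain ⟨σ, hσ, hw⟩ := pt_sub (X := X) (y := y) (s := s) (ω := ω) (d := dd ρ) (h1 ρ ω) (h2 ρ ω)
  rw [← hz] at hw
  have key := lj_rel he (z := z) (L := (K : ℝ) + 3) (by linarith) hz0 hz1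
    (show (0 : ℝ) ≤ 1 / 2 ^ X by positivity) (pw_le1 X) hσ hw
    (Φ := phi X y a b s ω) (M := 2 ^ h / 2 ^ (gp X ab (k * K) s)) (by positivity) (ρ := ρ)
    (fun α => h'.phi_gp s hω α) (fun α hα => h'.phi_small hρ.symm hρ1 hω α hα) j
  -- the position
  have e1 : lo (s * X) (fun i => pt X y i0 (dd ρ) s ω i + cu X y s ω i) (dif a b ω) =
      sh (fun l => pt X y i0 (dd ρ) s ω l - xx X y s ω l) (phi X y a b s ω) := by
    have e2 : (fun i => pt X y i0 (dd ρ) s ω i + cu X y s ω i) =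
        fun i => (pt X y i0 (dd ρ) s ω i - xx X y s ω i) + 2 ^ (s * X) * y ω i := by
      funext i
      unfold cu xx
      ring
    rw [e2, lo_add (s * X) (fun i => 2 ^ (s * X) * y ω i)]
    rfl
  rw [← e1] at key
  have e3 : lj (fun l => (dd ρ ω l : ℝ)) j
      (lo (s * X) (fun i => pt X y i0 (dd ρ) s ω i + cu X y s ω i) (dif a b ω)) =
      lj (fun l => (dd ρ ω l : ℝ)) j
        (lo (s * X) (fun i => pt X y i0 (dd ρ) s ω i + cu X y s ω i) (a ω)) -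
      lj (fun l => (dd ρ ω l : ℝ)) j
        (lo (s * X) (fun i => pt X y i0 (dd ρ) s ω i + cu X y s ω i) (b ω)) := by
    rw [← lj_sub]
    congr 1
    funext β
    exact lo_sub _ _ _ _ β
  rw [e3] at key
  obtain ⟨u, hu⟩ : ∃ u, u = lj (fun l => (dd ρ ω l : ℝ)) j
        (lo (s * X) (fun i => pt X y i0 (dd ρ) s ω i + cu X y s ω i) (a ω)) := ⟨_, rfl⟩
  obtain ⟨v, hv⟩ : ∃ v, v = lj (fun l => (dd ρ ω l : ℝ)) j
        (lo (s * X) (fun i => pt X y i0 (dd ρ) s ω i + cu X y s ω i) (b ω)) := ⟨_, rfl⟩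
  rw [← hu, ← hv] at key
  have eM : ((jt X ab y i0 dd s a ω j : ℤ) : ℝ) = (⌊(2 : ℝ) ^ (X + gp X ab (k * K) s) * u⌋ : ℝ) := by
    unfold jt
    rw [← hρ, hu]
  have eM' : ((jt X ab y i0 dd s b ω j : ℤ) : ℝ) = (⌊(2 : ℝ) ^ (X + gp X ab (k * K) s) * v⌋ : ℝ) := by
    unfold jt
    rw [← hρ, hv]
  rw [eM, eM']
  have f1 := fl_sub_near ((2 : ℝ) ^ (X + gp X ab (k * K) s) * u)
    ((2 : ℝ) ^ (X + gp X ab (k * K) s) * v)
  have hcc := h'.cc_eq (a := a) (b := b) dd hρ.symm hρ1 ω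
  obtain ⟨w, hw'⟩ : ∃ w : ℝ, w = (ρ.choose j : ℝ) * (-z) ^ (ρ - j) := ⟨_, rfl⟩
  have hwb : |w| ≤ 2 ^ (k * K) := by
    rw [hw', abs_mul, abs_pow, abs_neg, abs_of_nonneg hz0, Nat.abs_cast]
    have g1 : ((ρ.choose j : ℕ) : ℝ) ≤ 2 ^ (k * K) := by
      have g2 : ρ.choose j ≤ 2 ^ ρ := Nat.choose_le_two_pow _ _
      have g3 : 2 ^ ρ ≤ 2 ^ (k * K) := Nat.pow_le_pow_right (by norm_num) (by
        rw [hρ]
        exact od_le X ab (k * K) s)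
      exact_mod_cast g2.trans g3
    calc _ ≤ (2 : ℝ) ^ (k * K) * 1 :=
          mul_le_mul g1 (pow_le_one₀ hz0 hz1) (by positivity) (by positivity)
      _ = _ := mul_one _
  have hvv : (((od X ab (k * K) s).choose j : ℝ) *
        (-((zet X y i0 s ω : ℝ) / 2 ^ X)) ^ (od X ab (k * K) s - j)) = w := by
    rw [hw', ← hz, ← hρ]
  rw [hvv]
  rw [← hw'] at key
  obtain ⟨c, hc⟩ : ∃ c, c = cc ab y a b dd ρ ω := ⟨_, rfl⟩
  have hcf : cf X ab y a b dd s ω = (⌊(2 : ℝ) ^ X * c⌋ : ℝ) / 2 ^ X := by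
    unfold cf
    rw [← hρ, if_neg (by omega), hc]
  rw [hcf]
  rw [← hc] at hcc
  have f2 := fl_round X c
  -- scale the key
  have k2 : |2 ^ (X + gp X ab (k * K) s) * u - 2 ^ (X + gp X ab (k * K) s) * v - 2 ^ X * c * w| ≤
      Cr k K (K + 3) * 2 ^ h := by
    have hP : (0 : ℝ) < 2 ^ (X + gp X ab (k * K) s) := by positivity
    have e4 : 2 ^ (X + gp X ab (k * K) s) * u - 2 ^ (X + gp X ab (k * K) s) * v -
        2 ^ X * c * w = 2 ^ (X + gp X ab (k * K) s) *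
          (u - v - lj (fun l => (dd ρ ω l : ℝ)) ρ (phi X y a b s ω) * w) := by
      rw [← hcc, pow_add]
      ring
    rw [e4, abs_mul, abs_of_pos hP]
    refine (mul_le_mul_of_nonneg_left key hP.le).trans (le_of_eq ?_)
    rw [pow_add]
    field_simp
  have e5 : (⌊(2 : ℝ) ^ (X + gp X ab (k * K) s) * u⌋ : ℝ) -
      ⌊(2 : ℝ) ^ (X + gp X ab (k * K) s) * v⌋ -
      2 ^ X * ((⌊(2 : ℝ) ^ X * c⌋ : ℝ) / 2 ^ X * w) =
      ((⌊(2 : ℝ) ^ (X + gp X ab (k * K) s) * u⌋ : ℝ) -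
      ⌊(2 : ℝ) ^ (X + gp X ab (k * K) s) * v⌋ -
      (2 ^ (X + gp X ab (k * K) s) * u - 2 ^ (X + gp X ab (k * K) s) * v)) +
      (2 ^ (X + gp X ab (k * K) s) * u - 2 ^ (X + gp X ab (k * K) s) * v - 2 ^ X * c * w) -
      ((⌊(2 : ℝ) ^ X * c⌋ : ℝ) - 2 ^ X * c) * w := by
    have hX0 : (2 : ℝ) ^ X ≠ 0 := by positivity
    field_simp
    ring
  rw [e5]
  refine (abs_sub _ _).trans ?_
  have f3 : |((⌊(2 : ℝ) ^ X * c⌋ : ℝ) - 2 ^ X * c) * w| ≤ 1 * 2 ^ (k * K) := by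
    rw [abs_mul]
    exact mul_le_mul f2 hwb (abs_nonneg _) (by norm_num)
  have f4 := abs_add_le ((⌊(2 : ℝ) ^ (X + gp X ab (k * K) s) * u⌋ : ℝ) -
      ⌊(2 : ℝ) ^ (X + gp X ab (k * K) s) * v⌋ -
      (2 ^ (X + gp X ab (k * K) s) * u - 2 ^ (X + gp X ab (k * K) s) * v))
      (2 ^ (X + gp X ab (k * K) s) * u - 2 ^ (X + gp X ab (k * K) s) * v - 2 ^ X * c * w)
  have f5 : (0 : ℝ) < 2 ^ (k * K) := by positivity
  unfold C1
  nlinarith

end Pool.R1P
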