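import Pool.Agent.H3.JM.Def

/-!
# The image of an almost uniform number under a polynomial of one variable
-/

set_option autoImplicit false

namespace Pool.R1P

open Finset Real Polynomial Pool.LU
open Pool.Agent.H49.Ent Pool.Agent.H32.Dense Pool.STK Pool.KA Pool.KSAT
open Pool.XB (ri ri_le ri_sep CH_nat col)

/-- The complex roots of a real polynomial. -/
theorem roots_ex (Q : Polynomial ℝ) {n : ℕ} (hn : Q.natDegree = n) : ∃ r : Fin n → ℂ,
    ∀ x : ℝ, |Q.eval x| = |Q.leadingCoeff| * ∏ i, ‖(x : ℂ) - r i‖ := by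
  classical
  obtain ⟨Qc, hQc⟩ : ∃ q : Polynomial ℂ, q = Q.map (algebraMap ℝ ℂ) := ⟨_, rfl⟩
  have hinj : Function.Injective (algebraMap ℝ ℂ) := (algebraMap ℝ ℂ).injective
  have hs : Qc.Splits := IsAlgClosed.splits Qc
  have hc : Qc.roots.card = n := by
    rw [← hs.natDegree_eq_card_roots, hQc, natDegree_map_eq_of_injective hinj, hn]
  obtain ⟨L, hL⟩ : ∃ L : List ℂ, (L : Multiset ℂ) = Qc.roots := ⟨Qc.roots.toList, by simp⟩
  have hLn : L.length = n := by
    rw [← hc, ← hL, Multiset.coe_card]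
  refine ⟨fun i => L.get (Fin.cast hLn.symm i), fun x => ?_⟩
  have h1 : ((Q.eval x : ℝ) : ℂ) = Qc.eval (x : ℂ) := by
    rw [hQc]
    have := Polynomial.eval_map_algebraMap (R := ℝ) (B := ℂ) Q (x : ℂ)
    rw [this]
    have h2 := Polynomial.aeval_algebraMap_apply (A := ℝ) ℂ x Q
    simpa using h2.symm
  have h2 : ‖((Q.eval x : ℝ) : ℂ)‖ = |Q.eval x| := Complex.norm_real _
  rw [← h2, h1, hs.eq_prod_roots, eval_mul, eval_C, norm_mul, eval_multiset_prod, ← hL]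
  have h3 : ‖Qc.leadingCoeff‖ = |Q.leadingCoeff| := by
    rw [hQc, leadingCoeff_map_of_injective hinj]
    exact Complex.norm_real _
  have h4 : (Multiset.map (eval (x : ℂ)) (Multiset.map (fun a => X - C a) (L : Multiset ℂ))).prod =
      ∏ i : Fin n, ((x : ℂ) - L.get (Fin.cast hLn.symm i)) := by
    rw [Multiset.map_map, Multiset.map_coe, Multiset.prod_coe]
    have h5 : List.map (eval (x : ℂ) ∘ fun a => X - C a) L =
        List.ofFn (fun i : Fin n => ((x : ℂ) - L.get (Fin.cast hLn.symm i))) := by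
      subst hLn
      refine List.ext_get ?_ fun i h1 h2 => ?_
      · simp
      · simp
    rw [h5, List.prod_ofFn]
  rw [h3, h4, norm_prod]

/-- The cell of a root. -/
noncomputable def vr (X : ℕ) (s : ℝ) : ℕ := min (2 ^ X) ⌊s⌋₊

theorem vr_le (X : ℕ) (s : ℝ) : vr X s ≤ 2 ^ X := min_le_left _ _

/-- A cell apart from the cell of a root is apart from the root. -/
theorem vr_sep {X t : ℕ} (ht : t ≤ 2 ^ X) (s : ℝ) : |(t : ℝ) - vr X s| - 1 ≤ |(t : ℝ) - s| := by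
  have ht' : (t : ℝ) ≤ 2 ^ X := by exact_mod_cast ht
  have ht0 : (0 : ℝ) ≤ t := Nat.cast_nonneg t
  unfold vr
  rw [Nat.cast_min]
  push_cast
  by_cases h0 : s < 0
  · rw [Nat.floor_of_nonpos h0.le, Nat.cast_zero, min_eq_right (by positivity), sub_zero,
      abs_of_nonneg ht0, abs_of_nonneg (by linarith)]
    linarith
  · push Not at h0
    have f1 := Nat.floor_le h0
    have f2 := Nat.lt_floor_add_one s
    by_cases h1 : (2 : ℝ) ^ X ≤ (⌊s⌋₊ : ℝ)
    · rw [min_eq_left h1, abs_of_nonpos (by linarith), abs_of_nonpos (by linarith)]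
      linarith
    · push Not at h1
      rw [min_eq_right h1.le]
      have h3 : |(t : ℝ) - (⌊s⌋₊ : ℝ)| ≤ |(t : ℝ) - s| + |s - (⌊s⌋₊ : ℝ)| := abs_sub_le _ _ _
      have h4 : |s - (⌊s⌋₊ : ℝ)| ≤ 1 := by
        rw [abs_of_nonneg (by linarith)]
        linarith
      linarith

/-- The distance from a root. -/
theorem root_sep {X t : ℕ} (ht : t ≤ 2 ^ X) (r : ℝ) (h : ri X t (vr X (2 ^ X * r)) < X) :
    1 / 2 ^ (ri X t (vr X (2 ^ X * r)) + 1) ≤ |(t : ℝ) / 2 ^ X - r| := by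
  have hX : (0 : ℝ) < 2 ^ X := by positivity
  obtain ⟨R, hR⟩ : ∃ R, R = ri X t (vr X (2 ^ X * r)) := ⟨_, rfl⟩
  have h1 := ri_sep ht (vr_le X (2 ^ X * r)) h
  have h2 := vr_sep ht (2 ^ X * r)
  rw [← hR] at h1 h ⊢
  have h3 : (2 : ℝ) ≤ 2 ^ (X - R) := by
    calc (2 : ℝ) = 2 ^ 1 := by norm_num
      _ ≤ 2 ^ (X - R) := pow_le_pow_right₀ (by norm_num) (by omega)
  have h4 : (2 : ℝ) ^ (X - R) / 2 ≤ |(t : ℝ) - 2 ^ X * r| := by linarith
  have e1 : (t : ℝ) / 2 ^ X - r = ((t : ℝ) - 2 ^ X * r) / 2 ^ X := by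
    field_simp
  rw [e1, abs_div, abs_of_pos hX, le_div_iff₀ hX]
  refine le_trans (le_of_eq ?_) h4
  have e2 : (2 : ℝ) ^ X = 2 ^ (X - R) * 2 ^ R := by
    rw [← pow_add]
    congr 1
    omega
  rw [e2, pow_succ]
  field_simp

/-- **The fibre of a polynomial.** -/
theorem fib1 {P : Polynomial ℝ} {n : ℕ} {r : Fin n → ℂ}
    (hr : ∀ x : ℝ, |P.derivative.eval x| = |P.derivative.leadingCoeff| * ∏ i, ‖(x : ℂ) - r i‖)
    {h : ℕ} (hl : 1 / 2 ^ h ≤ |P.derivative.leadingCoeff|) {X t t' : ℕ} (htt : t < t')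
    (ht : t ≤ 2 ^ X) (ht' : t' ≤ 2 ^ X) {R : Fin n → ℕ}
    (h1 : ∀ i, ri X t (vr X (2 ^ X * (r i).re)) = R i)
    (h2 : ∀ i, ri X t' (vr X (2 ^ X * (r i).re)) = R i)
    (hσ : ∀ i, (2 ^ X * (r i).re ≤ t ↔ 2 ^ X * (r i).re ≤ t')) (hR : ∀ i, R i < X) {m : ℤ}
    (hm : |(m : ℝ) - 2 ^ X * P.eval ((t : ℝ) / 2 ^ X)| ≤ 2 ^ h)
    (hm' : |(m : ℝ) - 2 ^ X * P.eval ((t' : ℝ) / 2 ^ X)| ≤ 2 ^ h) :
    (t' : ℝ) - t ≤ 2 ^ (2 * h + 1 + n + ∑ i, R i) := by
  have hX : (0 : ℝ) < 2 ^ X := by positivity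
  have htt' : (t : ℝ) / 2 ^ X < (t' : ℝ) / 2 ^ X :=
    div_lt_div_of_pos_right (by exact_mod_cast htt) hX
  obtain ⟨ξ, hξ, hξ2⟩ := exists_deriv_eq_slope (fun x => P.eval x) htt'
    P.continuous.continuousOn P.differentiable.differentiableOn
  rw [Polynomial.deriv] at hξ2
  -- the derivative is large
  have h3 : ∀ i, 1 / 2 ^ (R i + 1) ≤ ‖(ξ : ℂ) - r i‖ := by
    intro i
    have g1 := root_sep ht (r i).re (by rw [h1 i]; exact hR i)
    have g2 := root_sep ht' (r i).re (by rw [h2 i]; exact hR i)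
    rw [h1 i] at g1
    rw [h2 i] at g2
    have g3 : |ξ - (r i).re| ≤ ‖(ξ : ℂ) - r i‖ := by
      have := Complex.abs_re_le_norm ((ξ : ℂ) - r i)
      simpa using this
    refine le_trans ?_ g3
    by_cases hs : 2 ^ X * (r i).re ≤ t
    · have g4 : (r i).re ≤ (t : ℝ) / 2 ^ X := by
        rw [le_div_iff₀ hX]
        linarith
      rw [abs_of_nonneg (by linarith)] at g1
      rw [abs_of_nonneg (by linarith [hξ.1])]
      linarith [hξ.1]
    · have hs' : ¬ 2 ^ X * (r i).re ≤ t' := fun hc => hs ((hσ i).2 hc)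
      push Not at hs'
      have g4 : (t' : ℝ) / 2 ^ X < (r i).re := by
        rw [div_lt_iff₀ hX]
        linarith
      rw [abs_of_nonpos (by linarith)] at g2
      rw [abs_of_nonpos (by linarith [hξ.2])]
      linarith [hξ.2]
  have h4 : 1 / 2 ^ (h + (n + ∑ i, R i)) ≤ |P.derivative.eval ξ| := by
    rw [hr ξ]
    have g1 : ∏ i, (1 : ℝ) / 2 ^ (R i + 1) ≤ ∏ i, ‖(ξ : ℂ) - r i‖ :=
      Finset.prod_le_prod (fun i _ => by positivity) fun i _ => h3 i
    have g2 : ∏ i, (1 : ℝ) / 2 ^ (R i + 1) = 1 / 2 ^ (n + ∑ i, R i) := by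
      rw [Finset.prod_div_distrib, Finset.prod_const_one, Finset.prod_pow_eq_pow_sum,
        Finset.sum_add_distrib]
      congr 2
      simp
      ring
    rw [g2] at g1
    calc (1 : ℝ) / 2 ^ (h + (n + ∑ i, R i)) = 1 / 2 ^ h * (1 / 2 ^ (n + ∑ i, R i)) := by
          rw [pow_add]
          field_simp
      _ ≤ _ := mul_le_mul hl g1 (by positivity) (abs_nonneg _)
  rw [hξ2, abs_div] at h4
  have h5 : |P.eval ((t' : ℝ) / 2 ^ X) - P.eval ((t : ℝ) / 2 ^ X)| ≤ 2 * 2 ^ h / 2 ^ X := by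
    rw [le_div_iff₀ hX, ← abs_of_pos hX, ← abs_mul, abs_of_pos hX]
    have e1 : (P.eval ((t' : ℝ) / 2 ^ X) - P.eval ((t : ℝ) / 2 ^ X)) * 2 ^ X =
        ((m : ℝ) - 2 ^ X * P.eval ((t : ℝ) / 2 ^ X)) -
          ((m : ℝ) - 2 ^ X * P.eval ((t' : ℝ) / 2 ^ X)) := by ring
    rw [e1]
    refine (abs_sub _ _).trans ?_
    linarith
  have h6 : (0 : ℝ) < (t' : ℝ) / 2 ^ X - (t : ℝ) / 2 ^ X := by linarith
  rw [abs_of_pos h6, le_div_iff₀ h6] at h4
  have h7 := h4.trans h5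
  have e2 : (t' : ℝ) / 2 ^ X - (t : ℝ) / 2 ^ X = ((t' : ℝ) - t) / 2 ^ X := by ring
  rw [e2, ← mul_div_assoc, div_le_div_iff_of_pos_right hX] at h7
  have e3 : (2 : ℝ) ^ (2 * h + 1 + n + ∑ i, R i) = 2 * 2 ^ h * 2 ^ (h + (n + ∑ i, R i)) := by
    rw [← pow_succ', ← pow_add]
    congr 1
    ring
  rw [e3]
  rw [one_div, inv_mul_le_iff₀ (by positivity)] at h7
  linarith

/-- **The image of an almost uniform number under a polynomial.** -/
theorem img1 (n : ℕ) : ∃ C : ℝ, 0 ≤ C ∧ ∀ {Ω T : Type} [Fintype Ω] {p : Ω → ℝ}, IsLaw p →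
    ∀ (X h : ℕ) (t : Ω → ℕ) (M : Ω → ℤ) (V : Ω → T) (P : Ω → Polynomial ℝ) (δ : ℝ), 0 ≤ δ →
    (∀ ω, t ω ≤ 2 ^ X) → Det p V P → (∀ ω, 0 < p ω → (P ω).natDegree = n + 1) →
    (∀ ω, 0 < p ω → 1 / 2 ^ h ≤ |(P ω).leadingCoeff|) →
    (∀ ω, 0 < p ω → |(M ω : ℝ) - 2 ^ X * (P ω).eval ((t ω : ℝ) / 2 ^ X)| ≤ 2 ^ h) →
    X * Real.log 2 - δ ≤ CH p t V →
    X * Real.log 2 - C * (δ + h + 1) ≤ CH p M V := by
  classical
  have hl : 0 < Real.log (3 / 2 : ℝ) := Real.log_pos (by norm_num)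
  have hl2 : 0 ≤ Real.log 2 := Real.log_nonneg (by norm_num)
  have hl2' : Real.log 2 ≤ 1 := by
    have := Real.log_two_lt_d9
    linarith
  have hl43 : 0 ≤ Real.log (4 / 3 : ℝ) := Real.log_nonneg (by norm_num)
  have hl4 : 0 ≤ Real.log 4 := Real.log_nonneg (by norm_num)
  have hl20 : 0 ≤ Real.log 20 := Real.log_nonneg (by norm_num)
  set κ : ℝ := (1 + Real.log 20) / Real.log (3 / 2) with hκ
  have hκ0 : 0 ≤ κ := by positivity
  refine ⟨1 + n * ((Real.log (4 / 3) + 1) * κ + Real.log 4 + 2) + 5, by positivity, ?_⟩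
  intro Ω T _ p hp X h t M V P δ hδ ht hP hdeg hlead hM hfull
  have h0 := hp.nonneg
  -- the roots
  choose! rt hrt using fun (Q : Polynomial ℝ) (hQ : Q.natDegree = n) => roots_ex Q hQ
  obtain ⟨r, hr⟩ : ∃ r : Ω → Fin n → ℂ, r = fun ω => rt (P ω).derivative := ⟨_, rfl⟩
  have hrV : Det p V r := fun ω ω' a b hh => by
    rw [hr]
    simp only []
    rw [hP ω ω' a b hh]
  have hrr : ∀ ω, 0 < p ω → ∀ x : ℝ, |(P ω).derivative.eval x| =
      |(P ω).derivative.leadingCoeff| * ∏ i, ‖(x : ℂ) - r ω i‖ := by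
    intro ω hω x
    rw [hr]
    refine hrt _ ?_ x
    rw [natDegree_derivative, hdeg ω hω]
    rfl
  have hll : ∀ ω, 0 < p ω → 1 / 2 ^ h ≤ |(P ω).derivative.leadingCoeff| := by
    intro ω hω
    rw [leadingCoeff_derivative, hdeg ω hω, abs_mul, Nat.abs_cast]
    have g1 : (1 : ℝ) ≤ ((n + 1 : ℕ) : ℝ) := by
      push_cast
      linarith [(Nat.cast_nonneg n : (0 : ℝ) ≤ n)]
    calc _ ≤ |(P ω).leadingCoeff| * 1 := by
          rw [mul_one]
          exact hlead ω hω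
      _ ≤ _ := mul_le_mul_of_nonneg_left g1 (abs_nonneg _)
  -- the indices
  obtain ⟨v, hv⟩ : ∃ v : Fin n → Ω → ℕ, v = fun i ω => vr X (2 ^ X * (r ω i).re) := ⟨_, rfl⟩
  have hvV : ∀ i, Det p V (v i) := fun i ω ω' a b hh => by
    rw [hv]
    simp only []
    rw [hrV ω ω' a b hh]
  obtain ⟨R, hR⟩ : ∃ R : Ω → Fin n → ℕ, R = fun ω i => ri X (t ω) (v i ω) := ⟨_, rfl⟩
  obtain ⟨σ, hσ⟩ : ∃ σ : Ω → Fin n → Bool, σ = fun ω i =>
    decide (2 ^ X * (r ω i).re ≤ (t ω : ℝ)) := ⟨_, rfl⟩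
  have hER : ∀ i, Ex p (fun ω => (R ω i : ℝ)) ≤ κ * (δ + 1) := by
    intro i
    have g1 : X * Real.log 2 - δ ≤ CH p t (fun ω => (v i ω, V ω)) := by
      refine hfull.trans (le_of_eq ?_)
      refine CH_congr h0 (fun ω ω' _ _ hh => (Prod.ext_iff.mp hh).1)
        (fun ω ω' _ _ hh => (Prod.ext_iff.mp hh).1)
        (fun ω ω' a b hh => Prod.ext (hvV i ω ω' a b hh) hh)
        (fun ω ω' _ _ hh => (Prod.ext_iff.mp hh).2)
    have g2 := col hp ht (fun ω => by rw [hv]; exact vr_le X _) V g1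
    have g3 : Ex p (fun ω => (R ω i : ℝ)) = Ex p (fun ω => (ri X (t ω) (v i ω) : ℝ)) := by
      rw [hR]
    rw [g3, hκ, div_mul_eq_mul_div, le_div_iff₀ hl]
    nlinarith
  -- the entropies of the indices
  have hHR : CH p R V ≤ n * (Real.log (4 / 3) * (κ * (δ + 1)) + Real.log 4) := by
    refine (CH_pi h0 R V).trans ?_
    refine (Finset.sum_le_sum (fun i _ => ((CH_nat hp (fun ω => R ω i) V).trans
      (add_le_add_left (mul_le_mul_of_nonneg_left (hER i) hl43) _)))).trans ?_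
    rw [Finset.sum_const, Finset.card_univ, Fintype.card_fin, nsmul_eq_mul]
  have hHσ : CH p σ V ≤ n * Real.log 2 := by
    have g := CH_le_card h0 hp.sum_one σ V (fun _ => (Finset.univ : Finset (Fin n → Bool)))
      (fun ω _ => Finset.mem_univ _)
    refine g.trans (le_of_eq ?_)
    rw [Ex_const hp.sum_one, Finset.card_univ, Fintype.card_fun, Fintype.card_bool,
      Fintype.card_fin]
    push_cast
    rw [Real.log_pow]
  -- the fibre
  have key : CH p t (fun ω => (M ω, ((R ω, σ ω), V ω))) ≤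
      Ex p (fun ω => ((2 * h + n + 3 : ℕ) : ℝ) * Real.log 2 +
        Real.log 2 * ∑ i, (R ω i : ℝ)) := by
    have g1 : CH p t (fun ω => (M ω, ((R ω, σ ω), V ω))) ≤
        CH p (fun ω => ((t ω : ℕ) : ℤ)) (fun ω => (M ω, ((R ω, σ ω), V ω))) :=
      CH_mono_left h0 fun ω ω' _ _ hh => by
        have h1 : ((t ω : ℕ) : ℤ) = ((t ω' : ℕ) : ℤ) := (Prod.ext_iff.mp hh).1
        show t ω = t ω'
        exact_mod_cast h1
    refine g1.trans ((CH_le_int h0 hp.sum_one _ _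
      (fun ω => (2 : ℝ) ^ (2 * h + 1 + n + ∑ i, R ω i)) ?_).trans ?_)
    · intro ω ω' hω hω' hh
      simp only [Prod.mk.injEq] at hh
      obtain ⟨e1, ⟨e2, e3⟩, e4⟩ := hh
      have e5 := hrV ω ω' hω hω' e4
      have e6 := hP ω ω' hω hω' e4
      push_cast
      by_cases hbig : ∃ i, X ≤ R ω i
      · obtain ⟨i, hi⟩ := hbig
        have g2 : |(t ω : ℝ) - t ω'| ≤ 2 ^ X := by
          have a1 : (t ω : ℝ) ≤ 2 ^ X := by exact_mod_cast ht ω
          have a2 : (t ω' : ℝ) ≤ 2 ^ X := by exact_mod_cast ht ω'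
          have a3 : (0 : ℝ) ≤ t ω := Nat.cast_nonneg _
          have a4 : (0 : ℝ) ≤ t ω' := Nat.cast_nonneg _
          rw [abs_le]
          constructor <;> linarith
        refine g2.trans (pow_le_pow_right₀ (by norm_num) ?_)
        have g3 : R ω i ≤ ∑ i, R ω i :=
          Finset.single_le_sum (f := fun i => R ω i) (fun _ _ => Nat.zero_le _)
            (Finset.mem_univ i)
        omega
      · push Not at hbig
        have hRR : ∀ i, ri X (t ω) (vr X (2 ^ X * (r ω i).re)) = R ω i := fun i => by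
          rw [hR, hv]
        have hRR' : ∀ i, ri X (t ω') (vr X (2 ^ X * (r ω i).re)) = R ω i := fun i => by
          rw [e2, hR, hv, e5]
        have hσσ : ∀ i, (2 ^ X * (r ω i).re ≤ (t ω : ℝ) ↔ 2 ^ X * (r ω i).re ≤ (t ω' : ℝ)) := by
          intro i
          have := congrFun e3 i
          rw [hσ] at this
          simp only [← e5] at this
          exact decide_eq_decide.mp this
        have m1 := hM ω hω
        have m2 := hM ω' hω'
        rw [← e1, ← e6] at m2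
        rcases lt_trichotomy (t ω) (t ω') with hlt | heq | hgt
        · have := fib1 (hrr ω hω) (hll ω hω) hlt (ht ω) (ht ω') hRR hRR' hσσ hbig m1 m2
          rw [abs_of_nonpos (by
            have : (t ω : ℝ) < t ω' := by exact_mod_cast hlt
            linarith)]
          linarith
        · rw [heq, sub_self, abs_zero]
          positivity
        · have := fib1 (hrr ω hω) (hll ω hω) hgt (ht ω') (ht ω) hRR' hRR
            (fun i => (hσσ i).symm) hbig m2 m1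
          rw [abs_of_nonneg (by
            have : (t ω' : ℝ) < t ω := by exact_mod_cast hgt
            linarith)]
          linarith
    · refine Ex_mono h0 fun ω _ => ?_
      have g2 : 2 * (2 : ℝ) ^ (2 * h + 1 + n + ∑ i, R ω i) + 1 ≤
          2 ^ (2 * h + n + 3 + ∑ i, R ω i) := by
        have g3 : (1 : ℝ) ≤ 2 ^ (2 * h + 1 + n + ∑ i, R ω i) := one_le_pow₀ (by norm_num)
        have g4 : (2 : ℝ) ^ (2 * h + n + 3 + ∑ i, R ω i) =
            4 * 2 ^ (2 * h + 1 + n + ∑ i, R ω i) := by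
          have : 2 * h + n + 3 + ∑ i, R ω i = (2 * h + 1 + n + ∑ i, R ω i) + 2 := by ring
          rw [this, pow_add]
          ring
        rw [g4]
        linarith
      refine (Real.log_le_log (by positivity) g2).trans (le_of_eq ?_)
      rw [Real.log_pow]
      push_cast
      ring
  have key2 : Ex p (fun ω => ((2 * h + n + 3 : ℕ) : ℝ) * Real.log 2 +
        Real.log 2 * ∑ i, (R ω i : ℝ)) ≤ (2 * h + n + 3) * Real.log 2 +
        Real.log 2 * (n * (κ * (δ + 1))) := by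
    rw [Ex_add, Ex_const hp.sum_one, Ex_smul]
    have g1 : Ex p (fun ω => ∑ i, (R ω i : ℝ)) = ∑ i, Ex p (fun ω => (R ω i : ℝ)) := by
      unfold Ex
      rw [Finset.sum_comm]
      refine Finset.sum_congr rfl fun ω _ => ?_
      rw [Finset.mul_sum]
    rw [g1]
    have g2 : ∑ i, Ex p (fun ω => (R ω i : ℝ)) ≤ n * (κ * (δ + 1)) := by
      refine (Finset.sum_le_sum fun i _ => hER i).trans (le_of_eq ?_)
      rw [Finset.sum_const, Finset.card_univ, Fintype.card_fin, nsmul_eq_mul]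
    have g3 := mul_le_mul_of_nonneg_left g2 hl2
    push_cast
    linarith
  -- the sum
  have s1 := CH_le_add h0 t M V
  have s2 := CH_le_add h0 t (fun ω => (R ω, σ ω)) (fun ω => (M ω, V ω))
  have s3 : CH p (fun ω => (R ω, σ ω)) (fun ω => (M ω, V ω)) ≤
      CH p (fun ω => (R ω, σ ω)) V :=
    CH_mono_cond h0 fun _ _ _ _ hh => (Prod.ext_iff.mp hh).2
  have s4 := CH_subadd h0 R σ V
  have s5 : CH p t (fun ω => ((R ω, σ ω), (M ω, V ω))) ≤
      CH p t (fun ω => (M ω, ((R ω, σ ω), V ω))) :=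
    CH_mono_cond h0 fun ω ω' _ _ hh => by
      simp only [Prod.mk.injEq] at hh ⊢
      exact ⟨hh.2.1, hh.1, hh.2.2⟩
  have hn : (0 : ℝ) ≤ n := Nat.cast_nonneg n
  have hh0 : (0 : ℝ) ≤ h := Nat.cast_nonneg h
  have u1 : (2 * h + n + 3) * Real.log 2 ≤ 2 * h + n + 3 :=
    mul_le_of_le_one_right (by positivity) hl2'
  have u2 : Real.log 2 * (n * (κ * (δ + 1))) ≤ n * (κ * (δ + 1)) :=
    mul_le_of_le_one_left (by positivity) hl2'
  have u3 : n * Real.log 2 ≤ n * 1 := mul_le_mul_of_nonneg_left hl2' hn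
  have u4 : (1 + n * ((Real.log (4 / 3) + 1) * κ + Real.log 4 + 2) + 5) * (δ + h + 1) =
      (δ + h + 1) + n * (Real.log (4 / 3) * (κ * (δ + 1)) + κ * (δ + 1)) +
      n * ((Real.log (4 / 3) + 1) * κ) * h + n * Real.log 4 * (δ + h + 1) +
      n * 2 * (δ + h + 1) + 5 * (δ + h + 1) := by ring
  have u5 : 0 ≤ n * ((Real.log (4 / 3) + 1) * κ) * h := by positivity
  have u6 : n * Real.log 4 * 1 ≤ n * Real.log 4 * (δ + h + 1) :=
    mul_le_mul_of_nonneg_left (by linarith) (by positivity)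
  have u7 : (n : ℝ) * 2 * 1 ≤ n * 2 * (δ + h + 1) :=
    mul_le_mul_of_nonneg_left (by linarith) (by positivity)
  rw [u4]
  linarith

end Pool.R1P
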