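import Pool.Agent.H3.JM.Est

/-!
# Statement R for one equation: the next record determines the jets of the second leaf
-/

set_option autoImplicit false

namespace Pool.R1P

open Finset Real Pool.LU
open Pool.Agent.H49.Ent Pool.Agent.H32.Dense Pool.STK Pool.KA Pool.KSAT Pool.K2S Pool.PC
open Pool.XBG (cel xx crn xx_nonneg xx_lt cel_crs)

variable {Ω α β τ : Type} {p : Ω → ℝ} {k K X S h m : ℕ} {ab : ℕ → ℕ}
  {A : Ω → α} {B : Ω → β} {W : Ω → τ} {y : Ω → Fin k → ℝ} {a b : Ω → Ar k K}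

/-- The difference of the second leaves of two samples, at the corner of the first. -/
noncomputable def del (X : ℕ) (y : Ω → Fin k → ℝ) (b : Ω → Ar k K) (s : ℕ) (ω ω' : Ω) : Ar k K :=
  lo (s * X) (cu X y s ω) (fun α => b ω α - b ω' α)

theorem del_eq (s : ℕ) (ω ω' : Ω) (α : Ix k K) : del X y b s ω ω' α =
    lo (s * X) (cu X y s ω) (b ω) α - lo (s * X) (cu X y s ω) (b ω') α := lo_sub _ _ _ _ α

/-- The constant of the records. -/
noncomputable def C2 (k K : ℕ) : ℝ := 2 * Cs k K 1 + 1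

theorem C2_ge : 1 ≤ C2 k K := by
  have := Cs_nonneg (k := k) (K := K) (le_refl (1 : ℝ))
  unfold C2
  linarith

/-- Equal records: the second leaves are close. -/
theorem Dat.reco (h' : Dat p k K X S h ab A B W y a b) {s : ℕ} {ω ω' : Ω} (hω : 0 < p ω)
    (hω' : 0 < p ω') (hr : rc0 X ab y a s ω = rc0 X ab y a s ω') :
    cel X y s ω = cel X y s ω' ∧ ∀ α, |del X y b s ω ω' α| ≤
      C2 k K * (2 ^ h / 2 ^ (gp X ab (k * K) s)) := by
  unfold rc0 at hr
  rw [Prod.mk.injEq] at hr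
  obtain ⟨r1, r2⟩ := hr
  have hcu : cu X y s ω' = cu X y s ω := by
    funext i
    unfold cu
    rw [r1]
  refine ⟨r1, fun α => ?_⟩
  have n1 := h'.near s hω α
  have n2 := h'.near s hω' α
  have r3 := congrFun r2 α
  rw [hcu] at n2 r3
  have g1 := floor_same r3
  rw [del_eq]
  have hh : (1 : ℝ) ≤ 2 ^ h := one_le_pow₀ (by norm_num)
  have e2 : (1 : ℝ) / 2 ^ (gp X ab (k * K) s) ≤ 2 ^ h / 2 ^ (gp X ab (k * K) s) :=
    div_le_div_of_nonneg_right hh (by positivity)
  obtain ⟨u, hu⟩ : ∃ u, u = lo (s * X) (cu X y s ω) (a ω) α := ⟨_, rfl⟩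
  obtain ⟨u', hu'⟩ : ∃ u, u = lo (s * X) (cu X y s ω) (a ω') α := ⟨_, rfl⟩
  obtain ⟨v, hv⟩ : ∃ u, u = lo (s * X) (cu X y s ω) (b ω) α := ⟨_, rfl⟩
  obtain ⟨v', hv'⟩ : ∃ u, u = lo (s * X) (cu X y s ω) (b ω') α := ⟨_, rfl⟩
  rw [← hu, ← hv] at n1
  rw [← hu', ← hv'] at n2
  rw [← hu, ← hu'] at g1
  rw [← hv, ← hv']
  have e : v - v' = (u - u') - (u - v) + (u' - v') := by ring
  rw [e]
  refine (abs_add_le _ _).trans ?_
  have g2 := abs_sub (u - u') (u - v)
  unfold C2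
  linarith

/-- The corner of a deeper cell, in the scale of the first. -/
noncomputable def vc (X : ℕ) (y : Ω → Fin k → ℝ) (s m : ℕ) (ω : Ω) (i : Fin k) : ℝ :=
  cu X y (s + m) ω i / 2 ^ (m * X) - cu X y s ω i

theorem vc_bd (s m : ℕ) (ω : Ω) (i : Fin k) : |vc X y s m ω i| ≤ 1 := by
  have hm : (1 : ℝ) ≤ 2 ^ (m * X) := one_le_pow₀ (by norm_num)
  have hm0 : (0 : ℝ) < 2 ^ (m * X) := by positivity
  have e : (2 : ℝ) ^ ((s + m) * X) = 2 ^ (s * X) * 2 ^ (m * X) := by
    rw [← pow_add]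
    congr 1
    ring
  have f1 : cu X y (s + m) ω i = 2 ^ ((s + m) * X) * y ω i - xx X y (s + m) ω i := by
    unfold cu xx
    ring
  have f2 : cu X y s ω i = 2 ^ (s * X) * y ω i - xx X y s ω i := by
    unfold cu xx
    ring
  have e2 : vc X y s m ω i = xx X y s ω i - xx X y (s + m) ω i / 2 ^ (m * X) := by
    unfold vc
    rw [f1, f2, e]
    field_simp
    ring
  rw [e2]
  have a0 := xx_nonneg X y s ω i
  have a1 := xx_lt X y s ω i
  have b0 := xx_nonneg X y (s + m) ω i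
  have b1 := xx_lt X y (s + m) ω i
  have c0 : 0 ≤ xx X y (s + m) ω i / 2 ^ (m * X) := div_nonneg b0 hm0.le
  have c1 : xx X y (s + m) ω i / 2 ^ (m * X) ≤ 1 := by
    rw [div_le_one hm0]
    linarith
  rw [abs_le]
  constructor <;> linarith

/-- From one depth to a deeper one. -/
theorem del_next (s m : ℕ) (ω ω' : Ω) : del X y b (s + m) ω ω' =
    sc (1 / 2 ^ (m * X)) (sh (vc X y s m ω) (del X y b s ω ω')) := by
  unfold del
  rw [← lo_add, ← lo_scale]
  have e1 : (s + m) * X = s * X + m * X := by ring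
  rw [e1]
  congr 1
  funext i
  unfold vc
  have : (2 : ℝ) ^ (m * X) ≠ 0 := by positivity
  field_simp
  ring

/-- Equal residues and a small difference: equality. -/
theorem res_eq {u v : ℤ} {M : ℕ} (h1 : u % 2 ^ M = v % 2 ^ M) (h2 : |((u - v : ℤ) : ℝ)| < 2 ^ M) :
    u = v := by
  have h3 : (2 : ℤ) ^ M ∣ u - v := Int.ModEq.dvd (show v ≡ u [ZMOD 2 ^ M] from h1.symm)
  have h4 : |u - v| < 2 ^ M := by exact_mod_cast h2
  have h5 := Int.eq_zero_of_abs_lt_dvd h3 h4
  omega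

/-- The constant of the jets. -/
noncomputable def C3 (k K : ℕ) : ℝ := Cs k K 1 * C2 k K + C2 k K + 1

theorem C3_nonneg : 0 ≤ C3 k K := by
  have h1 := Cs_nonneg (k := k) (K := K) (le_refl (1 : ℝ))
  have h2 := C2_ge (k := k) (K := K)
  unfold C3
  nlinarith [mul_nonneg h1 (by linarith : 0 ≤ C2 k K)]

/-- The jets of high order at the first depth of the slope. -/
theorem Dat.high (h' : Dat p k K X S h ab A B W y a b) {s ρ : ℕ}
    (hs : od X ab (k * K) s = ρ) (hρ : 1 ≤ ρ) {ω ω' : Ω} (hω : 0 < p ω)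
    (hω' : 0 < p ω') (hr0 : rc0 X ab y a (s - 1) ω = rc0 X ab y a (s - 1) ω')
    (hr : rc0 X ab y a s ω = rc0 X ab y a s ω')
    (hm : (C2 k K * 2 ^ h + 1) < 2 ^ m)
    (hg : ∀ α, ⌊(2 : ℝ) ^ (gp X ab (k * K) s + X) * lo (s * X) (cu X y s ω) (b ω) α⌋ % 2 ^ (X + m) =
      ⌊(2 : ℝ) ^ (gp X ab (k * K) s + X) * lo (s * X) (cu X y s ω') (b ω') α⌋ % 2 ^ (X + m))
    (α : Ix k K) (hα : ρ ≤ dg α) :
    |del X y b s ω ω' α| ≤ C3 k K * (2 ^ h / 2 ^ (gp X ab (k * K) s + X)) := by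
  obtain ⟨h1, h2, h3, h4, h5⟩ := od_spec h'.hX hs hρ
  have hC2 := C2_ge (k := k) (K := K)
  have hCs := Cs_nonneg (k := k) (K := K) (le_refl (1 : ℝ))
  have hh : (1 : ℝ) ≤ 2 ^ h := one_le_pow₀ (by norm_num)
  have hX1 : (1 : ℝ) ≤ 2 ^ X := one_le_pow₀ (by norm_num)
  have hP : 0 ≤ (2 : ℝ) ^ h / 2 ^ (gp X ab (k * K) s + X) := by positivity
  rcases Nat.eq_or_lt_of_le hα with heq | hlt
  · -- the order of the slope
    obtain ⟨c1, c2⟩ := h'.reco hω hω' hr
    have hcu : cu X y s ω' = cu X y s ω := by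
      funext i
      unfold cu
      rw [c1]
    have g1 := hg α
    rw [hcu] at g1
    have g2 := c2 α
    rw [del_eq] at g2
    have g3 : |((⌊(2 : ℝ) ^ (gp X ab (k * K) s + X) * lo (s * X) (cu X y s ω) (b ω) α⌋ -
        ⌊(2 : ℝ) ^ (gp X ab (k * K) s + X) * lo (s * X) (cu X y s ω) (b ω') α⌋ : ℤ) : ℝ)| ≤
        C2 k K * 2 ^ h * 2 ^ X + 1 := by
      refine floor_close (g2.trans (le_of_eq ?_))
      rw [pow_add]
      field_simp
    have g4 : C2 k K * 2 ^ h * 2 ^ X + 1 < 2 ^ (X + m) := by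
      rw [pow_add]
      nlinarith
    have g5 := res_eq g1 (g3.trans_lt g4)
    have g6 := floor_same g5
    rw [← del_eq] at g6
    refine g6.trans ?_
    have e1 : (1 : ℝ) / 2 ^ (gp X ab (k * K) s + X) ≤
        2 ^ h / 2 ^ (gp X ab (k * K) s + X) := div_le_div_of_nonneg_right hh (by positivity)
    have e2 : 2 ^ h / 2 ^ (gp X ab (k * K) s + X) ≤
        C3 k K * (2 ^ h / 2 ^ (gp X ab (k * K) s + X)) := by
      refine le_mul_of_one_le_left hP ?_
      unfold C3
      nlinarith [mul_nonneg hCs (by linarith : 0 ≤ C2 k K)]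
    exact e1.trans e2
  · -- the higher orders
    obtain ⟨t, rfl⟩ : ∃ t, s = t + 1 := ⟨s - 1, by omega⟩
    rw [Nat.add_sub_cancel] at hr0 h3
    obtain ⟨c1, c2⟩ := h'.reco hω hω' hr0
    rw [del_next]
    unfold sc
    rw [abs_mul, abs_of_nonneg (by positivity), pw_pow]
    have g1 := sh_le (k := k) (K := K) (le_refl (1 : ℝ)) (vc_bd (X := X) (y := y) t 1 ω)
      (q := del X y b t ω ω') (β := α) (M := C2 k K * (2 ^ h / 2 ^ (gp X ab (k * K) t)))
      (by positivity) (fun β _ => c2 β)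
    refine (mul_le_mul_of_nonneg_left g1 (by positivity)).trans ?_
    have e1 : (1 : ℝ) / 2 ^ (dg α * (1 * X)) * (Cs k K 1 * (C2 k K * (2 ^ h /
        2 ^ (gp X ab (k * K) t)))) = Cs k K 1 * C2 k K *
        (2 ^ h / 2 ^ (gp X ab (k * K) t + dg α * X)) := by
      rw [one_mul, pow_add]
      field_simp
    rw [e1]
    have e2 : gp X ab (k * K) (t + 1) + X ≤ gp X ab (k * K) t + dg α * X := by
      rw [h3, h4]
      have e3 : ρ * ((t + 1) * X) = ρ * (t * X) + ρ * X := by ring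
      have e4 : (ρ + 1) * X ≤ dg α * X := Nat.mul_le_mul_right X hlt
      have e5 : (ρ + 1) * X = ρ * X + X := by ring
      omega
    have e3 : (2 : ℝ) ^ h / 2 ^ (gp X ab (k * K) t + dg α * X) ≤
        2 ^ h / 2 ^ (gp X ab (k * K) (t + 1) + X) :=
      div_le_div_of_nonneg_left (by positivity) (by positivity)
        (pow_le_pow_right₀ (by norm_num) e2)
    have e4 : Cs k K 1 * C2 k K ≤ C3 k K := by
      unfold C3
      linarith
    exact mul_le_mul e4 e3 (by positivity) C3_nonneg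

/-- The constant of the jets at a depth. -/
noncomputable def C4 (k K : ℕ) : ℝ := Cs k K (K + 3) * (Cs k K 1 * (Cs k K 1 * C3 k K) + C2 k K)

theorem C4_nonneg : 0 ≤ C4 k K := by
  have h1 := Cs_nonneg (k := k) (K := K) (le_refl (1 : ℝ))
  have h2 := C2_ge (k := k) (K := K)
  have h3 := C3_nonneg (k := k) (K := K)
  have hK : (0 : ℝ) ≤ K := Nat.cast_nonneg K
  have h4 := Cs_nonneg (k := k) (K := K) (V := (K : ℝ) + 3) (by linarith)
  unfold C4
  positivity

/-- **The jets of the second leaf at the point of comparison.** -/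
theorem Dat.out (h' : Dat p k K X S h ab A B W y a b) {i0 : Fin k} {dd : ℕ → Ω → Fin k → ℕ}
    {s : ℕ} (hs : 1 ≤ od X ab (k * K) s) (h2 : ∀ ρ ω l, dd ρ ω l ≤ K) {ω ω' : Ω}
    (hω : 0 < p ω) (hω' : 0 < p ω') (hm : (C2 k K * 2 ^ h + 1) < 2 ^ m)
    (hr : rcd X ab y a (s + 1) ω = rcd X ab y a (s + 1) ω')
    (hg : gam X ab m y a b dd ω = gam X ab m y a b dd ω') (α : Ix k K) :
    |lo (s * X) (fun i => pt X y i0 (dd (od X ab (k * K) s)) s ω i + cu X y s ω i) (b ω) α -
      lo (s * X) (fun i => pt X y i0 (dd (od X ab (k * K) s)) s ω i + cu X y s ω i) (b ω') α| ≤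
      C4 k K * (2 ^ h / 2 ^ (gp X ab (k * K) s + X)) := by
  obtain ⟨ρ, hρ⟩ : ∃ ρ, ρ = od X ab (k * K) s := ⟨_, rfl⟩
  rw [← hρ] at hs ⊢
  obtain ⟨s1, s2⟩ := fs_spec hρ.symm
  obtain ⟨t, ht⟩ : ∃ t, t = fs X ab (k * K) ρ := ⟨_, rfl⟩
  rw [← ht] at s1 s2
  have hρk : ρ < k * K + 1 := by
    have := od_le X ab (k * K) s
    omega
  obtain ⟨a1, a2, a3, a4, a5⟩ := od_spec h'.hX s1 hs
  obtain ⟨b1, b2, b3, b4, b5⟩ := od_spec h'.hX hρ.symm hs
  have hC2 := C2_ge (k := k) (K := K)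
  have hC3 := C3_nonneg (k := k) (K := K)
  have hCs := Cs_nonneg (k := k) (K := K) (le_refl (1 : ℝ))
  have hK : (0 : ℝ) ≤ K := Nat.cast_nonneg K
  have hCL := Cs_nonneg (k := k) (K := K) (V := (K : ℝ) + 3) (by linarith)
  have hg1 := congrFun hg (⟨ρ, hρk⟩ : Fin (k * K + 1))
  unfold gam at hg1
  simp only [Prod.mk.injEq] at hg1
  rw [← ht] at hg1
  -- the high orders at the first depth
  have k1 : ∀ α, ρ ≤ dg α → |del X y b t ω ω' α| ≤
      C3 k K * (2 ^ h / 2 ^ (gp X ab (k * K) t + X)) := fun α hα =>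
    h'.high s1 hs hω hω' (rcd_eq hr (by omega)) (rcd_eq hr (by omega)) hm
      (fun α => congrFun hg1.2.2 α) α hα
  -- at the depth of the block
  obtain ⟨n, hn⟩ := Nat.exists_eq_add_of_le s2
  have k2 : ∀ α, ρ ≤ dg α → |del X y b s ω ω' α| ≤
      Cs k K 1 * C3 k K * (2 ^ h / 2 ^ (gp X ab (k * K) s + X)) := by
    intro α hα
    rw [hn, del_next]
    unfold sc
    rw [abs_mul, abs_of_nonneg (by positivity), pw_pow]
    have g1 := sh_le (k := k) (K := K) (le_refl (1 : ℝ)) (vc_bd (X := X) (y := y) t n ω)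
      (q := del X y b t ω ω') (β := α) (M := C3 k K * (2 ^ h / 2 ^ (gp X ab (k * K) t + X)))
      (by positivity) (fun β hβ => k1 β (hα.trans hβ))
    refine (mul_le_mul_of_nonneg_left g1 (by positivity)).trans ?_
    have e1 : (1 : ℝ) / 2 ^ (dg α * (n * X)) * (Cs k K 1 * (C3 k K * (2 ^ h /
        2 ^ (gp X ab (k * K) t + X)))) = Cs k K 1 * C3 k K *
        (2 ^ h / 2 ^ (gp X ab (k * K) t + X + dg α * (n * X))) := by
      rw [pow_add _ (gp X ab (k * K) t + X)]
      field_simp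
    rw [e1, ← hn]
    refine mul_le_mul_of_nonneg_left ?_ (by positivity)
    refine div_le_div_of_nonneg_left (by positivity) (by positivity)
      (pow_le_pow_right₀ (by norm_num) ?_)
    rw [b4, a4]
    have e2 : ρ * (n * X) ≤ dg α * (n * X) := Nat.mul_le_mul_right _ hα
    have e3 : ρ * (s * X) = ρ * (t * X) + ρ * (n * X) := by
      rw [hn]
      ring
    omega
  -- at the corner of the next depth, in the scale of the block
  obtain ⟨c1, c2⟩ := h'.reco hω hω' (rcd_eq hr (le_refl (s + 1)))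
  have k3 : ∀ α, |sh (vc X y s 1 ω) (del X y b s ω ω') α| ≤
      (Cs k K 1 * (Cs k K 1 * C3 k K) + C2 k K) * (2 ^ h / 2 ^ (gp X ab (k * K) s + X)) := by
    intro α
    have hP : 0 ≤ (2 : ℝ) ^ h / 2 ^ (gp X ab (k * K) s + X) := by positivity
    by_cases hα : ρ ≤ dg α
    · have g1 := sh_le (k := k) (K := K) (le_refl (1 : ℝ)) (vc_bd (X := X) (y := y) s 1 ω)
        (q := del X y b s ω ω') (β := α)
        (M := Cs k K 1 * C3 k K * (2 ^ h / 2 ^ (gp X ab (k * K) s + X)))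
        (by positivity) (fun β hβ => k2 β (hα.trans hβ))
      refine g1.trans ?_
      have : 0 ≤ C2 k K * (2 ^ h / 2 ^ (gp X ab (k * K) s + X)) := by positivity
      linarith
    · have g1 := c2 α
      rw [del_next] at g1
      unfold sc at g1
      rw [abs_mul, abs_of_nonneg (by positivity), pw_pow] at g1
      have g2 : |sh (vc X y s 1 ω) (del X y b s ω ω') α| ≤ 2 ^ (dg α * X) *
          (C2 k K * (2 ^ h / 2 ^ (gp X ab (k * K) (s + 1)))) := by
        have hP2 : (0 : ℝ) < 2 ^ (dg α * X) := by positivity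
        have g3 := mul_le_mul_of_nonneg_left g1 hP2.le
        refine le_trans (le_of_eq ?_) g3
        rw [one_mul]
        field_simp
      refine g2.trans ?_
      have e1 : (2 : ℝ) ^ (dg α * X) * (C2 k K * (2 ^ h / 2 ^ (gp X ab (k * K) (s + 1)))) ≤
          C2 k K * (2 ^ h / 2 ^ (gp X ab (k * K) s + X)) := by
        have e2 : gp X ab (k * K) (s + 1) = gp X ab (k * K) s + ρ * X := by
          rw [b5, b4]
          ring
        obtain ⟨j, hj⟩ := Nat.exists_eq_add_of_lt (not_le.mp hα)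
        have e3 : (2 : ℝ) ^ (dg α * X) * (2 ^ h / 2 ^ (gp X ab (k * K) (s + 1))) =
            2 ^ h / 2 ^ (gp X ab (k * K) s + X + j * X) := by
          have e4 : gp X ab (k * K) (s + 1) = (gp X ab (k * K) s + X + j * X) + dg α * X := by
            rw [e2, hj]
            ring
          rw [e4, pow_add _ (gp X ab (k * K) s + X + j * X)]
          field_simp
        have e5 : (2 : ℝ) ^ h / 2 ^ (gp X ab (k * K) s + X + j * X) ≤
            2 ^ h / 2 ^ (gp X ab (k * K) s + X) :=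
          div_le_div_of_nonneg_left (by positivity) (by positivity)
            (pow_le_pow_right₀ (by norm_num) (by omega))
        calc _ = C2 k K * ((2 : ℝ) ^ (dg α * X) * (2 ^ h / 2 ^ (gp X ab (k * K) (s + 1)))) := by
              ring
          _ ≤ _ := by
              rw [e3]
              exact mul_le_mul_of_nonneg_left e5 (by linarith)
      refine e1.trans ?_
      have : 0 ≤ Cs k K 1 * (Cs k K 1 * C3 k K) * (2 ^ h / 2 ^ (gp X ab (k * K) s + X)) := by
        positivity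
      linarith
  -- at the point of comparison
  rw [← lo_sub]
  have e1 : lo (s * X) (fun i => pt X y i0 (dd ρ) s ω i + cu X y s ω i)
      (fun α => b ω α - b ω' α) = sh (fun i => pt X y i0 (dd ρ) s ω i - vc X y s 1 ω i)
      (sh (vc X y s 1 ω) (del X y b s ω ω')) := by
    unfold del
    rw [← lo_add, ← lo_add]
    congr 1
    funext i
    ring
  rw [e1]
  have hv : ∀ i, |pt X y i0 (dd ρ) s ω i - vc X y s 1 ω i| ≤ (K : ℝ) + 3 := by
    intro i
    have g1 := pt_bd (X := X) (y := y) (i0 := i0) (s := s) (ω := ω) (d := dd ρ) (h2 ρ ω) i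
    have g2 := vc_bd (X := X) (y := y) s 1 ω i
    refine (abs_sub _ _).trans ?_
    linarith
  have hP : 0 ≤ (2 : ℝ) ^ h / 2 ^ (gp X ab (k * K) s + X) := by positivity
  have g := sh_le (k := k) (K := K) (V := (K : ℝ) + 3) (by linarith) hv
    (q := sh (vc X y s 1 ω) (del X y b s ω ω')) (β := α)
    (M := (Cs k K 1 * (Cs k K 1 * C3 k K) + C2 k K) * (2 ^ h / 2 ^ (gp X ab (k * K) s + X)))
    (by positivity) (fun β _ => k3 β)
  refine g.trans (le_of_eq ?_)
  unfold C4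
  ring

end Pool.R1P
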