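import Pool.Agent.H3.JM.Prf

/-!
# Profiles: the blocks far from the breaks
-/

set_option autoImplicit false

namespace Pool.R1P

open Finset

theorem mi_anti' {X : ℕ} (hX : 1 ≤ X) (ab : ℕ → ℕ) (D : ℕ) {i j : ℕ} (h : i ≤ j) :
    mi X ab D j ≤ mi X ab D i := antitone_nat_of_succ_le (mi_anti hX ab D) h

/-- The profile grows. -/
theorem gp_mono (X : ℕ) (ab : ℕ → ℕ) (D : ℕ) {i j : ℕ} (h : i ≤ j) :
    gp X ab D i ≤ gp X ab D j := by
  obtain ⟨l, hl, e⟩ := gp_ex X ab D j
  rw [e]
  refine (gp_le i hl).trans ?_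
  exact Nat.add_le_add_right (Nat.mul_le_mul_left l (Nat.mul_le_mul_right X h)) _

/-- The minimiser is at most the slope on the left. -/
theorem mi_slope {X : ℕ} (hX : 1 ≤ X) {ab : ℕ → ℕ} {D r s : ℕ}
    (h : gp X ab D (s + 1) ≤ gp X ab D s + r * X) : mi X ab D (s + 1) ≤ r := by
  have h1 := gp_mi X ab D (s + 1)
  have h2 := gp_le (X := X) (ab := ab) s (mi_le X ab D (s + 1))
  obtain ⟨u, hu⟩ : ∃ u, u = mi X ab D (s + 1) := ⟨_, rfl⟩
  rw [← hu] at h1 h2 ⊢
  have e1 : u * ((s + 1) * X) = u * (s * X) + u * X := by ring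
  rw [e1] at h1
  have h5 : u * X ≤ r * X := by omega
  exact Nat.le_of_mul_le_mul_right h5 (by omega)

/-- A good block of the order `ρ`. -/
structure Gd (X : ℕ) (ab : ℕ → ℕ) (D r S s ρ : ℕ) : Prop where
  h1 : 1 ≤ ρ
  hr : ρ ≤ r
  hs : r + 2 ≤ s
  hS : s + r ≤ S
  gl : gp X ab D (s - r) = ρ * ((s - r) * X) + ab ρ
  gr : gp X ab D (s + r) = ρ * ((s + r) * X) + ab ρ
  g0 : gp X ab D s = ρ * (s * X) + ab ρ
  g1 : gp X ab D (s + 1) = ρ * ((s + 1) * X) + ab ρ
  gap : ∀ j ≤ D, j ≠ ρ → gp X ab D s + ρ * X ≤ j * (s * X) + ab j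

/-- The order of the block of depth `s`. -/
noncomputable def od2 (X : ℕ) (ab : ℕ → ℕ) (D r S s : ℕ) : ℕ :=
  if r + 2 ≤ s ∧ s + r ≤ S ∧ mi X ab D (s - r) = mi X ab D (s + r) then mi X ab D s else 0

theorem od2_gd {X : ℕ} (hX : 1 ≤ X) {ab : ℕ → ℕ} {D r S s ρ : ℕ}
    (hsl : ∀ s, 1 ≤ s → s < S → gp X ab D (s + 1) ≤ gp X ab D s + r * X)
    (h : od2 X ab D r S s = ρ) (hρ : 1 ≤ ρ) : Gd X ab D r S s ρ := by
  unfold od2 at h
  split_ifs at h with h1
  · obtain ⟨h2, h3, h4⟩ := h1
    have hρr : ρ ≤ r := by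
      rw [← h]
      obtain ⟨t, rfl⟩ : ∃ t, s = t + 1 := ⟨s - 1, by omega⟩
      exact mi_slope hX (hsl t (by omega) (by omega))
    have a1 := mi_anti' hX ab D (show s - r ≤ s by omega)
    have a2 := mi_anti' hX ab D (show s ≤ s + r by omega)
    have a3 := mi_anti' hX ab D (show s ≤ s + 1 by omega)
    have a4 := mi_anti' hX ab D (show s + 1 ≤ s + r by omega)
    have b1 : mi X ab D (s - r) = ρ := by omega
    have b2 : mi X ab D (s + r) = ρ := by omega
    have b3 : mi X ab D (s + 1) = ρ := by omega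
    have g0 : gp X ab D s = ρ * (s * X) + ab ρ := by rw [gp_mi, h]
    have gl : gp X ab D (s - r) = ρ * ((s - r) * X) + ab ρ := by rw [gp_mi, b1]
    have gr : gp X ab D (s + r) = ρ * ((s + r) * X) + ab ρ := by rw [gp_mi, b2]
    refine ⟨hρ, hρr, h2, h3, gl, gr, g0, by rw [gp_mi, b3], ?_⟩
    intro j hj hne
    have hrX : ρ * X ≤ r * X := Nat.mul_le_mul_right X hρr
    rcases lt_or_gt_of_ne hne with hlt | hgt
    · have c1 := gp_le (X := X) (ab := ab) (s + r) hj
      rw [gr] at c1
      rw [g0]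
      obtain ⟨m, rfl⟩ := Nat.exists_eq_add_of_lt hlt
      have e1 : (j + m + 1) * ((s + r) * X) =
          (j + m + 1) * (s * X) + j * (r * X) + m * (r * X) + r * X := by ring
      have e2 : j * ((s + r) * X) = j * (s * X) + j * (r * X) := by ring
      rw [e1, e2] at c1
      omega
    · obtain ⟨t, rfl⟩ : ∃ t, s = t + r := ⟨s - r, by omega⟩
      rw [Nat.add_sub_cancel] at gl
      have c1 := gp_le (X := X) (ab := ab) t hj
      rw [gl] at c1
      rw [g0]
      obtain ⟨m, rfl⟩ := Nat.exists_eq_add_of_lt hgt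
      have e1 : ρ * ((t + r) * X) = ρ * (t * X) + ρ * (r * X) := by ring
      have e2 : (ρ + m + 1) * ((t + r) * X) =
          (ρ + m + 1) * (t * X) + ρ * (r * X) + m * (r * X) + r * X := by ring
      rw [e1, e2]
      omega
  · omega

/-- The sum of the orders. -/
theorem od2_sum {X : ℕ} (hX : 1 ≤ X) (ab : ℕ → ℕ) (D r S : ℕ)
    (hsl : ∀ s, 1 ≤ s → s < S → gp X ab D (s + 1) ≤ gp X ab D s + r * X)
    (hsl0 : gp X ab D 1 ≤ gp X ab D 0 + (r + 1) * X) :
    gp X ab D S ≤ gp X ab D 0 + (∑ s ∈ range S, od2 X ab D r S s) * X +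
      (2 * r ^ 3 + 2 * r ^ 2 + 2 * r + 1) * X := by
  rcases Nat.eq_zero_or_pos S with hS0 | hS0
  · rw [hS0, Finset.sum_range_zero]
    omega
  -- a rough bound
  have rough : ∀ m i, 1 ≤ i → i + m ≤ S → gp X ab D (i + m) ≤ gp X ab D i + m * (r * X) := by
    intro m
    induction m with
    | zero =>
      intro i _ _
      simp
    | succ m ih =>
      intro i hi1 hi
      have h1 := ih i hi1 (by omega)
      have h2 := hsl (i + m) (by omega) (by omega)
      have e1 : (m + 1) * (r * X) = m * (r * X) + r * X := by ring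
      rw [e1, ← Nat.add_assoc]
      omega
  by_cases hS : S < 2 * r + 2
  · have h1 := rough (S - 1) 1 le_rfl (by omega)
    rw [show 1 + (S - 1) = S by omega] at h1
    have h2 : (S - 1) * (r * X) + (r + 1) * X ≤ (2 * r ^ 3 + 2 * r ^ 2 + 2 * r + 1) * X := by
      have h3 : (S - 1) * (r * X) ≤ (2 * r) * (r * X) := Nat.mul_le_mul_right _ (by omega)
      have h4 : (2 * r) * (r * X) + (r + 1) * X = (2 * r ^ 2 + r + 1) * X := by ring
      have h5 : (2 * r ^ 2 + r + 1) * X ≤ (2 * r ^ 3 + 2 * r ^ 2 + 2 * r + 1) * X :=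
        Nat.mul_le_mul_right _ (by omega)
      omega
    omega
  · push Not at hS
    obtain ⟨V, hV⟩ : ∃ V : ℕ → ℕ, V = fun m => ∑ i ∈ range (2 * r), mi X ab D (m + 2 + i) :=
      ⟨_, rfl⟩
    have hVs : ∀ m, V (m + 1) + mi X ab D (m + 2) = V m + mi X ab D (m + 2 + 2 * r) := by
      intro m
      have e1 : ∑ i ∈ range (2 * r + 1), mi X ab D (m + 2 + i) =
          V m + mi X ab D (m + 2 + 2 * r) := by
        rw [Finset.sum_range_succ, hV]
      have e2 : ∑ i ∈ range (2 * r + 1), mi X ab D (m + 2 + i) =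
          V (m + 1) + mi X ab D (m + 2) := by
        rw [Finset.sum_range_succ', hV]
        simp only []
        congr 1
        refine Finset.sum_congr rfl fun i _ => ?_
        congr 1
        ring
      rw [← e1, e2]
    have key : ∀ m, m + 2 * r + 2 ≤ S → gp X ab D (r + 2 + m) + r * X * V m ≤
        gp X ab D (r + 2) + (∑ j ∈ range m, od2 X ab D r S (r + 2 + j)) * X + r * X * V 0 := by
      intro m
      induction m with
      | zero =>
        intro _
        simp
      | succ m ih =>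
        intro hm
        have h1 := ih (by omega)
        have h2 := hVs m
        have h3 := hsl (r + 2 + m) (by omega) (by omega)
        rw [Finset.sum_range_succ]
        have e0 : r + 2 + (m + 1) = r + 2 + m + 1 := by ring
        rw [e0]
        have e1 : (∑ j ∈ range m, od2 X ab D r S (r + 2 + j) + od2 X ab D r S (r + 2 + m)) * X =
            (∑ j ∈ range m, od2 X ab D r S (r + 2 + j)) * X +
              od2 X ab D r S (r + 2 + m) * X := by ring
        rw [e1]
        have a1 : r + 2 + m - r = m + 2 := by omega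
        have a2 : r + 2 + m + r = m + 2 + 2 * r := by ring
        by_cases hg : mi X ab D (m + 2) = mi X ab D (m + 2 + 2 * r)
        · have h4 : V (m + 1) = V m := by omega
          have h5 : od2 X ab D r S (r + 2 + m) = mi X ab D (r + 2 + m) := by
            unfold od2
            rw [a1, a2, if_pos ⟨by omega, by omega, hg⟩]
          have h6 : gp X ab D (r + 2 + m + 1) ≤ gp X ab D (r + 2 + m) +
              mi X ab D (r + 2 + m) * X := by
            have g1 := gp_le (X := X) (ab := ab) (r + 2 + m + 1) (mi_le X ab D (r + 2 + m))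
            have g2 := gp_mi X ab D (r + 2 + m)
            have e2 : mi X ab D (r + 2 + m) * ((r + 2 + m + 1) * X) =
              mi X ab D (r + 2 + m) * ((r + 2 + m) * X) + mi X ab D (r + 2 + m) * X := by ring
            rw [e2] at g1
            omega
          rw [h4, h5]
          omega
        · have g1 := mi_anti' hX ab D (show m + 2 ≤ m + 2 + 2 * r by omega)
          obtain ⟨v, hv⟩ : ∃ v, V m = V (m + 1) + 1 + v := ⟨V m - V (m + 1) - 1, by omega⟩
          have h4 : r * X * V (m + 1) + r * X ≤ r * X * V m := by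
            rw [hv]
            have : r * X * (V (m + 1) + 1 + v) = r * X * V (m + 1) + r * X + r * X * v := by ring
            omega
          omega
    obtain ⟨m, hm⟩ : ∃ m, S = m + 2 * r + 2 := ⟨S - 2 * r - 2, by omega⟩
    have h1 := key m (by omega)
    have h2 := rough r (S - r) (by omega) (by omega)
    rw [show S - r + r = S by omega] at h2
    have h3 := rough (r + 1) 1 le_rfl (by omega)
    rw [show 1 + (r + 1) = r + 2 by ring] at h3
    rw [show r + 2 + m = S - r by omega] at h1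
    have h4 : V 0 ≤ 2 * r * r := by
      rw [hV]
      calc ∑ i ∈ range (2 * r), mi X ab D (0 + 2 + i) ≤ ∑ _i ∈ range (2 * r), r := by
            refine Finset.sum_le_sum fun i hi => ?_
            rw [Finset.mem_range] at hi
            rw [show 0 + 2 + i = (i + 1) + 1 by ring]
            exact mi_slope hX (hsl (i + 1) (by omega) (by omega))
        _ = 2 * r * r := by simp
    have h5 : ∑ j ∈ range m, od2 X ab D r S (r + 2 + j) ≤ ∑ s ∈ range S, od2 X ab D r S s := by
      have e1 : ∑ j ∈ range m, od2 X ab D r S (r + 2 + j) =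
          ∑ s ∈ Ico (r + 2) (r + 2 + m), od2 X ab D r S s := by
        rw [Finset.sum_Ico_eq_sum_range]
        simp
      rw [e1]
      refine Finset.sum_le_sum_of_subset fun s hs => ?_
      rw [Finset.mem_Ico] at hs
      rw [Finset.mem_range]
      omega
    have h6 : r * X * V 0 ≤ r * X * (2 * r * r) := Nat.mul_le_mul_left _ h4
    have h7 := Nat.mul_le_mul_right X h5
    have e2 : (2 * r ^ 3 + 2 * r ^ 2 + 2 * r + 1) * X =
        r * X * (2 * r * r) + r * (r * X) + (r + 1) * (r * X) + (r + 1) * X := by ring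
    rw [e2]
    omega

end Pool.R1P
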