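import Pool.Agent.H3.JM.Blk

/-!
# Statement R for one equation: the rows of the fibre coordinate

The theorem over all blocks.
-/

set_option autoImplicit false

namespace Pool.R1P

open Finset Real Pool.LU
open Pool.Agent.H49.Ent Pool.Agent.H32.Dense Pool.STK Pool.KA Pool.KSAT Pool.K2S Pool.PC
open Pool.XBG (cel xx crn xx_nonneg xx_lt cel_crs)

/-! ### Nested records -/

section Nest

theorem nest_le {Ω ζ : Type} {Z : ℕ → Ω → ζ} (hZ : ∀ l ω ω', Z (l + 1) ω = Z (l + 1) ω' → Z l ω = Z l ω')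
    {i j : ℕ} (hij : i ≤ j) {ω ω' : Ω} (h : Z j ω = Z j ω') : Z i ω = Z i ω' := by
  obtain ⟨m, rfl⟩ := Nat.exists_eq_add_of_le hij
  induction m with
  | zero => exact h
  | succ m ih => exact ih (Nat.le_add_right _ _) (hZ (i + m) ω ω' h)

variable {Ω ζ T : Type} [Fintype Ω] {p : Ω → ℝ}

/-- The records of the blocks, from below. -/
theorem chain_up (h0 : ∀ ω, 0 ≤ p ω) {Z : ℕ → Ω → ζ}
    (hZ : ∀ l ω ω', Z (l + 1) ω = Z (l + 1) ω' → Z l ω = Z l ω') (V : Ω → T) (s m : ℕ) :
    ∑ l ∈ range m, CH p (Z (s + l + 1)) (fun ω => (Z (s + l) ω, V ω)) ≤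
      CH p (Z (s + m)) (fun ω => (Z s ω, V ω)) := by
  induction m with
  | zero =>
    rw [Finset.sum_range_zero]
    exact CH_nonneg h0 _ _
  | succ m ih =>
    rw [Finset.sum_range_succ]
    have h1 := CH_chain h0 (Z (s + m + 1)) (Z (s + m)) (fun ω => (Z s ω, V ω))
    have h2 : CH p (fun ω => (Z (s + m + 1) ω, Z (s + m) ω)) (fun ω => (Z s ω, V ω)) ≤
        CH p (Z (s + m + 1)) (fun ω => (Z s ω, V ω)) := by
      refine CH_mono_left h0 fun ω ω' _ _ hh => ?_
      simp only [Prod.mk.injEq] at hh ⊢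
      exact ⟨hh.1, hZ (s + m) ω ω' hh.1⟩
    have h3 : CH p (Z (s + m + 1)) (fun ω => (Z (s + m) ω, V ω)) ≤
        CH p (Z (s + m + 1)) (fun ω => (Z (s + m) ω, (Z s ω, V ω))) := by
      refine CH_mono_cond h0 fun ω ω' _ _ hh => ?_
      simp only [Prod.mk.injEq] at hh ⊢
      exact ⟨hh.1, nest_le hZ (Nat.le_add_right s m) hh.1, hh.2⟩
    have e : s + (m + 1) = s + m + 1 := rfl
    rw [e]
    linarith

/-- The records of the blocks, from above. -/
theorem chain_dn (h0 : ∀ ω, 0 ≤ p ω) {Z : ℕ → Ω → ζ} (V : Ω → T) (m : ℕ) :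
    CH p (Z m) V ≤ CH p (Z 0) V +
      ∑ l ∈ range m, CH p (Z (l + 1)) (fun ω => (Z l ω, V ω)) := by
  induction m with
  | zero =>
    rw [Finset.sum_range_zero, add_zero]
  | succ m ih =>
    rw [Finset.sum_range_succ]
    have h1 := CH_le_add h0 (Z (m + 1)) (Z m) V
    linarith

end Nest

/-- The number of monomials of degree at most `r` does not depend on `K`. -/
theorem card_dg (k K r : ℕ) :
    ((Finset.univ.filter fun α : Ix k K => dg α ≤ r).card : ℝ) ≤ (r + 1) ^ k := by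
  classical
  have h1 : (Finset.univ.filter fun α : Ix k K => dg α ≤ r).card ≤
      (Finset.univ : Finset (Fin k → Fin (r + 1))).card := by
    refine Finset.card_le_card_of_injOn
      (fun α i => (⟨min (α i : ℕ) r, by omega⟩ : Fin (r + 1))) (fun _ _ => Finset.mem_univ _) ?_
    intro α hα β hβ h
    simp only [Finset.coe_filter, Finset.mem_univ, true_and, Set.mem_ofPred_eq] at hα hβ
    funext i
    have h2 := congrArg Fin.val (congrFun h i)
    simp only [] at h2
    have b : ∀ γ : Ix k K, dg γ ≤ r → (γ i : ℕ) ≤ r := by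
      intro γ hγ
      refine le_trans ?_ hγ
      unfold dg
      exact Finset.single_le_sum (f := fun i => (γ i : ℕ)) (fun _ _ => Nat.zero_le _)
        (Finset.mem_univ i)
    have h3 := b α hα
    have h4 := b β hβ
    refine Fin.ext ?_
    omega
  refine (Nat.cast_le.mpr h1).trans (le_of_eq ?_)
  rw [Finset.card_univ, Fintype.card_fun, Fintype.card_fin, Fintype.card_fin]
  push_cast
  ring

variable {Ω α β τ υ : Type} [Fintype Ω] {p : Ω → ℝ} {k K r X S h : ℕ} {ab : ℕ → ℕ}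
  {A : Ω → α} {B : Ω → β} {W : Ω → τ} {Dg : Ω → υ} {y : Ω → Fin k → ℝ} {N : Ω → ℝ}
  {a b : Ω → Ar k K} {θ Lf : ℝ}

/-- The entropy of the rounded jets. -/
theorem Dat2.gt_le (h' : Dat2 p k K r X S h ab A B W Dg y N a b θ Lf) (hp : IsLaw p) {T : Type}
    (V : Ω → T) : CH p (gt r X ab y a b) V ≤ (r + 1) ^ k * (h + r * X + 2) := by
  have hl2 : 0 ≤ Real.log 2 := Real.log_nonneg (by norm_num)
  have hl2' : Real.log 2 ≤ 1 := by
    have := Real.log_two_lt_d9
    linarith
  have hl7 : Real.log 7 ≤ 2 := by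
    have h1 : Real.log 7 ≤ Real.log (Real.exp 2) := by
      refine Real.log_le_log (by norm_num) ?_
      have h2 := Real.exp_one_gt_d9
      have h3 : Real.exp 2 = Real.exp 1 * Real.exp 1 := by
        rw [← Real.exp_add]
        norm_num
      rw [h3]
      nlinarith
    rwa [Real.log_exp] at h1
  have g : ∀ α : Ix k K, CH p (fun ω => gt r X ab y a b ω α) V ≤
      if dg α ≤ r then ((h : ℝ) + r * X + 2) else 0 := by
    intro α
    split_ifs with hα
    · refine (CH_bd1 hp _ V (2 * 2 ^ (h + r * X) + 1) fun ω ω' hω hω' _ => ?_).trans ?_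
      · unfold gt
        rw [if_pos hα, if_pos hα]
        push_cast
        have f1 := fl_sub_near ((2 : ℝ) ^ (r * X) * (2 ^ (ab (dg α)) * sh (y ω) (dif a b ω) α))
          ((2 : ℝ) ^ (r * X) * (2 ^ (ab (dg α)) * sh (y ω') (dif a b ω') α))
        have bd : ∀ ω, 0 < p ω → |(2 : ℝ) ^ (r * X) * (2 ^ (ab (dg α)) *
            sh (y ω) (dif a b ω) α)| ≤ 2 ^ (h + r * X) := by
          intro ω hω
          have h1 := h'.up ω hω α
          rw [abs_mul, abs_mul, abs_of_nonneg (by positivity), abs_of_nonneg (by positivity)]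
          have h2 := mul_le_mul_of_nonneg_left h1
            (show (0 : ℝ) ≤ 2 ^ (r * X) * 2 ^ (ab (dg α)) by positivity)
          rw [← mul_assoc]
          refine h2.trans (le_of_eq ?_)
          rw [pow_add]
          field_simp
        have b1 := bd ω hω
        have b2 := bd ω' hω'
        rw [abs_le] at f1 b1 b2 ⊢
        constructor <;> linarith
      · have h1 : 2 * (2 * (2 : ℝ) ^ (h + r * X) + 1) + 1 ≤ 2 ^ (h + r * X) * 7 := by
          have : (1 : ℝ) ≤ 2 ^ (h + r * X) := one_le_pow₀ (by norm_num)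
          linarith
        refine (Real.log_le_log (by positivity) h1).trans ?_
        rw [Real.log_mul (by positivity) (by norm_num), Real.log_pow]
        push_cast
        have h2 : ((h : ℝ) + r * X) * Real.log 2 ≤ (h + r * X) * 1 :=
          mul_le_mul_of_nonneg_left hl2' (by positivity)
        linarith
    · refine le_of_eq (CH_eq_zero hp.nonneg fun ω ω' _ _ _ => ?_)
      unfold gt
      rw [if_neg hα, if_neg hα]
  refine (CH_pi hp.nonneg _ V).trans ((Finset.sum_le_sum fun α _ => g α).trans ?_)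
  rw [← Finset.sum_filter, Finset.sum_const, nsmul_eq_mul]
  exact mul_le_mul_of_nonneg_right (card_dg k K r) (by positivity)

/-- **Statement R for one equation: the rows of the fibre coordinate.** -/
theorem r1d (k r : ℕ) : ∃ C1 : ℝ, 0 ≤ C1 ∧ ∀ K : ℕ, ∃ C2 : ℝ, 0 ≤ C2 ∧
    ∀ {Ω α β τ υ : Type} [Fintype Ω] {p : Ω → ℝ}, IsLaw p → ∀ {X S h : ℕ} {ab : ℕ → ℕ}
    {A : Ω → α} {B : Ω → β} {W : Ω → τ} {Dg : Ω → υ} {y : Ω → Fin (k + 1) → ℝ} {N : Ω → ℝ}
    {a b : Ω → Ar (k + 1) K} {θ Lf : ℝ}, Dat2 p (k + 1) K r X S h ab A B W Dg y N a b θ Lf →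
    0 ≤ θ →
    ((gp X ab ((k + 1) * K) S : ℝ) - gp X ab ((k + 1) * K) 0) * Real.log 2 ≤
      CH p (fun ω => ⌊(2 : ℝ) ^ (gp X ab ((k + 1) * K) S) * N ω⌋)
        (fun ω => (⌊(2 : ℝ) ^ (gp X ab ((k + 1) * K) 0) * N ω⌋, (Dg ω, W ω))) +
      C1 * ((S + 1) * θ + X) + C2 * ((S + 1) * (1 + h)) := by
  classical
  have hb := fun n => blk k n
  choose c1 hc1 hb1 using hb
  choose c2 hc2 hb2 using hb1
  obtain ⟨m1, hm1⟩ : ∃ m1, m1 = ∑ n ∈ range r, c1 n := ⟨_, rfl⟩
  have hm10 : 0 ≤ m1 := by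
    rw [hm1]
    exact Finset.sum_nonneg fun n _ => hc1 n
  have hle1 : ∀ n < r, c1 n ≤ m1 := fun n hn => by
    rw [hm1]
    exact Finset.single_le_sum (f := c1) (fun i _ => hc1 i) (Finset.mem_range.2 hn)
  obtain ⟨cr, hcr⟩ : ∃ cr : ℝ, cr = 2 * r ^ 3 + 2 * r ^ 2 + 2 * r + 1 := ⟨_, rfl⟩
  have hcr0 : 0 ≤ cr := by
    rw [hcr]
    positivity
  refine ⟨m1 * (r + 1) + m1 * r * (r + 1) ^ (k + 1) * r + cr, by positivity, fun K => ?_⟩
  obtain ⟨m2, hm2⟩ : ∃ m2, m2 = ∑ n ∈ range r, c2 n K := ⟨_, rfl⟩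
  have hm20 : 0 ≤ m2 := by
    rw [hm2]
    exact Finset.sum_nonneg fun n _ => hc2 n K
  have hle2 : ∀ n < r, c2 n K ≤ m2 := fun n hn => by
    rw [hm2]
    exact Finset.single_le_sum (f := fun n => c2 n K) (fun i _ => hc2 i K)
      (Finset.mem_range.2 hn)
  refine ⟨m1 * r * (r + 1) ^ (k + 1) * 2 + m1 + m2 + (r + 1), by positivity, ?_⟩
  intro Ω α β τ υ _ p hp X S h ab A B W Dg y N a b θ Lf h' hθ
  have h0 := hp.nonneg
  have hl2 : 0 ≤ Real.log 2 := Real.log_nonneg (by norm_num)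
  have hl2' : Real.log 2 ≤ 1 := by
    have := Real.log_two_lt_d9
    linarith
  have hS0 : (0 : ℝ) ≤ S := Nat.cast_nonneg S
  have hh0 : (0 : ℝ) ≤ h := Nat.cast_nonneg h
  have hX0 : (0 : ℝ) ≤ X := Nat.cast_nonneg X
  have hr0 : (0 : ℝ) ≤ r := Nat.cast_nonneg r
  have hCH0 := CH_nonneg h0 (fun ω => ⌊(2 : ℝ) ^ (gp X ab ((k + 1) * K) S) * N ω⌋)
    (fun ω => (⌊(2 : ℝ) ^ (gp X ab ((k + 1) * K) 0) * N ω⌋, (Dg ω, W ω)))
  by_cases hXh : h + 1 ≤ X
  swap
  · -- short blocks
    have rough : ∀ m, m ≤ S → gp X ab ((k + 1) * K) m ≤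
        gp X ab ((k + 1) * K) 0 + m * ((r + 1) * X) := by
      intro m
      induction m with
      | zero =>
        intro _
        simp
      | succ m ih =>
        intro hm
        have g1 := ih (by omega)
        have e1 : (m + 1) * ((r + 1) * X) = m * ((r + 1) * X) + (r + 1) * X := by ring
        rw [e1]
        rcases Nat.eq_zero_or_pos m with hm0 | hm0
        · rw [hm0]
          have := h'.slope0
          simp only [zero_add, zero_mul]
          exact this
        · have g2 := h'.slope m hm0 (by omega)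
          have g3 : r * X ≤ (r + 1) * X := Nat.mul_le_mul_right X (by omega)
          omega
    have g1 := rough S le_rfl
    have g2 : (gp X ab ((k + 1) * K) S : ℝ) - gp X ab ((k + 1) * K) 0 ≤
        S * ((r + 1) * X) := by
      have : (gp X ab ((k + 1) * K) S : ℝ) ≤
        ((gp X ab ((k + 1) * K) 0 + S * ((r + 1) * X) : ℕ) : ℝ) := by exact_mod_cast g1
      push_cast at this
      linarith
    have g3 : (X : ℝ) ≤ h := by
      have : X ≤ h := by omega
      exact_mod_cast this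
    have g4 : (S : ℝ) * ((r + 1) * X) ≤ (r + 1) * ((S + 1) * (1 + h)) := by
      have e1 : (r + 1 : ℝ) * ((S + 1) * (1 + h)) = (r + 1) * (S * h) +
        (r + 1) * (S + 1 + h) := by ring
      have e2 : (S : ℝ) * ((r + 1) * X) = (r + 1) * (S * X) := by ring
      rw [e1, e2]
      have := mul_le_mul_of_nonneg_left (mul_le_mul_of_nonneg_left g3 hS0)
        (show (0 : ℝ) ≤ r + 1 by positivity)
      have h3 : (0 : ℝ) ≤ (r + 1) * (S + 1 + h) := by positivity
      linarith
    have g5 : ((gp X ab ((k + 1) * K) S : ℝ) - gp X ab ((k + 1) * K) 0) * Real.log 2 ≤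
        S * ((r + 1) * X) := by
      have h1 : ((gp X ab ((k + 1) * K) S : ℝ) - gp X ab ((k + 1) * K) 0) * Real.log 2 ≤
          S * ((r + 1) * X) * Real.log 2 := mul_le_mul_of_nonneg_right g2 hl2
      have h2 : (S : ℝ) * ((r + 1) * X) * Real.log 2 ≤ S * ((r + 1) * X) * 1 :=
        mul_le_mul_of_nonneg_left hl2' (by positivity)
      linarith
    have g6 : 0 ≤ (m1 * (r + 1) + m1 * r * (r + 1) ^ (k + 1) * r + cr) *
        ((S + 1) * θ + X) := by positivity
    have g7 : 0 ≤ (m1 * r * (r + 1) ^ (k + 1) * 2 + m1 + m2) * ((S + 1) * (1 + h)) := by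
      positivity
    have e3 : (m1 * r * (r + 1) ^ (k + 1) * 2 + m1 + m2 + (r + 1)) * (((S : ℝ) + 1) * (1 + h)) =
      (m1 * r * (r + 1) ^ (k + 1) * 2 + m1 + m2) * ((S + 1) * (1 + h)) +
        (r + 1) * ((S + 1) * (1 + h)) := by ring
    rw [e3]
    linarith
  -- the world with the jets
  obtain ⟨U, hU⟩ : ∃ U : Ω → α × (τ × (Ix (k + 1) K → ℤ)), U = fun ω =>
    (A ω, (W ω, gt r X ab y a b ω)) := ⟨_, rfl⟩
  obtain ⟨H, hH⟩ : ∃ H : ℝ, H = (r + 1) ^ (k + 1) * (h + r * X + 2) := ⟨_, rfl⟩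
  have hH0 : 0 ≤ H := by
    rw [hH]
    positivity
  have celn : ∀ l ω ω', cel X y (l + 1) ω = cel X y (l + 1) ω' → cel X y l ω = cel X y l ω' :=
    fun l ω ω' hh => cel_crs (Nat.le_succ l) hh
  -- the deficits
  obtain ⟨d, hd⟩ : ∃ d : ℕ → ℝ, d = fun l => ((k + 1 : ℕ) : ℝ) * (X * Real.log 2) -
    CH p (cel X y (l + 1)) (fun ω => (cel X y l ω, U ω)) := ⟨_, rfl⟩
  have hd0 : ∀ l, 0 ≤ d l := by
    intro l
    rw [hd]
    simp only []
    have g1 : CH p (cel X y (l + 1)) (fun ω => (cel X y l ω, U ω)) ≤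
        CH p (crl X y l 1) (fun ω => (cel X y l ω, U ω)) := by
      refine CH_mono_left h0 fun ω ω' _ _ hh => ?_
      simp only [Prod.mk.injEq] at hh
      funext i
      have g2 := congrFun hh.1 i
      unfold crl at g2
      rw [hh.2.1] at g2
      linarith
    have g2 := CH_box hp (crl_nonneg X y l 1) (crl_lt X y l 1) (fun ω => (cel X y l ω, U ω))
    rw [one_mul] at g2
    linarith
  have hdsum : ∑ l ∈ range S, d l ≤ θ + H := by
    have g1 : CH p (cel X y S) U ≤ CH p (cel X y 0) U +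
        ∑ l ∈ range S, CH p (cel X y (l + 1)) (fun ω => (cel X y l ω, U ω)) :=
      chain_dn h0 (Z := fun l => cel X y l) U S
    have g2 := CH_box hp (cel_nonneg X h'.y0 0) (cel_lt X h'.y1 0) U
    have g3 := CH_le_add h0 (cel X y S) (gt r X ab y a b) (fun ω => (A ω, W ω))
    have g4 := h'.gt_le hp (fun ω => (A ω, W ω))
    have g5 : CH p (cel X y S) (fun ω => (gt r X ab y a b ω, (A ω, W ω))) ≤
        CH p (cel X y S) U := by
      refine CH_mono_cond h0 fun ω ω' _ _ hh => ?_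
      rw [hU]
      simp only [Prod.mk.injEq] at hh ⊢
      exact ⟨hh.2.1, hh.2.2, hh.1⟩
    have g6 := h'.hA
    rw [hd, Finset.sum_sub_distrib, Finset.sum_const, Finset.card_range, nsmul_eq_mul]
    rw [← hH] at g4
    push_cast at g2 g6 ⊢
    rw [zero_mul, zero_mul, mul_zero] at g2
    linarith
  -- the deficit of a block
  have hfull : ∀ s n, Gd X ab ((k + 1) * K) r S s (n + 1) →
      ((k + 1 : ℕ) : ℝ) * ((((n + 1) * X : ℕ) : ℝ) * Real.log 2) -
        ∑ i ∈ range r, d (s + i) ≤ CH p (crl X y s (n + 1))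
        (fun ω => (A ω, (W ω, (cel X y s ω, gf r X ab y a b (n + 1) ω)))) := by
    intro s n hg
    have g1 : CH p (cel X y (s + (n + 1))) (fun ω => (cel X y s ω, U ω)) ≤
        CH p (crl X y s (n + 1))
        (fun ω => (A ω, (W ω, (cel X y s ω, gf r X ab y a b (n + 1) ω)))) := by
      have g2 : CH p (cel X y (s + (n + 1))) (fun ω => (cel X y s ω, U ω)) ≤
          CH p (crl X y s (n + 1)) (fun ω => (cel X y s ω, U ω)) := by
        refine CH_mono_left h0 fun ω ω' _ _ hh => ?_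
        simp only [Prod.mk.injEq] at hh
        funext i
        have g2 := congrFun hh.1 i
        unfold crl at g2
        rw [hh.2.1] at g2
        linarith
      refine g2.trans (CH_mono_cond h0 fun ω ω' _ _ hh => ?_)
      rw [hU] at hh
      simp only [Prod.mk.injEq] at hh ⊢
      refine ⟨hh.2.1, hh.2.2.1, hh.1, ?_⟩
      funext α
      unfold gf
      rw [hh.2.2.2]
    have g2 := chain_up h0 (Z := fun l => cel X y l) celn U s (n + 1)
    have g3 : ∑ l ∈ range (n + 1), CH p (cel X y (s + l + 1)) (fun ω => (cel X y (s + l) ω, U ω)) =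
        (n + 1 : ℕ) * (((k + 1 : ℕ) : ℝ) * (X * Real.log 2)) -
          ∑ i ∈ range (n + 1), d (s + i) := by
      rw [hd, Finset.sum_sub_distrib, Finset.sum_const, Finset.card_range, nsmul_eq_mul]
      ring
    have g4 : ∑ i ∈ range (n + 1), d (s + i) ≤ ∑ i ∈ range r, d (s + i) :=
      Finset.sum_le_sum_of_subset_of_nonneg
        (Finset.range_subset_range.2 hg.hr) fun i _ _ => hd0 _
    have g5 : ((k + 1 : ℕ) : ℝ) * ((((n + 1) * X : ℕ) : ℝ) * Real.log 2) =
        (n + 1 : ℕ) * (((k + 1 : ℕ) : ℝ) * (X * Real.log 2)) := by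
      push_cast
      ring
    rw [g5]
    linarith only [g1, g2, g3, g4]
  -- one block
  obtain ⟨Nz, hNz⟩ : ∃ Nz : ℕ → Ω → ℤ, Nz = fun s ω =>
    ⌊(2 : ℝ) ^ (gp X ab ((k + 1) * K) s) * N ω⌋ := ⟨_, rfl⟩
  obtain ⟨d', hd'⟩ : ∃ d' : ℕ → ℝ, d' = fun l => if l < S then d l else 0 := ⟨_, rfl⟩
  have hd'0 : ∀ l, 0 ≤ d' l := by
    intro l
    rw [hd']
    simp only []
    split_ifs
    · exact hd0 l
    · exact le_rfl
  have hblk : ∀ s ∈ range S, (od2 X ab ((k + 1) * K) r S s : ℝ) * X * Real.log 2 ≤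
      CH p (Nz (s + 1)) (fun ω => (Nz s ω, (Dg ω, W ω))) +
        (m1 * (∑ i ∈ range r, d' (s + i) + θ + h) + m2 * (h + 1)) := by
    intro s hs
    rw [Finset.mem_range] at hs
    have hsum0 : 0 ≤ ∑ i ∈ range r, d' (s + i) := Finset.sum_nonneg fun i _ => hd'0 _
    rcases Nat.eq_zero_or_pos (od2 X ab ((k + 1) * K) r S s) with ho | ho
    · rw [ho, Nat.cast_zero, zero_mul, zero_mul]
      have g1 := CH_nonneg h0 (Nz (s + 1)) (fun ω => (Nz s ω, (Dg ω, W ω)))
      have g2 : 0 ≤ m1 * (∑ i ∈ range r, d' (s + i) + θ + h) + m2 * (h + 1) := by positivity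
      linarith
    · obtain ⟨n, hn⟩ := Nat.exists_eq_add_of_le' ho
      have hg := od2_gd h'.hX h'.slope hn (by omega)
      have hnr : n < r := by
        have := hg.hr
        omega
      have hsr := hg.hS
      have e1 : ∑ i ∈ range r, d (s + i) = ∑ i ∈ range r, d' (s + i) := by
        refine Finset.sum_congr rfl fun i hi => ?_
        rw [Finset.mem_range] at hi
        rw [hd']
        simp only []
        rw [if_pos (by omega)]
      have g1 := hb2 n K hp h' hθ hg hXh (δ := ∑ i ∈ range r, d (s + i))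
        (Finset.sum_nonneg fun i _ => hd0 _) (hfull s n hg)
      rw [e1] at g1
      have g2 : c1 n * (∑ i ∈ range r, d' (s + i) + θ + h) ≤
          m1 * (∑ i ∈ range r, d' (s + i) + θ + h) :=
        mul_le_mul_of_nonneg_right (hle1 n hnr) (by positivity)
      have g3 : c2 n K * ((h : ℝ) + 1) ≤ m2 * (h + 1) :=
        mul_le_mul_of_nonneg_right (hle2 n hnr) (by positivity)
      rw [hn, hNz]
      push_cast at g1 ⊢
      linarith only [g1, g2, g3]
  have hsum := Finset.sum_le_sum hblk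
  rw [Finset.sum_add_distrib, Finset.sum_add_distrib, ← Finset.mul_sum, Finset.sum_const,
    Finset.card_range, nsmul_eq_mul] at hsum
  -- the rows
  have hNn : ∀ l ω ω', Nz (l + 1) ω = Nz (l + 1) ω' → Nz l ω = Nz l ω' := by
    intro l ω ω' hh
    rw [hNz] at hh ⊢
    simp only [] at hh ⊢
    have h1 : fl (gp X ab ((k + 1) * K) (l + 1)) (fun _ : Fin 1 => N ω) =
        fl (gp X ab ((k + 1) * K) (l + 1)) (fun _ : Fin 1 => N ω') := by
      funext q
      exact hh
    exact congrFun (fl_crs (gp_mono X ab ((k + 1) * K) (Nat.le_succ l)) h1) 0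
  have hrows := chain_up h0 (Z := Nz) hNn (fun ω => (Dg ω, W ω)) 0 S
  simp only [zero_add] at hrows
  -- the deficits
  have hdd : ∑ s ∈ range S, (∑ i ∈ range r, d' (s + i) + θ + h) ≤ r * (θ + H) + S * (θ + h) := by
    have g1 : ∀ i, ∑ s ∈ range S, d' (s + i) ≤ θ + H := by
      intro i
      have g2 : ∑ s ∈ range S, d' (s + i) = ∑ l ∈ Ico i (S + i), d' l := by
        rw [Finset.sum_Ico_eq_sum_range, Nat.add_sub_cancel]
        exact Finset.sum_congr rfl fun s _ => by rw [add_comm]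
      have g3 : ∑ l ∈ Ico i (S + i), d' l ≤ ∑ l ∈ range (S + i), d' l :=
        Finset.sum_le_sum_of_subset_of_nonneg (fun l hl => by
          rw [Finset.mem_Ico] at hl
          exact Finset.mem_range.2 hl.2) fun l _ _ => hd'0 l
      have g4 : ∑ l ∈ range (S + i), d' l = ∑ l ∈ range S, d l := by
        have g5 : ∑ l ∈ range S, d l = ∑ l ∈ range S, d' l := by
          refine Finset.sum_congr rfl fun l hl => ?_
          rw [hd']
          simp only []
          rw [if_pos (Finset.mem_range.1 hl)]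
        rw [g5]
        symm
        refine Finset.sum_subset (Finset.range_subset_range.2 (by omega)) fun l _ hl => ?_
        rw [hd']
        simp only []
        rw [if_neg (fun hc => hl (Finset.mem_range.2 hc))]
      linarith
    rw [Finset.sum_add_distrib, Finset.sum_add_distrib, Finset.sum_comm, Finset.sum_const,
      Finset.sum_const, Finset.card_range, nsmul_eq_mul, nsmul_eq_mul]
    have g2 : ∑ i ∈ range r, ∑ s ∈ range S, d' (s + i) ≤ r * (θ + H) := by
      refine (Finset.sum_le_sum fun i _ => g1 i).trans (le_of_eq ?_)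
      rw [Finset.sum_const, Finset.card_range, nsmul_eq_mul]
    linarith
  -- the profile
  have hprof := od2_sum h'.hX ab ((k + 1) * K) r S h'.slope h'.slope0
  have hprof' : (gp X ab ((k + 1) * K) S : ℝ) ≤ gp X ab ((k + 1) * K) 0 +
      (∑ s ∈ range S, (od2 X ab ((k + 1) * K) r S s : ℝ)) * X + cr * X := by
    rw [hcr]
    exact_mod_cast hprof
  have f1 : ((gp X ab ((k + 1) * K) S : ℝ) - gp X ab ((k + 1) * K) 0) * Real.log 2 ≤
      (∑ s ∈ range S, (od2 X ab ((k + 1) * K) r S s : ℝ) * X * Real.log 2) + cr * X := by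
    have g1 := mul_le_mul_of_nonneg_right (show (gp X ab ((k + 1) * K) S : ℝ) -
      gp X ab ((k + 1) * K) 0 ≤ (∑ s ∈ range S, (od2 X ab ((k + 1) * K) r S s : ℝ)) * X +
        cr * X by linarith) hl2
    have g2 : cr * X * Real.log 2 ≤ cr * X * 1 := mul_le_mul_of_nonneg_left hl2' (by positivity)
    rw [← Finset.sum_mul, ← Finset.sum_mul]
    linarith
  have f2 : m1 * ∑ s ∈ range S, (∑ i ∈ range r, d' (s + i) + θ + h) ≤
      m1 * (r * (θ + H) + S * (θ + h)) := mul_le_mul_of_nonneg_left hdd hm10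
  have f3 : m1 * (r * (θ + H) + S * (θ + h)) ≤
      m1 * (r + 1) * ((S + 1) * θ) + m1 * r * (r + 1) ^ (k + 1) * r * X +
        (m1 * r * (r + 1) ^ (k + 1) * 2 + m1) * ((S + 1) * (1 + h)) := by
    have e1 : m1 * (r * (θ + H) + S * (θ + h)) = m1 * ((r + S) * θ) + m1 * r * H +
        m1 * (S * h) := by ring
    have g1 : m1 * ((r + S) * θ) ≤ m1 * (r + 1) * ((S + 1) * θ) := by
      rw [mul_assoc]
      refine mul_le_mul_of_nonneg_left ?_ hm10
      rw [← mul_assoc]
      refine mul_le_mul_of_nonneg_right ?_ hθ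
      have e : ((r : ℝ) + 1) * (S + 1) = r + S + (r * S + 1) := by ring
      have := mul_nonneg hr0 hS0
      rw [e]
      linarith only [this]
    have g2 : m1 * r * H = m1 * r * (r + 1) ^ (k + 1) * r * X +
        m1 * r * (r + 1) ^ (k + 1) * (h + 2) := by
      rw [hH]
      ring
    have g3 : m1 * r * (r + 1) ^ (k + 1) * ((h : ℝ) + 2) ≤
        m1 * r * (r + 1) ^ (k + 1) * 2 * ((S + 1) * (1 + h)) := by
      rw [mul_assoc (m1 * r * (r + 1) ^ (k + 1)) 2]
      refine mul_le_mul_of_nonneg_left ?_ (by positivity)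
      have e : 2 * (((S : ℝ) + 1) * (1 + h)) = (h + 2) + (2 * (S * h) + 2 * S + h) := by ring
      have := mul_nonneg hS0 hh0
      rw [e]
      linarith only [this, hS0, hh0]
    have g4 : m1 * (S * (h : ℝ)) ≤ m1 * ((S + 1) * (1 + h)) := by
      refine mul_le_mul_of_nonneg_left ?_ hm10
      have e : ((S : ℝ) + 1) * (1 + h) = S * h + (S + h + 1) := by ring
      rw [e]
      linarith only [hS0, hh0]
    rw [e1, g2]
    have e2 : (m1 * r * (r + 1) ^ (k + 1) * 2 + m1) * (((S : ℝ) + 1) * (1 + h)) =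
      m1 * r * (r + 1) ^ (k + 1) * 2 * ((S + 1) * (1 + h)) + m1 * ((S + 1) * (1 + h)) := by ring
    rw [e2]
    linarith only [g1, g3, g4]
  have f4 : (S : ℝ) * (m2 * (h + 1)) ≤ m2 * ((S + 1) * (1 + h)) := by
    have e1 : (S : ℝ) * (m2 * (h + 1)) = m2 * (S * (1 + h)) := by ring
    rw [e1]
    refine mul_le_mul_of_nonneg_left ?_ hm20
    refine mul_le_mul_of_nonneg_right ?_ (by positivity)
    linarith only []
  have f5 : 0 ≤ m1 * r * (r + 1) ^ (k + 1) * r * ((S + 1) * θ) + cr * ((S + 1) * θ) +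
      m1 * (r + 1) * X := by positivity
  have f6 : 0 ≤ ((r : ℝ) + 1) * ((S + 1) * (1 + h)) := by positivity
  have e3 : (m1 * (r + 1) + m1 * r * (r + 1) ^ (k + 1) * r + cr) * (((S : ℝ) + 1) * θ + X) =
      m1 * (r + 1) * ((S + 1) * θ) + m1 * r * (r + 1) ^ (k + 1) * r * X + cr * X +
      (m1 * r * (r + 1) ^ (k + 1) * r * ((S + 1) * θ) + cr * ((S + 1) * θ) +
        m1 * (r + 1) * X) := by ring
  have e4 : (m1 * r * (r + 1) ^ (k + 1) * 2 + m1 + m2 + (r + 1)) * (((S : ℝ) + 1) * (1 + h)) =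
      (m1 * r * (r + 1) ^ (k + 1) * 2 + m1) * ((S + 1) * (1 + h)) +
      m2 * ((S + 1) * (1 + h)) + (r + 1) * ((S + 1) * (1 + h)) := by ring
  rw [e3, e4]
  have e5 : CH p (Nz S) (fun ω => (Nz 0 ω, (Dg ω, W ω))) =
      CH p (fun ω => ⌊(2 : ℝ) ^ (gp X ab ((k + 1) * K) S) * N ω⌋)
        (fun ω => (⌊(2 : ℝ) ^ (gp X ab ((k + 1) * K) 0) * N ω⌋, (Dg ω, W ω))) := by
    rw [hNz]
  rw [e5] at hrows
  linarith only [hrows, f1, hsum, f2, f3, f4, f5, f6]

end Pool.R1P
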