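import Pool.Agent.H3.JM.R1n
import Pool.Agent.H81.JM.Arr

/-!
# Statement R for one equation: the theorem in the notation of `Pool.JMN`
-/

set_option autoImplicit false

namespace Pool.R1P

open Finset Real
open Pool.Agent.H49.Ent Pool.Agent.H32.Dense Pool.STK Pool.KA Pool.KSAT Pool.K2S Pool.PC
open Pool.XBG (cel)

theorem shf_eq {k K : ℕ} (z : Fin k → ℝ) (q : (Fin k → Fin (K + 1)) → ℝ)
    (a : Fin k → Fin (K + 1)) : Pool.JMN.shf z q a = sh z q a := by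
  unfold Pool.JMN.shf sh se
  exact Finset.sum_congr rfl fun b _ => mul_comm _ _

theorem tdg_eq {k K : ℕ} (a : Fin k → Fin (K + 1)) : Pool.JMN.tdg a = dg a := rfl

theorem evj_eq {k K : ℕ} (q : (Fin k → Fin (K + 1)) → ℝ) (x : Fin k → ℝ) :
    Pool.JMN.ev q x = ev q x := rfl

/-- **Statement R for one equation: the rows of the fibre coordinate.** The position `y` is full
given the first leaf, all its digits `D` are full given the second leaf; then the rows of `N`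
between the heights of the profile are full given `D`. -/
theorem r1n (k r : ℕ) (hk : 1 ≤ k) : ∃ C1 : ℝ, 0 ≤ C1 ∧ ∀ K : ℕ, ∃ C2 : ℝ, 0 ≤ C2 ∧
    ∀ {Ω α β τ υ : Type} [Fintype Ω] {p : Ω → ℝ}, IsLaw p → ∀ (X S h : ℕ) (ab : ℕ → ℕ)
    (A : Ω → α) (B : Ω → β) (W : Ω → τ) (D : Ω → υ) (y : Ω → Fin k → ℝ) (N : Ω → ℝ)
    (a b : Ω → (Fin k → Fin (K + 1)) → ℝ) (θ Lf : ℝ), 0 ≤ θ →
    (∀ ω i, 0 ≤ y ω i) → (∀ ω i, y ω i < 1) →
    Det p (fun ω => (A ω, W ω)) a → Det p (fun ω => (B ω, W ω)) b →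
    (∀ ω, 0 < p ω → ∀ al, |Pool.JMN.shf (y ω) (fun i => a ω i - b ω i) al| ≤
      2 ^ h / 2 ^ (ab (Pool.JMN.tdg al))) →
    (∀ s, 1 ≤ s → s < S → gp X ab (k * K) (s + 1) ≤ gp X ab (k * K) s + r * X) →
    gp X ab (k * K) 1 ≤ gp X ab (k * K) 0 + (r + 1) * X →
    (∀ s ρ, 1 ≤ ρ → ρ ≤ r → r + 1 ≤ s → s + r ≤ S →
      gp X ab (k * K) (s - r) = ρ * ((s - r) * X) + ab ρ →
      gp X ab (k * K) (s + r) = ρ * ((s + r) * X) + ab ρ → ∀ ω, 0 < p ω → ∃ al,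
      Pool.JMN.tdg al = ρ ∧
        1 / 2 ^ (ab ρ + h) ≤ |Pool.JMN.shf (y ω) (fun i => a ω i - b ω i) al|) →
    (∀ ω, 0 < p ω → |N ω - Pool.JMN.ev (a ω) (y ω)| ≤ 2 ^ h / 2 ^ (gp X ab (k * K) S)) →
    (∀ ω ω' ω'', 0 < p ω → 0 < p ω' → 0 < p ω'' → D ω = D ω' → W ω = W ω' → W ω'' = W ω →
      |Pool.JMN.ev (a ω'') (y ω) - Pool.JMN.ev (a ω'') (y ω')| ≤
        2 ^ h / 2 ^ (gp X ab (k * K) S)) →
    Det p (fun ω => (D ω, W ω)) (cel X y S) →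
    (∀ i < S, CH p D (fun ω => (W ω, cel X y i ω)) ≤ Lf - k * (i * (X * Real.log 2)) + h) →
    Lf - θ ≤ CH p D (fun ω => (B ω, W ω)) →
    k * (S * (X * Real.log 2)) - θ ≤ CH p (cel X y S) (fun ω => (A ω, W ω)) →
    ((gp X ab (k * K) S : ℝ) - gp X ab (k * K) 0) * Real.log 2 ≤
      CH p (fun ω => ⌊(2 : ℝ) ^ (gp X ab (k * K) S) * N ω⌋)
        (fun ω => (⌊(2 : ℝ) ^ (gp X ab (k * K) 0) * N ω⌋, (D ω, W ω))) +
      C1 * ((S + 1) * θ + X) + C2 * ((S + 1) * (1 + h)) := by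
  obtain ⟨k, rfl⟩ : ∃ k', k = k' + 1 := ⟨k - 1, by omega⟩
  obtain ⟨C1, hC1, h1⟩ := r1d k r
  refine ⟨C1, hC1, fun K => ?_⟩
  obtain ⟨C2, hC2, h2⟩ := h1 K
  refine ⟨C2, hC2, ?_⟩
  intro Ω α β τ υ _ p hp X S h ab A B W D y N a b θ Lf hθ y0 y1 da db up sl sl0 low hN hD hDc
    hU hB hA
  rcases Nat.eq_zero_or_pos X with hX | hX
  · have e : gp X ab ((k + 1) * K) S = gp X ab ((k + 1) * K) 0 := by
      unfold gp
      simp only [hX, mul_zero]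
    have g1 := CH_nonneg hp.nonneg (fun ω => ⌊(2 : ℝ) ^ (gp X ab ((k + 1) * K) S) * N ω⌋)
        (fun ω => (⌊(2 : ℝ) ^ (gp X ab ((k + 1) * K) 0) * N ω⌋, (D ω, W ω)))
    have g2 : 0 ≤ C1 * (((S : ℝ) + 1) * θ + X) := by positivity
    have g3 : 0 ≤ C2 * (((S : ℝ) + 1) * (1 + h)) := by positivity
    have g4 : ((gp X ab ((k + 1) * K) S : ℝ) - gp X ab ((k + 1) * K) 0) * Real.log 2 = 0 := by
      rw [e, sub_self, zero_mul]
    rw [g4]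
    linarith
  · refine h2 hp (Lf := Lf) ⟨y0, y1, da, db, ?_, sl, sl0, ?_, hN, hD, hDc, hU, hB, hA, hX⟩ hθ
    · intro ω hω al
      have := up ω hω al
      rw [shf_eq] at this
      exact this
    · intro s ρ hg ω hω
      obtain ⟨al, e1, e2⟩ := low s ρ hg.h1 hg.hr (by have := hg.hs; omega) hg.hS hg.gl hg.gr ω hω
      rw [shf_eq] at e2
      exact ⟨al, e1, e2⟩

end Pool.R1P
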