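import Pool.Agent.H3.JM.Est
import Pool.Agent.H3.JM.Prf2

/-!
# The two-step walk: the estimates for a pair of samples
-/

set_option autoImplicit false

namespace Pool.R1P

open Finset Real Pool.LU
open Pool.Agent.H49.Ent Pool.Agent.H32.Dense Pool.STK Pool.KA Pool.KSAT Pool.K2S Pool.PC
open Pool.XBG (cel xx crn xx_nonneg xx_lt)

variable {k K : ℕ}

/-! ### Values -/

theorem ev_real (q : Ar k K) (x : Fin k → ℝ) : ev q x = ∑ α, q α * ∏ i, x i ^ (α i : ℕ) := rfl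

theorem ev_sh_real (q : Ar k K) (v x : Fin k → ℝ) :
    ev (sh v q) x = ev q (fun i => v i + x i) := ev_sh q v x

theorem ev_sc (t : ℝ) (q : Ar k K) (x : Fin k → ℝ) : ev (sc t q) x = ev q (fun i => t * x i) := by
  rw [ev_real, ev_real]
  refine Finset.sum_congr rfl fun α _ => ?_
  unfold sc dg
  rw [← Finset.prod_pow_eq_pow_sum]
  simp only [mul_pow]
  rw [Finset.prod_mul_distrib]
  ring

theorem ev_lo (n : ℕ) (u : Fin k → ℝ) (q : Ar k K) (x : Fin k → ℝ) :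
    ev (lo n u q) x = ev q (fun i => (u i + x i) / 2 ^ n) := by
  unfold lo
  rw [ev_sc, ev_sh_real]
  congr 1
  funext i
  ring

theorem ev_sub (q q' : Ar k K) (x : Fin k → ℝ) :
    ev (fun α => q α - q' α) x = ev q x - ev q' x := by
  rw [ev_real, ev_real, ev_real, ← Finset.sum_sub_distrib]
  exact Finset.sum_congr rfl fun α _ => by ring

theorem ev_le {q : Ar k K} {x : Fin k → ℝ} {M : ℝ} (hM : 0 ≤ M) (hx : ∀ i, |x i| ≤ 1)
    (h : ∀ α, |q α| ≤ M) : |ev q x| ≤ (K + 1) ^ k * M := by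
  rw [ev_real]
  refine (Finset.abs_sum_le_sum_abs _ _).trans ?_
  calc ∑ α : Ix k K, |q α * ∏ i, x i ^ (α i : ℕ)| ≤ ∑ _α : Ix k K, M := by
        refine Finset.sum_le_sum fun α _ => ?_
        rw [abs_mul, Finset.abs_prod]
        have h1 : ∏ i, |x i ^ (α i : ℕ)| ≤ 1 := by
          refine Finset.prod_le_one (fun i _ => abs_nonneg _) fun i _ => ?_
          rw [abs_pow]
          exact pow_le_one₀ (abs_nonneg _) (hx i)
        calc |q α| * ∏ i, |x i ^ (α i : ℕ)| ≤ M * 1 :=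
              mul_le_mul (h α) h1 (Finset.prod_nonneg fun i _ => abs_nonneg _) hM
          _ = M := mul_one M
    _ = _ := by rw [Finset.sum_const, Finset.card_univ, nsmul_eq_mul, card_Ix]

theorem ev_zero (q : Ar k K) (v : Fin k → ℝ) : ev q v = sh v q (fun _ => 0) := by
  rw [ev_real]
  unfold sh se
  refine Finset.sum_congr rfl fun α _ => ?_
  congr 1
  refine Finset.prod_congr rfl fun i _ => ?_
  simp

/-- The variation of the value. -/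
theorem ev_lip {q : Ar k K} {x x' : Fin k → ℝ} {M ε : ℝ} (hM : 0 ≤ M) (hε : 0 ≤ ε) (hε1 : ε ≤ 1)
    (hx : ∀ i, |x' i| ≤ 1) (hd : ∀ i, |x i - x' i| ≤ ε) (h : ∀ α, |q α| ≤ M) :
    |ev q x - ev q x'| ≤ (K + 1) ^ k * (Cs k K 1 * (ε * M)) := by
  have e1 : ev q x = ev (sh (fun i => x i - x' i) q) x' := by
    rw [ev_sh_real]
    congr 1
    funext i
    ring
  rw [e1, ← ev_sub]
  refine ev_le ?_ hx fun α => ?_
  · have := Cs_nonneg (k := k) (K := K) (le_refl (1 : ℝ))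
    positivity
  · exact sh_small le_rfl hε hε1 (fun i => by rw [one_mul]; exact hd i) hM fun β _ => h β

variable {Ω α β τ υ : Type} {p : Ω → ℝ} {r X S h : ℕ} {ab : ℕ → ℕ}
  {A : Ω → α} {B : Ω → β} {W : Ω → τ} {Dg : Ω → υ} {y : Ω → Fin k → ℝ} {N : Ω → ℝ}
  {a b : Ω → Ar k K} {θ Lf : ℝ}

/-- The hypotheses of the two-step walk. -/
structure Dat2 [Fintype Ω] (p : Ω → ℝ) (k K r X S h : ℕ) (ab : ℕ → ℕ) (A : Ω → α) (B : Ω → β)
    (W : Ω → τ) (Dg : Ω → υ) (y : Ω → Fin k → ℝ) (N : Ω → ℝ) (a b : Ω → Ar k K) (θ Lf : ℝ) :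
    Prop where
  y0 : ∀ ω i, 0 ≤ y ω i
  y1 : ∀ ω i, y ω i < 1
  da : Det p (fun ω => (A ω, W ω)) a
  db : Det p (fun ω => (B ω, W ω)) b
  up : ∀ ω, 0 < p ω → ∀ α, |sh (y ω) (dif a b ω) α| ≤ 2 ^ h / 2 ^ (ab (dg α))
  slope : ∀ s, 1 ≤ s → s < S → gp X ab (k * K) (s + 1) ≤ gp X ab (k * K) s + r * X
  slope0 : gp X ab (k * K) 1 ≤ gp X ab (k * K) 0 + (r + 1) * X
  low : ∀ s ρ, Gd X ab (k * K) r S s ρ →
    ∀ ω, 0 < p ω → ∃ α, dg α = ρ ∧ 1 / 2 ^ (ab ρ + h) ≤ |sh (y ω) (dif a b ω) α|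
  hN : ∀ ω, 0 < p ω → |N ω - ev (a ω) (y ω)| ≤ 2 ^ h / 2 ^ (gp X ab (k * K) S)
  hD : ∀ ω ω' ω'', 0 < p ω → 0 < p ω' → 0 < p ω'' → Dg ω = Dg ω' → W ω = W ω' → W ω'' = W ω →
    |ev (a ω'') (y ω) - ev (a ω'') (y ω')| ≤ 2 ^ h / 2 ^ (gp X ab (k * K) S)
  hDc : Det p (fun ω => (Dg ω, W ω)) (cel X y S)
  hU : ∀ i < S, CH p Dg (fun ω => (W ω, cel X y i ω)) ≤ Lf - k * (i * (X * Real.log 2)) + h
  hB : Lf - θ ≤ CH p Dg (fun ω => (B ω, W ω))
  hA : k * (S * (X * Real.log 2)) - θ ≤ CH p (cel X y S) (fun ω => (A ω, W ω))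
  hX : 1 ≤ X

/-- The rounded jets. -/
noncomputable def gt (r X : ℕ) (ab : ℕ → ℕ) (y : Ω → Fin k → ℝ) (a b : Ω → Ar k K) (ω : Ω)
    (α : Ix k K) : ℤ :=
  if dg α ≤ r then ⌊(2 : ℝ) ^ (r * X) * (2 ^ (ab (dg α)) * sh (y ω) (dif a b ω) α)⌋ else 0

/-- The rounded form of the order `ρ`. -/
noncomputable def gf (r X : ℕ) (ab : ℕ → ℕ) (y : Ω → Fin k → ℝ) (a b : Ω → Ar k K) (ρ : ℕ)
    (ω : Ω) (α : Ix k K) : ℝ :=
  if dg α = ρ then (gt r X ab y a b ω α : ℝ) / 2 ^ (r * X) else 0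

/-- The relative cell. -/
noncomputable def crl (X : ℕ) (y : Ω → Fin k → ℝ) (s ρ : ℕ) (ω : Ω) (i : Fin k) : ℤ :=
  cel X y (s + ρ) ω i - 2 ^ (ρ * X) * cel X y s ω i

theorem crl_xx (X : ℕ) (y : Ω → Fin k → ℝ) (s ρ : ℕ) (ω : Ω) (i : Fin k) :
    xx X y s ω i = ((crl X y s ρ ω i : ℝ) + xx X y (s + ρ) ω i) / 2 ^ (ρ * X) := by
  unfold crl xx
  have e : (2 : ℝ) ^ ((s + ρ) * X) = 2 ^ (s * X) * 2 ^ (ρ * X) := by
    rw [← pow_add]
    congr 1
    ring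
  have h : (2 : ℝ) ^ (ρ * X) ≠ 0 := by positivity
  push_cast
  rw [e]
  field_simp
  ring

theorem crl_nonneg (X : ℕ) (y : Ω → Fin k → ℝ) (s ρ : ℕ) (ω : Ω) (i : Fin k) :
    0 ≤ crl X y s ρ ω i := by
  have h1 := crl_xx X y s ρ ω i
  have h2 := xx_nonneg X y s ω i
  have h3 := xx_lt X y (s + ρ) ω i
  rw [h1] at h2
  have h4 : (0 : ℝ) < 2 ^ (ρ * X) := by positivity
  have h5 : 0 ≤ (crl X y s ρ ω i : ℝ) + xx X y (s + ρ) ω i := by
    by_contra hc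
    push Not at hc
    have := div_neg_of_neg_of_pos hc h4
    linarith
  have h6 : (-1 : ℝ) < (crl X y s ρ ω i : ℝ) := by linarith
  have h7 : (-1 : ℤ) < crl X y s ρ ω i := by exact_mod_cast h6
  omega

theorem crl_lt (X : ℕ) (y : Ω → Fin k → ℝ) (s ρ : ℕ) (ω : Ω) (i : Fin k) :
    crl X y s ρ ω i < 2 ^ (ρ * X) := by
  have h1 := crl_xx X y s ρ ω i
  have h2 := xx_lt X y s ω i
  have h3 := xx_nonneg X y (s + ρ) ω i
  rw [h1] at h2
  have h4 : (0 : ℝ) < 2 ^ (ρ * X) := by positivity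
  rw [div_lt_one h4] at h2
  have h6 : (crl X y s ρ ω i : ℝ) < ((2 ^ (ρ * X) : ℤ) : ℝ) := by
    push_cast
    linarith
  exact_mod_cast h6

/-- The difference of the positions in the cell. -/
noncomputable def xd (X : ℕ) (y : Ω → Fin k → ℝ) (s ρ : ℕ) (e : Ω × Ω) (i : Fin k) : ℝ :=
  (crl X y s ρ e.2 i : ℝ) / 2 ^ (ρ * X) - (crl X y s ρ e.1 i : ℝ) / 2 ^ (ρ * X)

theorem xd_bd (X : ℕ) (y : Ω → Fin k → ℝ) (s ρ : ℕ) (e : Ω × Ω) (i : Fin k) :
    |xd X y s ρ e i| ≤ 1 := by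
  have h4 : (0 : ℝ) < 2 ^ (ρ * X) := by positivity
  have b : ∀ ω, 0 ≤ (crl X y s ρ ω i : ℝ) / 2 ^ (ρ * X) ∧
      (crl X y s ρ ω i : ℝ) / 2 ^ (ρ * X) ≤ 1 := by
    intro ω
    have h1 : (0 : ℝ) ≤ crl X y s ρ ω i := by exact_mod_cast crl_nonneg X y s ρ ω i
    have h2 : (crl X y s ρ ω i : ℝ) ≤ 2 ^ (ρ * X) := by
      have := (crl_lt X y s ρ ω i).le
      exact_mod_cast this
    exact ⟨div_nonneg h1 h4.le, by rw [div_le_one h4]; exact h2⟩
  unfold xd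
  rw [abs_le]
  constructor <;> linarith [(b e.1).1, (b e.1).2, (b e.2).1, (b e.2).2]

theorem xd_near (X : ℕ) (y : Ω → Fin k → ℝ) (s ρ : ℕ) (e : Ω × Ω) (i : Fin k) :
    |(xx X y s e.2 i - xx X y s e.1 i) - xd X y s ρ e i| ≤ 1 / 2 ^ (ρ * X) := by
  have h4 : (0 : ℝ) < 2 ^ (ρ * X) := by positivity
  unfold xd
  rw [crl_xx X y s ρ e.2 i, crl_xx X y s ρ e.1 i]
  have e1 : ((crl X y s ρ e.2 i : ℝ) + xx X y (s + ρ) e.2 i) / 2 ^ (ρ * X) -
      ((crl X y s ρ e.1 i : ℝ) + xx X y (s + ρ) e.1 i) / 2 ^ (ρ * X) -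
      ((crl X y s ρ e.2 i : ℝ) / 2 ^ (ρ * X) - (crl X y s ρ e.1 i : ℝ) / 2 ^ (ρ * X)) =
      (xx X y (s + ρ) e.2 i - xx X y (s + ρ) e.1 i) / 2 ^ (ρ * X) := by ring
  rw [e1, abs_div, abs_of_pos h4]
  refine div_le_div_of_nonneg_right ?_ h4.le
  rw [abs_le]
  constructor <;> linarith [xx_nonneg X y (s + ρ) e.2 i, xx_lt X y (s + ρ) e.2 i,
    xx_nonneg X y (s + ρ) e.1 i, xx_lt X y (s + ρ) e.1 i]

/-- The output of a pair. -/
noncomputable def mq (r X : ℕ) (ab : ℕ → ℕ) (y : Ω → Fin k → ℝ) (a b : Ω → Ar k K) (s ρ : ℕ)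
    (e : Ω × Ω) : ℤ :=
  ⌊(2 : ℝ) ^ (ρ * X) * ev (gf r X ab y a b ρ e.1) (xd X y s ρ e)⌋

/-- The constant of the pairs. -/
noncomputable def C6 (k K : ℕ) : ℝ := (K + 1) ^ k + 2

/-- The constant of the outputs. -/
noncomputable def C5 (k K : ℕ) : ℝ := (K + 1) ^ k * (1 + 2 * Cs k K 1) + 2

theorem C5_nonneg : 0 ≤ C5 k K := by
  have := Cs_nonneg (k := k) (K := K) (le_refl (1 : ℝ))
  unfold C5
  positivity

variable [Fintype Ω]

/-- The rounded form is near the form. -/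
theorem Dat2.form (h' : Dat2 p k K r X S h ab A B W Dg y N a b θ Lf) {s ρ : ℕ}
    (hg : Gd X ab (k * K) r S s ρ) {ω : Ω} (hω : 0 < p ω) (α : Ix k K) :
    |2 ^ (gp X ab (k * K) s) * phi X y a b s ω α - gf r X ab y a b ρ ω α| ≤
      2 ^ h / 2 ^ (ρ * X) := by
  have hh : (1 : ℝ) ≤ 2 ^ h := one_le_pow₀ (by norm_num)
  have hX0 := h'.hX
  unfold gf
  by_cases hα : dg α = ρ
  · rw [if_pos hα, phi_eq, hα, pw_pow]
    unfold gt
    rw [if_pos (by rw [hα]; exact hg.hr), hα]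
    obtain ⟨v, hv⟩ : ∃ v, v = sh (y ω) (dif a b ω) α := ⟨_, rfl⟩
    rw [← hv]
    have e1 : (2 : ℝ) ^ (gp X ab (k * K) s) * (1 / 2 ^ (ρ * (s * X)) * v) = 2 ^ (ab ρ) * v := by
      rw [hg.g0, pow_add]
      field_simp
    rw [e1]
    have h1 := fl_round (r * X) (2 ^ (ab ρ) * v)
    have h4 : (0 : ℝ) < 2 ^ (r * X) := by positivity
    have e2 : 2 ^ (ab ρ) * v - (⌊(2 : ℝ) ^ (r * X) * (2 ^ (ab ρ) * v)⌋ : ℝ) / 2 ^ (r * X) =
        -(((⌊(2 : ℝ) ^ (r * X) * (2 ^ (ab ρ) * v)⌋ : ℝ) - 2 ^ (r * X) * (2 ^ (ab ρ) * v)) /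
          2 ^ (r * X)) := by
      field_simp
      ring
    rw [e2, abs_neg, abs_div, abs_of_pos h4]
    have h5 : (1 : ℝ) / 2 ^ (r * X) ≤ 1 / 2 ^ (ρ * X) := pw_le (Nat.mul_le_mul_right X hg.hr)
    calc _ ≤ (1 : ℝ) / 2 ^ (r * X) := div_le_div_of_nonneg_right h1 h4.le
      _ ≤ 1 / 2 ^ (ρ * X) := h5
      _ ≤ _ := div_le_div_of_nonneg_right hh (by positivity)
  · rw [if_neg hα, sub_zero, phi_eq, abs_mul, abs_mul, pw_pow, abs_of_nonneg (by positivity),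
      abs_of_nonneg (by positivity)]
    have h1 := h'.up ω hω α
    have h2 := hg.gap (dg α) (dg_le α) hα
    calc (2 : ℝ) ^ (gp X ab (k * K) s) * (1 / 2 ^ (dg α * (s * X)) *
          |sh (y ω) (dif a b ω) α|) ≤ 2 ^ (gp X ab (k * K) s) * (1 / 2 ^ (dg α * (s * X)) *
          (2 ^ h / 2 ^ (ab (dg α)))) := by
          refine mul_le_mul_of_nonneg_left ?_ (by positivity)
          exact mul_le_mul_of_nonneg_left h1 (by positivity)
      _ = 2 ^ (gp X ab (k * K) s) * (2 ^ h / 2 ^ (dg α * (s * X) + ab (dg α))) := by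
          rw [pow_add]
          field_simp
      _ ≤ 2 ^ (gp X ab (k * K) s) * (2 ^ h / 2 ^ (gp X ab (k * K) s + ρ * X)) := by
          refine mul_le_mul_of_nonneg_left ?_ (by positivity)
          exact div_le_div_of_nonneg_left (by positivity) (by positivity)
            (pow_le_pow_right₀ (by norm_num) h2)
      _ = _ := by
          rw [pow_add]
          field_simp

theorem Dat2.phi_gp (h' : Dat2 p k K r X S h ab A B W Dg y N a b θ Lf) (s : ℕ) {ω : Ω}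
    (hω : 0 < p ω) (α : Ix k K) :
    |phi X y a b s ω α| ≤ 2 ^ h / 2 ^ (gp X ab (k * K) s) := by
  rw [phi_eq, abs_mul, abs_of_nonneg (by positivity), pw_pow]
  have h1 := h'.up ω hω α
  calc (1 : ℝ) / 2 ^ (dg α * (s * X)) * |sh (y ω) (dif a b ω) α|
      ≤ 1 / 2 ^ (dg α * (s * X)) * (2 ^ h / 2 ^ (ab (dg α))) :=
        mul_le_mul_of_nonneg_left h1 (by positivity)
    _ = 2 ^ h / 2 ^ (dg α * (s * X) + ab (dg α)) := by
        rw [pow_add]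
        field_simp
    _ ≤ _ := div_le_div_of_nonneg_left (by positivity) (by positivity)
        (pow_le_pow_right₀ (by norm_num) (gp_le s (dg_le α)))

/-- The size of the rounded form. -/
theorem Dat2.gf_le (h' : Dat2 p k K r X S h ab A B W Dg y N a b θ Lf) {s ρ : ℕ}
    (hg : Gd X ab (k * K) r S s ρ) {ω : Ω} (hω : 0 < p ω) (α : Ix k K) :
    |gf r X ab y a b ρ ω α| ≤ 2 * 2 ^ h := by
  have h1 := h'.form hg hω α
  have h2 := h'.phi_gp s hω α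
  have h3 : (0 : ℝ) < 2 ^ (gp X ab (k * K) s) := by positivity
  have h4 : |2 ^ (gp X ab (k * K) s) * phi X y a b s ω α| ≤ 2 ^ h := by
    rw [abs_mul, abs_of_pos h3]
    have := mul_le_mul_of_nonneg_left h2 h3.le
    refine this.trans (le_of_eq ?_)
    field_simp
  have h5 : (2 : ℝ) ^ h / 2 ^ (ρ * X) ≤ 2 ^ h :=
    div_le_self (by positivity) (one_le_pow₀ (by norm_num))
  have h6 : |gf r X ab y a b ρ ω α| ≤ |2 ^ (gp X ab (k * K) s) * phi X y a b s ω α| +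
      |2 ^ (gp X ab (k * K) s) * phi X y a b s ω α - gf r X ab y a b ρ ω α| := by
    have := abs_sub (2 ^ (gp X ab (k * K) s) * phi X y a b s ω α)
      (2 ^ (gp X ab (k * K) s) * phi X y a b s ω α - gf r X ab y a b ρ ω α)
    rwa [sub_sub_cancel] at this
  linarith

/-- The lower bound for the rounded form. -/
theorem Dat2.gf_low (h' : Dat2 p k K r X S h ab A B W Dg y N a b θ Lf) {s ρ : ℕ}
    (hg : Gd X ab (k * K) r S s ρ) (hXh : h + 1 ≤ X) {ω : Ω} (hω : 0 < p ω) :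
    ∃ α, 1 / 2 ^ (h + 1) ≤ |gf r X ab y a b ρ ω α| := by
  obtain ⟨α, hα, hl⟩ := h'.low s ρ hg ω hω
  refine ⟨α, ?_⟩
  unfold gf
  rw [if_pos hα]
  unfold gt
  rw [if_pos (by rw [hα]; exact hg.hr), hα]
  obtain ⟨v, hv⟩ : ∃ v, v = 2 ^ (ab ρ) * sh (y ω) (dif a b ω) α := ⟨_, rfl⟩
  have hv2 : 1 / 2 ^ h ≤ |v| := by
    rw [hv, abs_mul, abs_of_nonneg (by positivity)]
    have := mul_le_mul_of_nonneg_left hl (show (0 : ℝ) ≤ 2 ^ (ab ρ) by positivity)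
    refine le_trans (le_of_eq ?_) this
    rw [pow_add]
    field_simp
  rw [← hv]
  have h1 := fl_round (r * X) v
  have h4 : (0 : ℝ) < 2 ^ (r * X) := by positivity
  have h5 : |(⌊(2 : ℝ) ^ (r * X) * v⌋ : ℝ) / 2 ^ (r * X) - v| ≤ 1 / 2 ^ (r * X) := by
    have e : (⌊(2 : ℝ) ^ (r * X) * v⌋ : ℝ) / 2 ^ (r * X) - v =
        ((⌊(2 : ℝ) ^ (r * X) * v⌋ : ℝ) - 2 ^ (r * X) * v) / 2 ^ (r * X) := by
      field_simp
    rw [e, abs_div, abs_of_pos h4]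
    exact div_le_div_of_nonneg_right h1 h4.le
  have h6 : (1 : ℝ) / 2 ^ (r * X) ≤ 1 / 2 ^ (h + 1) := by
    refine pw_le ?_
    have h7 : 1 ≤ r := hg.h1.trans hg.hr
    calc h + 1 ≤ X := hXh
      _ = 1 * X := (one_mul X).symm
      _ ≤ r * X := Nat.mul_le_mul_right X h7
  have h8 : |v| ≤ |(⌊(2 : ℝ) ^ (r * X) * v⌋ : ℝ) / 2 ^ (r * X)| +
      |(⌊(2 : ℝ) ^ (r * X) * v⌋ : ℝ) / 2 ^ (r * X) - v| := by
    have := abs_sub ((⌊(2 : ℝ) ^ (r * X) * v⌋ : ℝ) / 2 ^ (r * X))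
      ((⌊(2 : ℝ) ^ (r * X) * v⌋ : ℝ) / 2 ^ (r * X) - v)
    rwa [sub_sub_cancel] at this
  have h9 : (1 : ℝ) / 2 ^ h = 2 * (1 / 2 ^ (h + 1)) := by
    rw [pow_succ]
    field_simp
  linarith

/-- The pair: the third sample has the second leaf of the first. -/
theorem Dat2.pair (h' : Dat2 p k K r X S h ab A B W Dg y N a b θ Lf) (s : ℕ) {e : Ω × Ω}
    (h1 : 0 < p e.1) (h2 : 0 < p e.2) (hB : B e.1 = B e.2) (hW : W e.1 = W e.2)
    (hc : cel X y s e.1 = cel X y s e.2) :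
    |(ev (a e.1) (y e.2) - N e.2) -
      ev (phi X y a b s e.1) (fun i => xx X y s e.2 i - xx X y s e.1 i)| ≤
      2 * (2 ^ h / 2 ^ (gp X ab (k * K) S)) := by
  have hb : b e.1 = b e.2 := h'.db e.1 e.2 h1 h2 (Prod.ext hB hW)
  have e1 : ev (phi X y a b s e.1) (fun i => xx X y s e.2 i - xx X y s e.1 i) =
      ev (a e.1) (y e.2) - ev (b e.2) (y e.2) := by
    unfold phi
    rw [ev_lo]
    have e2 : (fun i => (2 ^ (s * X) * y e.1 i + (xx X y s e.2 i - xx X y s e.1 i)) /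
        2 ^ (s * X)) = y e.2 := by
      funext i
      unfold xx
      rw [hc]
      have h3 : (2 : ℝ) ^ (s * X) ≠ 0 := by positivity
      field_simp
      ring
    rw [e2]
    unfold dif
    rw [ev_sub, hb]
  rw [e1]
  have n1 := h'.hN e.2 h2
  have n2 : |ev (a e.2) (y e.2) - ev (b e.2) (y e.2)| ≤ 2 ^ h / 2 ^ (gp X ab (k * K) S) := by
    rw [← ev_sub]
    have e3 : (fun α => a e.2 α - b e.2 α) = dif a b e.2 := rfl
    rw [e3, ev_zero]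
    refine (h'.up e.2 h2 _).trans ?_
    refine div_le_div_of_nonneg_left (by positivity) (by positivity) ?_
    refine pow_le_pow_right₀ (by norm_num) ?_
    have e4 : dg (fun _ => 0 : Ix k K) = 0 := by
      unfold dg
      simp
    rw [e4]
    have := gp_le (X := X) (ab := ab) (D := k * K) S (Nat.zero_le (k * K))
    simpa using this
  have e5 : ev (a e.1) (y e.2) - N e.2 - (ev (a e.1) (y e.2) - ev (b e.2) (y e.2)) =
      -((N e.2 - ev (a e.2) (y e.2)) + (ev (a e.2) (y e.2) - ev (b e.2) (y e.2))) := by ring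
  rw [e5, abs_neg]
  refine (abs_add_le _ _).trans ?_
  linarith

omit [Fintype Ω] in
theorem xxd_bd (X : ℕ) (y : Ω → Fin k → ℝ) (s : ℕ) (e : Ω × Ω) (i : Fin k) :
    |xx X y s e.2 i - xx X y s e.1 i| ≤ 1 := by
  rw [abs_le]
  constructor <;> linarith [xx_nonneg X y s e.2 i, xx_lt X y s e.2 i,
    xx_nonneg X y s e.1 i, xx_lt X y s e.1 i]

/-- The rows known before the block. -/
theorem Dat2.pair0 (h' : Dat2 p k K r X S h ab A B W Dg y N a b θ Lf) {s : ℕ} (hs : s ≤ S)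
    {e : Ω × Ω} (h1 : 0 < p e.1) (h2 : 0 < p e.2) (hB : B e.1 = B e.2) (hW : W e.1 = W e.2)
    (hc : cel X y s e.1 = cel X y s e.2) :
    |2 ^ (gp X ab (k * K) s) * (ev (a e.1) (y e.2) - N e.2)| ≤ C6 k K * 2 ^ h := by
  have k1 := h'.pair s h1 h2 hB hW hc
  have k2 := ev_le (q := phi X y a b s e.1) (M := 2 ^ h / 2 ^ (gp X ab (k * K) s)) (by positivity)
    (xxd_bd X y s e) (fun α => h'.phi_gp s h1 α)
  obtain ⟨u, hu⟩ : ∃ u, u = ev (a e.1) (y e.2) - N e.2 := ⟨_, rfl⟩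
  obtain ⟨v, hv⟩ : ∃ v, v = ev (phi X y a b s e.1) (fun i => xx X y s e.2 i - xx X y s e.1 i) :=
    ⟨_, rfl⟩
  rw [← hu, ← hv] at k1
  rw [← hv] at k2
  rw [← hu]
  have h3 : (0 : ℝ) < 2 ^ (gp X ab (k * K) s) := by positivity
  have h4 : (2 : ℝ) ^ h / 2 ^ (gp X ab (k * K) S) ≤ 2 ^ h / 2 ^ (gp X ab (k * K) s) :=
    div_le_div_of_nonneg_left (by positivity) (by positivity)
      (pow_le_pow_right₀ (by norm_num) (gp_mono X ab (k * K) hs))
  have h5 : |u| ≤ C6 k K * (2 ^ h / 2 ^ (gp X ab (k * K) s)) := by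
    have g1 : |u| ≤ |u - v| + |v| := by
      have := abs_add_le (u - v) v
      rwa [sub_add_cancel] at this
    unfold C6
    linarith
  rw [abs_mul, abs_of_pos h3]
  have h6 := mul_le_mul_of_nonneg_left h5 h3.le
  refine h6.trans (le_of_eq ?_)
  field_simp

/-- **The rows of the block.** -/
theorem Dat2.pair1 (h' : Dat2 p k K r X S h ab A B W Dg y N a b θ Lf) {s ρ : ℕ}
    (hg : Gd X ab (k * K) r S s ρ) {e : Ω × Ω} (h1 : 0 < p e.1) (h2 : 0 < p e.2)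
    (hB : B e.1 = B e.2) (hW : W e.1 = W e.2) (hc : cel X y s e.1 = cel X y s e.2) :
    |2 ^ (gp X ab (k * K) (s + 1)) * (ev (a e.1) (y e.2) - N e.2) -
      2 ^ (ρ * X) * ev (gf r X ab y a b ρ e.1) (xd X y s ρ e)| ≤ C5 k K * 2 ^ h := by
  have k1 := h'.pair s h1 h2 hB hW hc
  have hCs := Cs_nonneg (k := k) (K := K) (le_refl (1 : ℝ))
  have hg1 : gp X ab (k * K) (s + 1) = gp X ab (k * K) s + ρ * X := by
    rw [hg.g1, hg.g0]
    ring
  -- the form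
  have k2 : |2 ^ (gp X ab (k * K) s) * ev (phi X y a b s e.1)
      (fun i => xx X y s e.2 i - xx X y s e.1 i) - ev (gf r X ab y a b ρ e.1)
      (fun i => xx X y s e.2 i - xx X y s e.1 i)| ≤ (K + 1) ^ k * (2 ^ h / 2 ^ (ρ * X)) := by
    have e1 : 2 ^ (gp X ab (k * K) s) * ev (phi X y a b s e.1)
        (fun i => xx X y s e.2 i - xx X y s e.1 i) =
        ev (fun α => 2 ^ (gp X ab (k * K) s) * phi X y a b s e.1 α)
        (fun i => xx X y s e.2 i - xx X y s e.1 i) := by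
      rw [ev_real, ev_real, Finset.mul_sum]
      exact Finset.sum_congr rfl fun α _ => by ring
    rw [e1, ← ev_sub]
    exact ev_le (by positivity) (xxd_bd X y s e) fun α => h'.form hg h1 α
  have k3 := ev_lip (q := gf r X ab y a b ρ e.1)
    (x := fun i => xx X y s e.2 i - xx X y s e.1 i) (x' := xd X y s ρ e) (M := 2 * 2 ^ h)
    (ε := 1 / 2 ^ (ρ * X)) (by positivity) (by positivity) (pw_le1 _) (xd_bd X y s ρ e)
    (xd_near X y s ρ e) (fun α => h'.gf_le hg h1 α)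
  obtain ⟨u, hu⟩ : ∃ u, u = ev (a e.1) (y e.2) - N e.2 := ⟨_, rfl⟩
  obtain ⟨v, hv⟩ : ∃ v, v = ev (phi X y a b s e.1) (fun i => xx X y s e.2 i - xx X y s e.1 i) :=
    ⟨_, rfl⟩
  obtain ⟨g, hgg⟩ : ∃ g, g = ev (gf r X ab y a b ρ e.1)
      (fun i => xx X y s e.2 i - xx X y s e.1 i) := ⟨_, rfl⟩
  obtain ⟨g', hg'⟩ : ∃ g, g = ev (gf r X ab y a b ρ e.1) (xd X y s ρ e) := ⟨_, rfl⟩
  rw [← hu, ← hv] at k1
  rw [← hv, ← hgg] at k2
  rw [← hgg, ← hg'] at k3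
  rw [← hu, ← hg', hg1]
  have hP : (0 : ℝ) < 2 ^ (ρ * X) := by positivity
  have hQ : (0 : ℝ) < 2 ^ (gp X ab (k * K) s + ρ * X) := by positivity
  have e2 : 2 ^ (gp X ab (k * K) s + ρ * X) * u - 2 ^ (ρ * X) * g' =
      2 ^ (gp X ab (k * K) s + ρ * X) * (u - v) + 2 ^ (ρ * X) *
        (2 ^ (gp X ab (k * K) s) * v - g) + 2 ^ (ρ * X) * (g - g') := by
    rw [pow_add]
    ring
  rw [e2]
  have f1 : |2 ^ (gp X ab (k * K) s + ρ * X) * (u - v)| ≤ 2 * 2 ^ h := by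
    rw [abs_mul, abs_of_pos hQ]
    have h4 : (2 : ℝ) ^ h / 2 ^ (gp X ab (k * K) S) ≤ 2 ^ h / 2 ^ (gp X ab (k * K) s + ρ * X) := by
      refine div_le_div_of_nonneg_left (by positivity) (by positivity)
        (pow_le_pow_right₀ (by norm_num) ?_)
      rw [← hg1]
      refine gp_mono X ab (k * K) ?_
      have := hg.hS
      have := hg.h1
      have := hg.hr
      omega
    have h5 := mul_le_mul_of_nonneg_left (k1.trans (mul_le_mul_of_nonneg_left h4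
      (by norm_num : (0 : ℝ) ≤ 2))) hQ.le
    refine h5.trans (le_of_eq ?_)
    field_simp
  have f2 : |2 ^ (ρ * X) * (2 ^ (gp X ab (k * K) s) * v - g)| ≤ (K + 1) ^ k * 2 ^ h := by
    rw [abs_mul, abs_of_pos hP]
    have h5 := mul_le_mul_of_nonneg_left k2 hP.le
    refine h5.trans (le_of_eq ?_)
    field_simp
  have f3 : |2 ^ (ρ * X) * (g - g')| ≤ (K + 1) ^ k * (Cs k K 1 * (2 * 2 ^ h)) := by
    rw [abs_mul, abs_of_pos hP]
    have h5 := mul_le_mul_of_nonneg_left k3 hP.le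
    refine h5.trans (le_of_eq ?_)
    field_simp
  have f4 := abs_add_le (2 ^ (gp X ab (k * K) s + ρ * X) * (u - v) + 2 ^ (ρ * X) *
        (2 ^ (gp X ab (k * K) s) * v - g)) (2 ^ (ρ * X) * (g - g'))
  have f5 := abs_add_le (2 ^ (gp X ab (k * K) s + ρ * X) * (u - v)) (2 ^ (ρ * X) *
        (2 ^ (gp X ab (k * K) s) * v - g))
  have e3 : C5 k K * 2 ^ h = (K + 1) ^ k * 2 ^ h + (K + 1) ^ k * (Cs k K 1 * (2 * 2 ^ h)) +
      2 * 2 ^ h := by
    unfold C5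
    ring
  rw [e3]
  linarith

end Pool.R1P
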